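import Pool.Agent.H37.PPC.Defs
import Pool.Agent.Lead.ZN.Mertens
import Pool.Agent.H10.GoldLoc.Mertens

/-!
PPC Mt: two-sided Mertens for ∑ 1/p between natural numbers, and two sums of log^{1/2}.

Sources: Pool.Agent.Lead.ZN.mertens (∑ log p/p two-sided over PL u v = primes with u < log p ≤ v; ∑ 1/p upper),
and Abel summation (`Gold.abel_le`) for the lower bound.

`sum_half`: f(u) = ∑_{p ≤ u} (log p)^{1/2}/p ≤ K (log u)^{1/2}: strong induction, f(u) - f(√u) ≤ (log u)^{1/2} ∑_{√u<p≤u} 1/p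
 ≤ C (log u)^{1/2}, and (log √u)^{1/2} = (log u)^{1/2}/√2.
-/

set_option autoImplicit false

namespace Pool.Agent.H37.PPC

open Finset

private theorem Mt_log_pos {k : ℕ} (hk : 2 ≤ k) : 0 < Real.log k :=
  Real.log_pos (by exact_mod_cast (by omega : 1 < k))

private theorem Mt_log_three : (1 : ℝ) ≤ Real.log 3 := by
  rw [Real.le_log_iff_exp_le (by norm_num)]
  have := Real.exp_one_lt_d9
  linarith

private theorem Mt_log_ge {k : ℕ} (hk : 3 ≤ k) : (1 : ℝ) ≤ Real.log k := by
  refine Mt_log_three.trans (Real.log_le_log (by norm_num) ?_)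
  exact_mod_cast hk

private theorem Mt_step {k : ℕ} (hk : 4 ≤ k) :
    (Real.log (Real.log k) - Real.log (Real.log (k - 1 : ℕ))) * Real.log k ≤
      (Real.log k - Real.log (k - 1 : ℕ)) + (1 / ((k : ℝ) - 2) - 1 / ((k : ℝ) - 1)) := by
  have hkr : (4 : ℝ) ≤ k := by exact_mod_cast hk
  have hc : ((k - 1 : ℕ) : ℝ) = k - 1 := by
    push_cast [Nat.cast_sub (by omega : 1 ≤ k)]; ring
  have h1 : (1 : ℝ) ≤ Real.log (k - 1 : ℕ) := Mt_log_ge (by omega)
  have h0 : (1 : ℝ) ≤ Real.log k := Mt_log_ge (by omega)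
  have hp : (0 : ℝ) < ((k - 1 : ℕ) : ℝ) := by rw [hc]; linarith
  set A := Real.log k with hA
  set B := Real.log (k - 1 : ℕ) with hB
  -- `A - B ≤ 1 / (k - 1)`
  have hd : A - B ≤ 1 / ((k : ℝ) - 1) := by
    have h := Real.log_le_sub_one_of_pos (show (0 : ℝ) < (k : ℝ) / ((k - 1 : ℕ) : ℝ) by positivity)
    rw [Real.log_div (by positivity) hp.ne'] at h
    have h2 : (k : ℝ) / ((k - 1 : ℕ) : ℝ) - 1 = 1 / ((k : ℝ) - 1) := by
      rw [hc]
      have : (k : ℝ) - 1 ≠ 0 := by linarith
      field_simp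
      ring
    rw [h2] at h
    exact h
  have hAB : B ≤ A := by
    rw [hA, hB]
    exact Real.log_le_log hp (by rw [hc]; linarith)
  have h3 : Real.log A - Real.log B ≤ (A - B) / B := by
    have h := Real.log_le_sub_one_of_pos (show (0 : ℝ) < A / B by positivity)
    rw [Real.log_div (by linarith) (by linarith)] at h
    have h2 : A / B - 1 = (A - B) / B := by
      rw [sub_div, div_self (by linarith)]
    rw [h2] at h
    exact h
  have h4 : (Real.log A - Real.log B) * A ≤ (A - B) / B * A := mul_le_mul_of_nonneg_right h3 (by linarith)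
  have h5 : (A - B) / B * A = (A - B) + (A - B) ^ 2 / B := by
    have : B ≠ 0 := by linarith
    field_simp
    ring
  have h6 : (A - B) ^ 2 / B ≤ (A - B) ^ 2 := div_le_self (sq_nonneg _) h1
  have h7 : (A - B) ^ 2 ≤ (1 / ((k : ℝ) - 1)) ^ 2 := by
    apply pow_le_pow_left₀ (by linarith) hd
  have h8 : (1 / ((k : ℝ) - 1)) ^ 2 ≤ 1 / ((k : ℝ) - 2) - 1 / ((k : ℝ) - 1) := by
    have e1 : (0 : ℝ) < (k : ℝ) - 1 := by linarith
    have e2 : (0 : ℝ) < (k : ℝ) - 2 := by linarith
    rw [div_sub_div _ _ e2.ne' e1.ne', div_pow, one_pow, div_le_div_iff₀ (by positivity) (by positivity)]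
    nlinarith
  linarith

private theorem Mt_sum_step {m : ℕ} (hm : 3 ≤ m) :
    ∑ k ∈ Ioc 3 m, (Real.log (Real.log k) - Real.log (Real.log (k - 1 : ℕ))) * Real.log k ≤
      Real.log m - Real.log 3 + (1 / 2 - 1 / ((m : ℝ) - 1)) := by
  induction m, hm using Nat.le_induction with
  | base =>
    norm_num
  | succ m hm ih =>
    rw [Finset.sum_Ioc_succ_top (by omega)]
    have h := Mt_step (k := m + 1) (by omega)
    have e : ((m + 1 : ℕ) : ℝ) - 2 = (m : ℝ) - 1 := by push_cast; ring
    rw [e] at h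
    simp only [Nat.add_sub_cancel] at h ⊢
    linarith

private theorem Mt_telescope {m : ℕ} (hm : 3 ≤ m) :
    ∑ k ∈ Ioc 3 m, (Real.log (Real.log k) - Real.log (Real.log (k - 1 : ℕ))) =
      Real.log (Real.log m) - Real.log (Real.log 3) := by
  induction m, hm using Nat.le_induction with
  | base => norm_num
  | succ m hm ih =>
    rw [Finset.sum_Ioc_succ_top (by omega), ih]
    simp only [Nat.add_sub_cancel]
    ring

private theorem Mt_PL {m : ℕ} (hm : 3 ≤ m) :
    Pool.Agent.Lead.ZN.PL (Real.log (3 : ℕ)) (Real.log m) = (Ioc 3 m).filter Nat.Prime := by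
  ext p
  rw [Pool.Agent.Lead.ZN.mem_PL, mem_filter, mem_Ioc]
  constructor
  · rintro ⟨h1, h2, h3⟩
    have hp : (0 : ℝ) < p := by exact_mod_cast h1.pos
    rw [Real.log_lt_log_iff (by norm_num) hp] at h2
    rw [Real.log_le_log_iff hp (by exact_mod_cast (by omega : 0 < m))] at h3
    exact ⟨⟨by exact_mod_cast h2, by exact_mod_cast h3⟩, h1⟩
  · rintro ⟨⟨h2, h3⟩, h1⟩
    have hp : (0 : ℝ) < p := by exact_mod_cast h1.pos
    refine ⟨h1, ?_, ?_⟩
    · rw [Real.log_lt_log_iff (by norm_num) hp]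
      exact_mod_cast h2
    · rw [Real.log_le_log_iff hp (by exact_mod_cast (by omega : 0 < m))]
      exact_mod_cast h3

private theorem Mt_lower : ∃ C : ℝ, 0 ≤ C ∧ ∀ m : ℕ, 3 ≤ m →
    Real.log (Real.log m) - C ≤ ∑ p ∈ (Ioc 3 m).filter Nat.Prime, (1 : ℝ) / p := by
  obtain ⟨C, hC1, -, hlow, -, -⟩ := Pool.Agent.Lead.ZN.mertens
  refine ⟨C + 1 + Real.log (Real.log 3), ?_, ?_⟩
  · have := Real.log_nonneg Mt_log_three
    linarith
  intro z hz
  have key : ∑ k ∈ Ioc 3 z,
      ((Real.log (Real.log k) - Real.log (Real.log (k - 1 : ℕ))) * Real.log k) * (1 / Real.log k) ≤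
      ∑ k ∈ Ioc 3 z, (if k.Prime then Real.log k / k else 0) * (1 / Real.log k) +
        (C + 1) * (1 / Real.log ((3 + 1 : ℕ) : ℝ)) := by
    apply Pool.Agent.H91.Gold.abel_le (f := fun k : ℕ => 1 / Real.log k) hz (by linarith)
    · intro k hk _
      have := Mt_log_pos (k := k) (by omega)
      positivity
    · have := Mt_log_pos (k := 3 + 1) (by omega)
      positivity
    · intro k hk _
      have h1 := Mt_log_pos (k := k) (by omega)
      apply one_div_le_one_div_of_le h1
      apply Real.log_le_log (by exact_mod_cast (by omega : 0 < k))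
      push_cast
      linarith
    · intro m hm _
      have h1 := Mt_sum_step hm
      have h2 := hlow (Real.log (3 : ℕ)) (Real.log m) (by positivity)
        (Real.log_le_log (by norm_num) (by exact_mod_cast hm))
      rw [Mt_PL hm, sum_filter] at h2
      have h3 : (0 : ℝ) ≤ 1 / ((m : ℝ) - 1) := by
        have : (3 : ℝ) ≤ m := by exact_mod_cast hm
        have : (0 : ℝ) ≤ (m : ℝ) - 1 := by linarith
        positivity
      push_cast at h2
      linarith
  have e1 : ∀ k ∈ Ioc 3 z,
      ((Real.log (Real.log k) - Real.log (Real.log (k - 1 : ℕ))) * Real.log k) * (1 / Real.log k) =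
      (Real.log (Real.log k) - Real.log (Real.log (k - 1 : ℕ))) := by
    intro k hk
    rw [mem_Ioc] at hk
    have := Mt_log_pos (k := k) (by omega)
    field_simp
  rw [sum_congr rfl e1, Mt_telescope hz] at key
  have e2 : ∑ k ∈ Ioc 3 z, (if k.Prime then Real.log k / k else 0) * (1 / Real.log k) =
      ∑ p ∈ (Ioc 3 z).filter Nat.Prime, (1 : ℝ) / p := by
    rw [sum_filter]
    apply sum_congr rfl
    intro k hk
    rw [mem_Ioc] at hk
    have := Mt_log_pos (k := k) (by omega)
    split_ifs with h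
    · field_simp
    · ring
  rw [e2] at key
  have e3 : (C + 1) * (1 / Real.log ((3 + 1 : ℕ) : ℝ)) ≤ C + 1 := by
    have h1 := Mt_log_ge (k := 3 + 1) (by omega)
    have h2 : 1 / Real.log ((3 + 1 : ℕ) : ℝ) ≤ 1 := by
      rw [div_le_one (by linarith)]
      exact h1
    nlinarith
  linarith

private theorem Mt_G : ∃ K : ℝ, 0 < K ∧ ∀ n : ℕ, 2 ≤ n →
    |∑ p ∈ pr 2 n, (1 : ℝ) / p - Real.log (Real.log n)| ≤ K := by
  obtain ⟨C, hC0, hlow⟩ := Mt_lower
  obtain ⟨D, hD1, -, -, hup, -⟩ := Pool.Agent.Lead.ZN.mertens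
  refine ⟨C + D + 1 + |Real.log (Real.log 2)| + |Real.log (Real.log 3)|, by positivity, ?_⟩
  intro n hn
  rcases Nat.lt_or_ge n 3 with h | h3
  · have : n = 2 := by omega
    subst this
    have e : pr 2 2 = ∅ := by simp [pr]
    rw [e, sum_empty, zero_sub, abs_neg]
    push_cast
    have := abs_nonneg (Real.log (Real.log 3))
    linarith
  · have h1 := hlow n h3
    have h2 := hup (Real.log (3 : ℕ)) (Real.log n) (by push_cast; exact Mt_log_three)
      (Real.log_le_log (by norm_num) (by exact_mod_cast h3))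
    rw [Mt_PL h3, Real.log_div (Mt_log_pos (by omega)).ne' (Mt_log_pos (by omega)).ne'] at h2
    have s1 : (Ioc 3 n).filter Nat.Prime ⊆ insert n (pr 2 n) := by
      intro p hp
      rw [mem_filter, mem_Ioc] at hp
      rw [mem_insert, mem_pr]
      by_cases hpn : p = n
      · exact Or.inl hpn
      · exact Or.inr ⟨⟨by omega, by omega⟩, hp.2⟩
    have s2 : pr 2 n ⊆ insert 2 (insert 3 ((Ioc 3 n).filter Nat.Prime)) := by
      intro p hp
      rw [mem_pr] at hp
      rw [mem_insert, mem_insert, mem_filter, mem_Ioc]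
      by_cases h2 : p = 2
      · exact Or.inl h2
      by_cases h3 : p = 3
      · exact Or.inr (Or.inl h3)
      · exact Or.inr (Or.inr ⟨⟨by omega, by omega⟩, hp.2⟩)
    have hn' : n ∉ pr 2 n := by
      rw [mem_pr]; omega
    have t1 : ∑ p ∈ (Ioc 3 n).filter Nat.Prime, (1 : ℝ) / p ≤ 1 / n + ∑ p ∈ pr 2 n, (1 : ℝ) / p := by
      have t := sum_le_sum_of_subset_of_nonneg (f := fun p : ℕ => (1 : ℝ) / p) s1
        fun _ _ _ => by positivity
      rw [sum_insert hn'] at t
      exact t
    have t2 : ∑ p ∈ pr 2 n, (1 : ℝ) / p ≤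
        1 / (2 : ℕ) + (1 / (3 : ℕ) + ∑ p ∈ (Ioc 3 n).filter Nat.Prime, (1 : ℝ) / p) := by
      have t := sum_le_sum_of_subset_of_nonneg (f := fun p : ℕ => (1 : ℝ) / p) s2
        fun _ _ _ => by positivity
      rw [sum_insert (by simp), sum_insert (by simp)] at t
      exact t
    have t3 : (1 : ℝ) / n ≤ 1 := by
      rw [div_le_one (by exact_mod_cast (by omega : 0 < n))]
      exact_mod_cast (by omega : 1 ≤ n)
    push_cast at t2 h2
    have a1 := abs_nonneg (Real.log (Real.log 2))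
    have a2 := neg_abs_le (Real.log (Real.log 3))
    have a3 := abs_nonneg (Real.log (Real.log 3))
    rw [abs_le]
    constructor
    · linarith
    · linarith

theorem mertens_two : ∃ C : ℝ, 0 < C ∧ ∀ a b : ℕ, 2 ≤ a → a ≤ b →
    |∑ p ∈ pr a b, (1 : ℝ) / p - (Real.log (Real.log b) - Real.log (Real.log a))| ≤ C := by
  obtain ⟨K, hK, h⟩ := Mt_G
  refine ⟨2 * K, by positivity, fun a b ha hab => ?_⟩
  have h1 := h a ha
  have h2 := h b (by omega)
  have e : ∑ p ∈ pr 2 b, (1 : ℝ) / p = ∑ p ∈ pr 2 a, (1 : ℝ) / p + ∑ p ∈ pr a b, (1 : ℝ) / p := by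
    rw [← sum_union]
    · congr 1
      ext p
      rw [mem_union, mem_pr, mem_pr, mem_pr]
      constructor
      · rintro ⟨⟨h1, h2⟩, h3⟩
        by_cases h : p < a
        · exact Or.inl ⟨⟨h1, h⟩, h3⟩
        · exact Or.inr ⟨⟨by omega, h2⟩, h3⟩
      · rintro (⟨⟨h1, h2⟩, h3⟩ | ⟨⟨h1, h2⟩, h3⟩)
        · exact ⟨⟨h1, by omega⟩, h3⟩
        · exact ⟨⟨by omega, h2⟩, h3⟩
    · rw [disjoint_left]
      intro p hp hq
      rw [mem_pr] at hp hq
      omega
  rw [abs_le] at h1 h2 ⊢
  constructor <;> linarith [h1.1, h1.2, h2.1, h2.2]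

theorem sum_half : ∃ K : ℝ, 0 < K ∧ ∀ u : ℕ, 2 ≤ u →
    ∑ p ∈ pr 2 (u + 1), Real.sqrt (Real.log p) / p ≤ K * Real.sqrt (Real.log u) := by
  obtain ⟨C, hC, hM⟩ := mertens_two
  refine ⟨4 * (C + 1), by positivity, ?_⟩
  intro u
  induction u using Nat.strong_induction_on with
  | _ u ih =>
    intro hu
    set s := Nat.sqrt u with hs
    have hs1 : 1 ≤ s := by
      rw [hs, Nat.le_sqrt]
      omega
    have hsu : s < u := Nat.sqrt_lt_self (by omega)
    have hlu : u < (s + 1) * (s + 1) := Nat.sqrt_lt.1 (Nat.lt_succ_self _)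
    have hss : s * s ≤ u := Nat.sqrt_le u
    -- the large primes
    have hbig : ∑ p ∈ pr (s + 1) (u + 1), Real.sqrt (Real.log p) / p ≤
        (C + 1) * Real.sqrt (Real.log u) := by
      have h1 : ∑ p ∈ pr (s + 1) (u + 1), Real.sqrt (Real.log p) / p ≤
          ∑ p ∈ pr (s + 1) (u + 1), Real.sqrt (Real.log u) * ((1 : ℝ) / p) := by
        apply sum_le_sum
        intro p hp
        rw [mem_pr] at hp
        have hp0 : (0 : ℝ) < p := by exact_mod_cast hp.2.pos
        rw [div_eq_mul_one_div]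
        apply mul_le_mul_of_nonneg_right _ (by positivity)
        apply Real.sqrt_le_sqrt
        apply Real.log_le_log hp0
        exact_mod_cast (by omega : p ≤ u)
      rw [← mul_sum] at h1
      have h2 := hM (s + 1) (u + 1) (by omega) (by omega)
      rw [abs_le] at h2
      have h3 : Real.log (Real.log ((u + 1 : ℕ) : ℝ)) ≤ Real.log 2 + Real.log (Real.log ((s + 1 : ℕ) : ℝ)) := by
        have p1 := Mt_log_pos (k := s + 1) (by omega)
        have p2 := Mt_log_pos (k := u + 1) (by omega)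
        rw [← Real.log_mul (by norm_num) p1.ne']
        apply Real.log_le_log p2
        have : (2 : ℝ) * Real.log ((s + 1 : ℕ) : ℝ) = Real.log (((s + 1 : ℕ) : ℝ) ^ 2) := by
          rw [Real.log_pow]; norm_num
        rw [this]
        apply Real.log_le_log (by positivity)
        have : u + 1 ≤ (s + 1) ^ 2 := by nlinarith
        exact_mod_cast this
      have h4 : Real.log 2 ≤ 1 := by have := Real.log_two_lt_d9; linarith
      have h5 := Real.sqrt_nonneg (Real.log u)
      nlinarith [h2.1, h2.2]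
    have hsplit : ∑ p ∈ pr 2 (u + 1), Real.sqrt (Real.log p) / p =
        ∑ p ∈ pr 2 (s + 1), Real.sqrt (Real.log p) / p +
          ∑ p ∈ pr (s + 1) (u + 1), Real.sqrt (Real.log p) / p := by
      rw [← sum_union]
      · congr 1
        ext p
        rw [mem_union, mem_pr, mem_pr, mem_pr]
        constructor
        · rintro ⟨⟨h1, h2⟩, h3⟩
          by_cases h : p < s + 1
          · exact Or.inl ⟨⟨h1, h⟩, h3⟩
          · exact Or.inr ⟨⟨by omega, h2⟩, h3⟩
        · rintro (⟨⟨h1, h2⟩, h3⟩ | ⟨⟨h1, h2⟩, h3⟩)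
          · exact ⟨⟨h1, by omega⟩, h3⟩
          · exact ⟨⟨by omega, h2⟩, h3⟩
      · rw [disjoint_left]
        intro p hp hq
        rw [mem_pr] at hp hq
        omega
    rw [hsplit]
    have h0 := Real.sqrt_nonneg (Real.log u)
    rcases Nat.lt_or_ge s 2 with h | h
    · have : s = 1 := by omega
      have e : pr 2 (s + 1) = ∅ := by rw [this]; simp [pr]
      rw [e, sum_empty, zero_add]
      nlinarith
    · have hi := ih s hsu h
      have h1 : Real.sqrt (Real.log s) ≤ (3 / 4) * Real.sqrt (Real.log u) := by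
        have p1 := Mt_log_pos (k := s) h
        have h2 : 2 * Real.log s ≤ Real.log u := by
          have : (2 : ℝ) * Real.log s = Real.log ((s : ℝ) ^ 2) := by
            rw [Real.log_pow]; norm_num
          rw [this]
          apply Real.log_le_log (by positivity)
          exact_mod_cast (by nlinarith : s ^ 2 ≤ u)
        rw [Real.sqrt_le_left (by positivity)]
        rw [mul_pow, Real.sq_sqrt (by linarith)]
        linarith
      have h2 : 4 * (C + 1) * Real.sqrt (Real.log s) ≤ 4 * (C + 1) * ((3 / 4) * Real.sqrt (Real.log u)) :=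
        mul_le_mul_of_nonneg_left h1 (by positivity)
      nlinarith

end Pool.Agent.H37.PPC
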