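import Mathlib

/-!
PROJECT PPC (MP_e38f6a_co): the number of orders `n ≤ x` of cyclic planar difference sets is
`O (x (log log x)^C / log x)`.  Common definitions.
-/

set_option autoImplicit false

namespace Pool.Agent.H37.PPC

open Finset

/-- `n` is the order of a cyclic planar difference set: some `(n+1)`-element subset of
`ZMod (n^2+n+1)` has every nonzero residue exactly once as a difference of two of its elements. -/
def IsOrder (n : ℕ) : Prop :=
  ∃ D : Finset (ZMod (n ^ 2 + n + 1)), D.card = n + 1 ∧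
    ∀ r : ZMod (n ^ 2 + n + 1), r ≠ 0 → ((D ×ˢ D).filter (fun p => p.1 - p.2 = r)).card = 1

/-- primes in `[a, b)` -/
def pr (a b : ℕ) : Finset ℕ := (Ico a b).filter Nat.Prime

theorem mem_pr {a b p : ℕ} : p ∈ pr a b ↔ (a ≤ p ∧ p < b) ∧ p.Prime := by
  unfold pr
  rw [mem_filter, mem_Ico]

/-- A completely multiplicative function with values in `{-1,0,1}` and sums bounded by `M`. -/
structure TW (ψ : ℕ → ℝ) (M : ℕ) : Prop where
  one : ψ 1 = 1
  mul : ∀ a b, ψ (a * b) = ψ a * ψ b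
  val : ∀ n, ψ n = 1 ∨ ψ n = 0 ∨ ψ n = -1
  bd : ∀ N, |∑ n ∈ Icc 1 N, ψ n| ≤ M

/-- `∑_{n ≤ y} (1 * ψ)(n) / n` -/
noncomputable def FF (ψ : ℕ → ℝ) (y : ℕ) : ℝ := ∑ n ∈ Icc 1 y, (∑ d ∈ n.divisors, ψ d) / n

/-- the real character `m ↦ (a / m)` for odd `m`, `0` for even `m` -/
noncomputable def psi (a : ℤ) (m : ℕ) : ℝ := if Odd m then (jacobiSym a m : ℝ) else 0

/-- the nonprincipal character mod 3 -/
noncomputable def chi3 (n : ℕ) : ℝ := if n % 3 = 1 then 1 else if n % 3 = 2 then -1 else 0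

end Pool.Agent.H37.PPC
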