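import Pool.Agent.H37.PPC.Defs
import Pool.Agent.Lead.ZN.Mertens

/-!
PPC Rk: Rankin's trick: a truncated sum over squarefree numbers catches half of the Euler product.

Sketch.  P = pr 2 (z+1) (the primes ≤ z), for a subset T of P put h(T) = ∏_{l∈T} h l, ∏_{l∈P}(1+h l) = ∑_{T⊆P} h(T)
(Finset.prod_one_add or prod_add).  T ↦ d = ∏ T is injective into squarefree numbers, d.primeFactors = T.
Those T with ∏T ≤ z^s appear on the right.  For the others (∏T > z^s) Rankin with δ = 1/log z: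
 h(T) ≤ h(T) (∏T / z^s)^δ = e^{-s} ∏_{l∈T} h(l) l^δ, so their sum is
 ≤ e^{-s} ∏_{l∈P} (1 + h(l) l^δ) = e^{-s} ∏ (1+h) · ∏ (1 + (h/(1+h)) (l^δ - 1))
 ≤ e^{-s} ∏(1+h) exp( ∑_{l∈P} (κ/l) (l^δ-1) ),   l^δ - 1 = exp(log l/log z) - 1 ≤ 2 log l / log z (0 ≤ t ≤ 1: e^t-1 ≤ 2t)
 ≤ e^{-s} ∏(1+h) exp( (2κ/log z) ∑_{l≤z} log l / l ) ≤ e^{-s} ∏(1+h) exp(2κ(1 + C/log 2)),
 with ∑_{l ≤ z} log l/l ≤ log z + C (Pool.Agent.Lead.ZN.mertens, first statement with u = 0, v = log z; PL 0 (log z) is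
 the set of primes ≤ z).  Choose s with e^{-s} exp(2κ(1+C/log 2)) ≤ 1/2.
-/

set_option autoImplicit false

namespace Pool.Agent.H37.PPC

open Finset

theorem rk_factor {κ : ℕ} {l : ℕ} (hl : l.Prime) {h t : ℝ} (h0 : 0 ≤ h) (hk : h * l ≤ κ * (1 + h))
    (ht0 : 0 ≤ t) (ht1 : t ≤ 1) :
    1 + h * Real.exp t ≤ (1 + h) * Real.exp (κ / l * (2 * t)) := by
  have hl0 : (0 : ℝ) < l := by exact_mod_cast hl.pos
  have h1 : Real.exp t - 1 ≤ 2 * t := by
    have := Real.abs_exp_sub_one_le (x := t) (by rw [abs_of_nonneg ht0]; exact ht1)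
    rw [abs_of_nonneg ht0] at this
    exact (le_abs_self _).trans this
  have h2 : h ≤ κ / l * (1 + h) := by
    rw [div_mul_eq_mul_div, le_div_iff₀ hl0]
    exact hk
  have h3 : 0 ≤ (κ : ℝ) / l := by positivity
  have h4 : 1 + κ / l * (2 * t) ≤ Real.exp (κ / l * (2 * t)) := by
    have := Real.add_one_le_exp ((κ : ℝ) / l * (2 * t))
    linarith
  calc 1 + h * Real.exp t = (1 + h) + h * (Real.exp t - 1) := by ring
    _ ≤ (1 + h) + h * (2 * t) := by
        have := mul_le_mul_of_nonneg_left h1 h0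
        linarith
    _ ≤ (1 + h) + κ / l * (1 + h) * (2 * t) := by
        have := mul_le_mul_of_nonneg_right h2 (by linarith : (0 : ℝ) ≤ 2 * t)
        linarith
    _ = (1 + h) * (1 + κ / l * (2 * t)) := by ring
    _ ≤ (1 + h) * Real.exp (κ / l * (2 * t)) :=
        mul_le_mul_of_nonneg_left h4 (by linarith)

theorem rankin (κ : ℕ) : ∃ s : ℕ, 0 < s ∧ ∀ z : ℕ, 2 ≤ z → ∀ h : ℕ → ℝ,
    (∀ l : ℕ, l.Prime → 0 ≤ h l ∧ h l * l ≤ κ * (1 + h l)) →
    (1 / 2) * ∏ l ∈ pr 2 (z + 1), (1 + h l)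
      ≤ ∑ d ∈ (Icc 1 (z ^ s)).filter Squarefree, ∏ l ∈ d.primeFactors, h l := by
  obtain ⟨C, hC1, hC, -⟩ := Pool.Agent.Lead.ZN.mertens
  have hlog2 : 0 < Real.log 2 := Real.log_pos (by norm_num)
  obtain ⟨s, hs⟩ := exists_nat_gt (2 * κ * (1 + C / Real.log 2) + 1)
  have hpos : 0 ≤ 2 * (κ : ℝ) * (1 + C / Real.log 2) := by positivity
  refine ⟨s, ?_, ?_⟩
  · have : (0 : ℝ) < s := by linarith
    exact_mod_cast this
  intro z hz h hh
  have hz0 : (0 : ℝ) < z := by exact_mod_cast (by omega : 0 < z)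
  set L : ℝ := Real.log z with hL
  have hL2 : Real.log 2 ≤ L := Real.log_le_log (by norm_num) (by exact_mod_cast hz)
  have hL0 : 0 < L := hlog2.trans_le hL2
  set P : Finset ℕ := pr 2 (z + 1) with hP
  have hPp : ∀ l ∈ P, l.Prime ∧ l ≤ z := by
    intro l hl
    have := mem_pr.1 hl
    exact ⟨this.2, by omega⟩
  have ht : ∀ l ∈ P, 0 ≤ Real.log l / L ∧ Real.log l / L ≤ 1 := by
    intro l hl
    obtain ⟨h1, h2⟩ := hPp l hl
    have h3 : (1 : ℝ) ≤ l := by exact_mod_cast h1.one_lt.le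
    refine ⟨div_nonneg (Real.log_nonneg h3) hL0.le, ?_⟩
    rw [div_le_one hL0]
    exact Real.log_le_log (by linarith) (by exact_mod_cast h2)
  -- sum of log l / l
  have hsum : ∑ l ∈ P, Real.log l / l ≤ L + C := by
    have h1 := hC 0 L le_rfl hL0.le
    rw [sub_zero] at h1
    refine le_trans (Finset.sum_le_sum_of_subset_of_nonneg ?_ ?_) h1
    · intro l hl
      obtain ⟨h1, h2⟩ := hPp l hl
      rw [Pool.Agent.Lead.ZN.mem_PL]
      refine ⟨h1, Real.log_pos (by exact_mod_cast h1.one_lt), ?_⟩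
      exact Real.log_le_log (by exact_mod_cast h1.pos) (by exact_mod_cast h2)
    · intro l hl _
      have h2 := (Pool.Agent.Lead.ZN.mem_PL.1 hl).1
      exact div_nonneg (Real.log_nonneg (by exact_mod_cast h2.one_lt.le)) (Nat.cast_nonneg _)
  have hprodpos : 0 ≤ ∏ l ∈ P, (1 + h l) :=
    Finset.prod_nonneg fun l hl => by
      have := (hh l (hPp l hl).1).1
      linarith
  -- the twisted product
  have htw : ∏ l ∈ P, (1 + h l * Real.exp (Real.log l / L)) ≤
      (∏ l ∈ P, (1 + h l)) * Real.exp (2 * κ * (1 + C / Real.log 2)) := by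
    have h1 : ∏ l ∈ P, (1 + h l * Real.exp (Real.log l / L)) ≤
        ∏ l ∈ P, ((1 + h l) * Real.exp (κ / l * (2 * (Real.log l / L)))) := by
      refine Finset.prod_le_prod ?_ ?_
      · intro l hl
        have := (hh l (hPp l hl).1).1
        positivity
      · intro l hl
        obtain ⟨h2, h3⟩ := hh l (hPp l hl).1
        exact rk_factor (hPp l hl).1 h2 h3 (ht l hl).1 (ht l hl).2
    refine h1.trans ?_
    rw [Finset.prod_mul_distrib, ← Real.exp_sum]
    refine mul_le_mul_of_nonneg_left ?_ hprodpos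
    rw [Real.exp_le_exp]
    have h4 : ∑ l ∈ P, ((κ : ℝ) / l * (2 * (Real.log l / L))) =
        2 * κ / L * ∑ l ∈ P, Real.log l / l := by
      rw [Finset.mul_sum]
      refine Finset.sum_congr rfl fun l _ => ?_
      ring
    rw [h4]
    have h5 : 2 * (κ : ℝ) / L * ∑ l ∈ P, Real.log l / l ≤ 2 * κ / L * (L + C) :=
      mul_le_mul_of_nonneg_left hsum (by positivity)
    refine h5.trans ?_
    have h6 : 2 * (κ : ℝ) / L * (L + C) = 2 * κ * (1 + C / L) := by
      field_simp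
    rw [h6]
    refine mul_le_mul_of_nonneg_left ?_ (by positivity)
    have : C / L ≤ C / Real.log 2 := div_le_div_of_nonneg_left (by linarith) hlog2 hL2
    linarith
  -- expand the products over subsets
  have hexp : ∏ l ∈ P, (1 + h l) = ∑ T ∈ P.powerset, ∏ l ∈ T, h l := Finset.prod_one_add P
  have hexp2 : ∏ l ∈ P, (1 + h l * Real.exp (Real.log l / L)) =
      ∑ T ∈ P.powerset, ∏ l ∈ T, (h l * Real.exp (Real.log l / L)) := Finset.prod_one_add P
  have hTp : ∀ T ∈ P.powerset, ∀ l ∈ T, l.Prime := fun T hT l hl =>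
    (hPp l (Finset.mem_powerset.1 hT hl)).1
  -- the good subsets
  have hgood : ∑ T ∈ P.powerset.filter (fun T => ∏ l ∈ T, l ≤ z ^ s), ∏ l ∈ T, h l ≤
      ∑ d ∈ (Icc 1 (z ^ s)).filter Squarefree, ∏ l ∈ d.primeFactors, h l := by
    have hinj : Set.InjOn (fun T : Finset ℕ => ∏ l ∈ T, l)
        (P.powerset.filter (fun T => ∏ l ∈ T, l ≤ z ^ s) : Finset (Finset ℕ)) := by
      intro T hT T' hT' hTT'
      have h1 := Nat.primeFactors_prod (hTp T (Finset.mem_filter.1 hT).1)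
      have h2 := Nat.primeFactors_prod (hTp T' (Finset.mem_filter.1 hT').1)
      rw [← h1, ← h2]
      exact congrArg Nat.primeFactors hTT'
    have h1 : ∑ T ∈ P.powerset.filter (fun T => ∏ l ∈ T, l ≤ z ^ s), ∏ l ∈ T, h l =
        ∑ d ∈ (P.powerset.filter (fun T => ∏ l ∈ T, l ≤ z ^ s)).image (fun T => ∏ l ∈ T, l),
          ∏ l ∈ d.primeFactors, h l := by
      rw [Finset.sum_image hinj]
      refine Finset.sum_congr rfl fun T hT => ?_
      rw [Nat.primeFactors_prod (hTp T (Finset.mem_filter.1 hT).1)]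
    rw [h1]
    refine Finset.sum_le_sum_of_subset_of_nonneg ?_ ?_
    · intro d hd
      obtain ⟨T, hT, rfl⟩ := Finset.mem_image.1 hd
      obtain ⟨hT1, hT2⟩ := Finset.mem_filter.1 hT
      have hTpr := hTp T hT1
      rw [Finset.mem_filter, Finset.mem_Icc]
      refine ⟨⟨?_, hT2⟩, ?_⟩
      · exact Nat.one_le_iff_ne_zero.2 (Finset.prod_ne_zero_iff.2 fun l hl => (hTpr l hl).ne_zero)
      · refine Finset.squarefree_prod_of_pairwise_isCoprime ?_ ?_
        · intro a ha b hb hab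
          have := (Nat.coprime_primes (hTpr a ha) (hTpr b hb)).2 hab
          exact Nat.coprime_iff_isRelPrime.1 this
        · intro a ha
          exact (hTpr a ha).squarefree
    · intro d _ _
      exact Finset.prod_nonneg fun l hl => (hh l (Nat.prime_of_mem_primeFactors hl)).1
  -- the bad subsets
  have hbad : ∑ T ∈ P.powerset.filter (fun T => ¬ ∏ l ∈ T, l ≤ z ^ s), ∏ l ∈ T, h l ≤
      Real.exp (-(s : ℝ)) * ∏ l ∈ P, (1 + h l * Real.exp (Real.log l / L)) := by
    rw [hexp2, Finset.mul_sum]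
    refine le_trans (Finset.sum_le_sum fun T hT => ?_)
      (Finset.sum_le_sum_of_subset_of_nonneg (Finset.filter_subset _ _) ?_)
    · obtain ⟨hT1, hT2⟩ := Finset.mem_filter.1 hT
      have hTpr := hTp T hT1
      rw [Finset.prod_mul_distrib, ← Real.exp_sum, mul_left_comm]
      refine le_mul_of_one_le_right
        (Finset.prod_nonneg fun l hl => (hh l (hTpr l hl)).1) ?_
      rw [← Real.exp_add]
      refine Real.one_le_exp ?_
      have h1 : ∑ l ∈ T, Real.log (l : ℝ) = Real.log ((∏ l ∈ T, l : ℕ) : ℝ) := by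
        push_cast
        rw [Real.log_prod]
        intro l hl
        exact_mod_cast (hTpr l hl).ne_zero
      have h2 : (s : ℝ) * L ≤ ∑ l ∈ T, Real.log (l : ℝ) := by
        rw [h1, hL, ← Real.log_pow]
        refine Real.log_le_log (by positivity) ?_
        have := not_le.1 hT2
        exact_mod_cast this.le
      rw [← Finset.sum_div]
      have h3 : (s : ℝ) ≤ (∑ l ∈ T, Real.log (l : ℝ)) / L := by
        rw [le_div_iff₀ hL0]
        exact h2
      linarith
    · intro T hT _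
      refine mul_nonneg (Real.exp_pos _).le (Finset.prod_nonneg fun l hl => ?_)
      have := (hh l (hTp T hT l hl)).1
      positivity
  have hsplit := Finset.sum_filter_add_sum_filter_not P.powerset (fun T => ∏ l ∈ T, l ≤ z ^ s)
    (fun T => ∏ l ∈ T, h l)
  have hhalf : Real.exp (-(s : ℝ)) * Real.exp (2 * κ * (1 + C / Real.log 2)) ≤ 1 / 2 := by
    rw [← Real.exp_add]
    have h1 : -(s : ℝ) + 2 * κ * (1 + C / Real.log 2) ≤ -1 := by linarith
    have h2 := Real.exp_le_exp.2 h1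
    have h3 := Real.exp_neg_one_lt_d9
    linarith
  have hfin : Real.exp (-(s : ℝ)) * ∏ l ∈ P, (1 + h l * Real.exp (Real.log l / L)) ≤
      (1 / 2) * ∏ l ∈ P, (1 + h l) := by
    calc Real.exp (-(s : ℝ)) * ∏ l ∈ P, (1 + h l * Real.exp (Real.log l / L))
        ≤ Real.exp (-(s : ℝ)) *
          ((∏ l ∈ P, (1 + h l)) * Real.exp (2 * κ * (1 + C / Real.log 2))) :=
          mul_le_mul_of_nonneg_left htw (Real.exp_pos _).le
      _ = (Real.exp (-(s : ℝ)) * Real.exp (2 * κ * (1 + C / Real.log 2))) *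
          ∏ l ∈ P, (1 + h l) := by ring
      _ ≤ (1 / 2) * ∏ l ∈ P, (1 + h l) := mul_le_mul_of_nonneg_right hhalf hprodpos
  rw [← hexp] at hsplit
  linarith

end Pool.Agent.H37.PPC
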