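import Pool.Agent.H37.PPC.FP
import Pool.Agent.H37.PPC.Rk

/-!
PPC FL: Euler product lower bound for `FF ψ` by Rankin.

Use `rankin 2` with h q = (1 + ψ q)/q (0 ≤ h, h·q = 1+ψ ≤ 2 ≤ 2(1+h)), `f_nonneg`, `f_sqf`:
FF ψ (w^s) ≥ ∑_{d ≤ w^s squarefree} f(d)/d = ∑ ∏_{q|d} (1+ψ q)/q ≥ (1/2) ∏_{q≤w} (1+h q) ≥ (1/2) exp(∑ h - ∑ h²),
(log(1+h) ≥ h/(1+h) ≥ h - h² for h ≥ 0; h ≤ 2/q, ∑ 1/q² ≤ 1).
-/

set_option autoImplicit false

namespace Pool.Agent.H37.PPC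

open Finset

theorem fl_one_add (h : ℝ) (hh : 0 ≤ h) : Real.exp (h - h ^ 2) ≤ 1 + h := by
  have hpos : 0 < 1 + h := by linarith
  have h1 := Real.one_sub_inv_le_log_of_pos hpos
  have h2 : h - h ^ 2 ≤ 1 - (1 + h)⁻¹ := by
    have e : 1 - (1 + h)⁻¹ - (h - h ^ 2) = h ^ 3 / (1 + h) := by
      field_simp
      ring
    have : 0 ≤ h ^ 3 / (1 + h) := by positivity
    linarith
  calc Real.exp (h - h ^ 2) ≤ Real.exp (Real.log (1 + h)) := Real.exp_le_exp.2 (h2.trans h1)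
    _ = 1 + h := Real.exp_log hpos

theorem fl_sum_sq (w : ℕ) : ∑ q ∈ pr 2 (w + 1), ((q : ℝ) ^ 2)⁻¹ ≤ 1 := by
  have hsub : pr 2 (w + 1) ⊆ Ioc 1 (w + 1) := by
    intro q hq
    rw [mem_pr] at hq
    rw [mem_Ioc]
    omega
  have h1 : ∑ q ∈ pr 2 (w + 1), ((q : ℝ) ^ 2)⁻¹ ≤ ∑ q ∈ Ioc 1 (w + 1), ((q : ℝ) ^ 2)⁻¹ :=
    Finset.sum_le_sum_of_subset_of_nonneg hsub fun i _ _ => by positivity
  have h2 : ∑ q ∈ Ioc 1 (w + 1), ((q : ℝ) ^ 2)⁻¹ ≤ ((1 : ℕ) : ℝ)⁻¹ - ((w + 1 : ℕ) : ℝ)⁻¹ :=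
    sum_Ioc_inv_sq_le_sub one_ne_zero (by omega)
  have h3 : (0 : ℝ) ≤ ((w + 1 : ℕ) : ℝ)⁻¹ := by positivity
  have h4 : ((1 : ℕ) : ℝ)⁻¹ = 1 := by norm_num
  linarith

theorem FF_lower : ∃ C : ℝ, ∃ s : ℕ, 0 < s ∧ ∀ (ψ : ℕ → ℝ) (M : ℕ), TW ψ M → ∀ w : ℕ, 2 ≤ w →
    Real.exp (∑ q ∈ pr 2 (w + 1), (1 + ψ q) / q - C) ≤ FF ψ (w ^ s) := by
  obtain ⟨s, hs, hR⟩ := rankin 2
  refine ⟨Real.log 2 + 4, s, hs, ?_⟩
  intro ψ M hψ w hw
  set h : ℕ → ℝ := fun q => (1 + ψ q) / q with hh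
  have hval : ∀ q, 0 ≤ 1 + ψ q ∧ 1 + ψ q ≤ 2 := by
    intro q
    rcases hψ.val q with h1 | h1 | h1 <;> rw [h1] <;> norm_num
  have hnn : ∀ q, 0 ≤ h q := fun q => div_nonneg (hval q).1 (Nat.cast_nonneg q)
  have hcond : ∀ l : ℕ, l.Prime → 0 ≤ h l ∧ h l * l ≤ ((2 : ℕ) : ℝ) * (1 + h l) := by
    intro l hl
    refine ⟨hnn l, ?_⟩
    have hl0 : (l : ℝ) ≠ 0 := by exact_mod_cast hl.ne_zero
    have e : h l * l = 1 + ψ l := by
      simp only [hh]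
      exact div_mul_cancel₀ _ hl0
    rw [e]
    have h1 := (hval l).2
    have h2 := hnn l
    push_cast
    linarith
  have h1 := hR w hw h hcond
  -- the right side is at most FF
  have h2 : ∑ d ∈ (Icc 1 (w ^ s)).filter Squarefree, ∏ l ∈ d.primeFactors, h l ≤ FF ψ (w ^ s) := by
    unfold FF
    have e : ∀ d ∈ (Icc 1 (w ^ s)).filter Squarefree,
        ∏ l ∈ d.primeFactors, h l = (∑ e ∈ d.divisors, ψ e) / d := by
      intro d hd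
      have hsq := (mem_filter.1 hd).2
      rw [f_sqf ψ M hψ d hsq]
      simp only [hh]
      rw [Finset.prod_div_distrib]
      congr 1
      have := Nat.prod_primeFactors_of_squarefree hsq
      rw [← Nat.cast_prod, this]
    rw [Finset.sum_congr rfl e]
    refine Finset.sum_le_sum_of_subset_of_nonneg (Finset.filter_subset _ _) fun i _ _ => ?_
    exact div_nonneg (f_nonneg ψ M hψ i) (Nat.cast_nonneg i)
  -- the left side is at least the exponential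
  have h3 : Real.exp (∑ q ∈ pr 2 (w + 1), h q - 4) ≤ ∏ l ∈ pr 2 (w + 1), (1 + h l) := by
    have h4 : Real.exp (∑ q ∈ pr 2 (w + 1), (h q - h q ^ 2)) ≤ ∏ l ∈ pr 2 (w + 1), (1 + h l) := by
      rw [Real.exp_sum]
      exact Finset.prod_le_prod (fun i _ => (Real.exp_pos _).le) fun i _ => fl_one_add _ (hnn i)
    refine le_trans (Real.exp_le_exp.2 ?_) h4
    rw [Finset.sum_sub_distrib]
    have h5 : ∑ q ∈ pr 2 (w + 1), h q ^ 2 ≤ ∑ q ∈ pr 2 (w + 1), 4 * ((q : ℝ) ^ 2)⁻¹ := by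
      refine Finset.sum_le_sum fun q _ => ?_
      simp only [hh]
      rw [div_pow, div_eq_mul_inv]
      refine mul_le_mul_of_nonneg_right ?_ (by positivity)
      have := hval q
      nlinarith [this.1, this.2]
    rw [← Finset.mul_sum] at h5
    have h6 := fl_sum_sq w
    linarith
  have h7 : Real.exp (∑ q ∈ pr 2 (w + 1), (1 + ψ q) / q - (Real.log 2 + 4)) =
      (1 / 2) * Real.exp (∑ q ∈ pr 2 (w + 1), h q - 4) := by
    have e : ∑ q ∈ pr 2 (w + 1), (1 + ψ q) / q - (Real.log 2 + 4) =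
        (∑ q ∈ pr 2 (w + 1), h q - 4) - Real.log 2 := by
      simp only [hh]
      ring
    rw [e, Real.exp_sub, Real.exp_log (by norm_num)]
    ring
  rw [h7]
  refine le_trans (mul_le_mul_of_nonneg_left h3 (by norm_num)) (h1.trans h2)

end Pool.Agent.H37.PPC
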