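import Pool.Agent.H37.PPC.FG
import Pool.Agent.H37.PPC.FL
import Pool.Agent.H37.PPC.Mt

/-!
PPC TS: bounds for ∑ ψ(q)/q over primes.

`TW_sum`: FF_lower at w, FF_growth from z to w^s, FF_upper at z:
 exp(∑_{q≤w}(1+ψ)/q - C₁) ≤ F(w^s) ≤ C (s log w/log z) F(z) ≤ C s (log w/log z) exp(∑_{q≤z}(1+ψ)/q + C₂).
 Take logs: ∑_{z<q≤w} (1+ψ(q))/q ≤ loglog w - loglog z + C; subtract ∑ 1/q ≥ loglog w - loglog z - C (mertens_two);
 the difference between q ≥ z and q > z etc. is at most 2/2 = O(1).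
`chi3_sum`: from FF_chi3 and FF_upper: ∑_{q≤y} (1+chi3 q)/q ≥ loglog y - C, so ∑_{q≤y} chi3(q)/q ≥ -C for all y ≥ 2; from TW_sum with
 M = 3 (z = 3^8 fixed) and trivial bounds: ∑_{q ≤ y} chi3(q)/q ≤ C.  Subtract.
-/

set_option autoImplicit false

namespace Pool.Agent.H37.PPC

open Finset

private theorem TS_split (f : ℕ → ℝ) (a b c : ℕ) (h1 : a ≤ b) (h2 : b ≤ c) :
    ∑ q ∈ pr a c, f q = ∑ q ∈ pr a b, f q + ∑ q ∈ pr b c, f q := by
  have hd : Disjoint (pr a b) (pr b c) := by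
    rw [Finset.disjoint_left]
    intro x hx hx'
    rw [mem_pr] at hx hx'
    omega
  rw [← Finset.sum_union hd]
  apply Finset.sum_congr _ (fun _ _ => rfl)
  ext x
  rw [Finset.mem_union, mem_pr, mem_pr, mem_pr]
  constructor
  · rintro ⟨⟨h3, h4⟩, h5⟩
    by_cases hx : x < b
    · exact Or.inl ⟨⟨h3, hx⟩, h5⟩
    · exact Or.inr ⟨⟨by omega, h4⟩, h5⟩
  · rintro (⟨⟨h3, h4⟩, h5⟩ | ⟨⟨h3, h4⟩, h5⟩)
    · exact ⟨⟨h3, by omega⟩, h5⟩
    · exact ⟨⟨by omega, h4⟩, h5⟩

private theorem TS_one_le {ψ : ℕ → ℝ} {M : ℕ} (hψ : TW ψ M) (n : ℕ) : 0 ≤ 1 + ψ n ∧ 1 + ψ n ≤ 2 := by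
  rcases hψ.val n with h | h | h <;> rw [h] <;> constructor <;> norm_num

private theorem TS_single {ψ : ℕ → ℝ} {M : ℕ} (hψ : TW ψ M) (z : ℕ) :
    ∑ q ∈ pr z (z + 1), (1 + ψ q) / q ≤ 1 := by
  by_cases hz : z.Prime
  · have : pr z (z + 1) = {z} := by
      ext x
      rw [mem_pr, Finset.mem_singleton]
      constructor
      · rintro ⟨⟨h1, h2⟩, _⟩; omega
      · rintro rfl; exact ⟨⟨le_rfl, Nat.lt_succ_self _⟩, hz⟩
    rw [this, Finset.sum_singleton]
    have h2 : (2 : ℝ) ≤ z := by exact_mod_cast hz.two_le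
    rw [div_le_one (by linarith)]
    exact (TS_one_le hψ z).2.trans h2
  · have : pr z (z + 1) = ∅ := by
      rw [Finset.eq_empty_iff_forall_notMem]
      intro x hx
      rw [mem_pr] at hx
      have : x = z := by omega
      exact hz (this ▸ hx.2)
    rw [this, Finset.sum_empty]
    norm_num

theorem TW_sum : ∃ C : ℝ, 0 < C ∧ ∀ (ψ : ℕ → ℝ) (M : ℕ), 2 ≤ M → TW ψ M → ∀ z w : ℕ,
    M ^ 8 ≤ z → z ≤ w → ∑ q ∈ pr z w, ψ q / q ≤ C := by
  obtain ⟨C₂, hC₂, hG⟩ := FF_growth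
  obtain ⟨C₁, s, hs, hL⟩ := FF_lower
  obtain ⟨C₃, hU⟩ := FF_upper
  obtain ⟨C₄, hC₄, hM⟩ := mertens_two
  refine ⟨max 1 (C₁ + C₃ + Real.log (C₂ * s) + 1 + C₄), lt_max_of_lt_left one_pos, ?_⟩
  intro ψ M hM2 hψ z w hz hzw
  refine le_trans ?_ (le_max_right _ _)
  have hz256 : 256 ≤ z := by
    have : 2 ^ 8 ≤ M ^ 8 := Nat.pow_le_pow_left hM2 8
    omega
  have hw256 : 256 ≤ w := hz256.trans hzw
  have hzR : (256 : ℝ) ≤ z := by exact_mod_cast hz256
  have hwR : (256 : ℝ) ≤ w := by exact_mod_cast hw256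
  have hlz : 0 < Real.log z := Real.log_pos (by linarith)
  have hlw : 0 < Real.log w := Real.log_pos (by linarith)
  have hsR : (1 : ℝ) ≤ s := by exact_mod_cast hs
  have hzs : z ≤ w ^ s := hzw.trans (Nat.le_self_pow (by omega) w)
  have h1 := hL ψ M hψ w (by omega)
  have h2 := hG ψ M hM2 hψ z (w ^ s) hz hzs
  have h3 := hU ψ M hψ z (by omega)
  set Sw : ℝ := ∑ q ∈ pr 2 (w + 1), (1 + ψ q) / q with hSw
  set Sz : ℝ := ∑ q ∈ pr 2 (z + 1), (1 + ψ q) / q with hSz
  have hlogpow : Real.log ((w ^ s : ℕ) : ℝ) = s * Real.log w := by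
    rw [Nat.cast_pow, Real.log_pow]
  rw [hlogpow] at h2
  have hcoef : 0 < C₂ * (s * Real.log w / Real.log z) := by positivity
  have h4 : Real.exp (Sw - C₁) ≤ C₂ * (s * Real.log w / Real.log z) * Real.exp (Sz + C₃) :=
    h1.trans (h2.trans (mul_le_mul_of_nonneg_left h3 hcoef.le))
  have h5 := Real.log_le_log (Real.exp_pos _) h4
  rw [Real.log_exp, Real.log_mul hcoef.ne' (Real.exp_pos _).ne', Real.log_exp] at h5
  have h6 : Real.log (C₂ * (s * Real.log w / Real.log z))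
      = Real.log (C₂ * s) + (Real.log (Real.log w) - Real.log (Real.log z)) := by
    rw [show C₂ * (s * Real.log w / Real.log z) = (C₂ * s) * (Real.log w / Real.log z) by ring,
      Real.log_mul (by positivity) (by positivity), Real.log_div hlw.ne' hlz.ne']
  rw [h6] at h5
  -- compare the sums
  have hsplit : Sw = Sz + ∑ q ∈ pr (z + 1) (w + 1), (1 + ψ q) / q :=
    TS_split _ 2 (z + 1) (w + 1) (by omega) (by omega)
  have hs2 : ∑ q ∈ pr z (w + 1), (1 + ψ q) / q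
      = ∑ q ∈ pr z (z + 1), (1 + ψ q) / q + ∑ q ∈ pr (z + 1) (w + 1), (1 + ψ q) / q :=
    TS_split _ z (z + 1) (w + 1) (by omega) (by omega)
  have hs3 : ∑ q ∈ pr z (w + 1), (1 + ψ q) / q
      = ∑ q ∈ pr z w, (1 + ψ q) / q + ∑ q ∈ pr w (w + 1), (1 + ψ q) / q :=
    TS_split _ z w (w + 1) hzw (by omega)
  have hs4 : 0 ≤ ∑ q ∈ pr w (w + 1), (1 + ψ q) / q :=
    Finset.sum_nonneg (fun q _ => div_nonneg (TS_one_le hψ q).1 (Nat.cast_nonneg q))
  have hs5 := TS_single hψ z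
  have hs6 : ∑ q ∈ pr z w, (1 + ψ q) / q = ∑ q ∈ pr z w, (1 : ℝ) / q + ∑ q ∈ pr z w, ψ q / q := by
    rw [← Finset.sum_add_distrib]
    exact Finset.sum_congr rfl (fun q _ => add_div _ _ _)
  have hs7 := (abs_le.1 (hM z w (by omega) hzw)).1
  linarith

private theorem TS_chi3_le (q : ℕ) : |chi3 q| ≤ 1 := by
  rcases chi3_TW.val q with h | h | h <;> rw [h] <;> norm_num

private theorem TS_triv (a b : ℕ) (ha : 2 ≤ a) : ∑ q ∈ pr a b, chi3 q / q ≤ b := by
  calc ∑ q ∈ pr a b, chi3 q / q ≤ ∑ q ∈ pr a b, (1 : ℝ) := by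
        apply Finset.sum_le_sum
        intro q hq
        rw [mem_pr] at hq
        have hq2 : (2 : ℝ) ≤ q := by exact_mod_cast hq.2.two_le
        rw [div_le_one (by linarith)]
        have := (abs_le.1 (TS_chi3_le q)).2
        linarith
    _ = ((pr a b).card : ℝ) := by rw [Finset.sum_const, nsmul_eq_mul, mul_one]
    _ ≤ (b : ℝ) := by
        have : (pr a b).card ≤ b := by
          refine (Finset.card_filter_le _ _).trans ?_
          rw [Nat.card_Ico]; omega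
        exact_mod_cast this

theorem chi3_sum : ∃ C : ℝ, 0 < C ∧ ∀ z w : ℕ, 2 ≤ z → z ≤ w →
    -C ≤ ∑ q ∈ pr z w, chi3 q / q := by
  obtain ⟨c, hc, hF⟩ := FF_chi3
  obtain ⟨C₃, hU⟩ := FF_upper
  obtain ⟨C₄, hC₄, hM⟩ := mertens_two
  obtain ⟨C₅, hC₅, hT⟩ := TW_sum
  -- lower bound for the sum over primes `< w`
  have hlow : ∃ A : ℝ, 0 < A ∧ ∀ w : ℕ, 2 ≤ w → -A ≤ ∑ q ∈ pr 2 w, chi3 q / q := by
    refine ⟨max 1 (-(Real.log c) + C₃ + C₄ - Real.log (Real.log 2) + Real.log 2),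
      lt_max_of_lt_left one_pos, ?_⟩
    intro w hw
    rcases Nat.lt_or_ge w 3 with hw3 | hw3
    · have : w = 2 := by omega
      subst this
      have he : pr 2 2 = ∅ := by
        rw [Finset.eq_empty_iff_forall_notMem]
        intro x hx
        rw [mem_pr] at hx
        omega
      rw [he, Finset.sum_empty]
      have h0 : (0 : ℝ) < max 1 (-(Real.log c) + C₃ + C₄ - Real.log (Real.log 2) + Real.log 2) :=
        lt_max_of_lt_left one_pos
      linarith
    · obtain ⟨y, rfl⟩ : ∃ y, w = y + 1 := ⟨w - 1, by omega⟩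
      have hy : 2 ≤ y := by omega
      have hyR : (2 : ℝ) ≤ y := by exact_mod_cast hy
      have hly : 0 < Real.log y := Real.log_pos (by linarith)
      have hl2 : 0 < Real.log 2 := Real.log_pos (by norm_num)
      have h1 := hF y hy
      have h2 := hU chi3 3 chi3_TW y (by omega)
      have h3 := Real.log_le_log (by positivity) (h1.trans h2)
      rw [Real.log_mul hc.ne' hly.ne', Real.log_exp] at h3
      have h4 : ∑ q ∈ pr 2 (y + 1), (1 + chi3 q) / q
          = ∑ q ∈ pr 2 (y + 1), (1 : ℝ) / q + ∑ q ∈ pr 2 (y + 1), chi3 q / q := by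
        rw [← Finset.sum_add_distrib]
        exact Finset.sum_congr rfl (fun q _ => add_div _ _ _)
      have h5 := (abs_le.1 (hM 2 (y + 1) le_rfl (by omega))).2
      have h6 : Real.log (Real.log ((y + 1 : ℕ) : ℝ)) ≤ Real.log 2 + Real.log (Real.log y) := by
        rw [← Real.log_mul (by norm_num) hly.ne']
        apply Real.log_le_log
        · apply Real.log_pos
          push_cast
          linarith
        · have : (2 : ℝ) * Real.log y = Real.log ((y : ℝ) ^ 2) := by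
            rw [Real.log_pow]; norm_num
          rw [this]
          apply Real.log_le_log
          · push_cast; linarith
          · push_cast; nlinarith
      have h7 : -(-(Real.log c) + C₃ + C₄ - Real.log (Real.log 2) + Real.log 2)
          ≤ ∑ q ∈ pr 2 (y + 1), chi3 q / q := by
        have h8 : Real.log (Real.log ((2 : ℕ) : ℝ)) = Real.log (Real.log 2) := by norm_num
        rw [h8] at h5
        linarith
      exact (neg_le_neg (le_max_right _ _)).trans h7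
  obtain ⟨A, hA, hlow⟩ := hlow
  -- upper bound
  have hup : ∀ z : ℕ, 2 ≤ z → ∑ q ∈ pr 2 z, chi3 q / q ≤ 6561 + C₅ := by
    intro z hz
    rcases Nat.lt_or_ge z 6561 with h | h
    · have h1 := TS_triv 2 z le_rfl
      have h2 : (z : ℝ) ≤ 6561 := by exact_mod_cast h.le
      linarith
    · rw [TS_split _ 2 6561 z (by norm_num) h]
      have h1 := TS_triv 2 6561 le_rfl
      have h2 := hT chi3 3 (by norm_num) chi3_TW 6561 z (by norm_num) h
      have h3 : ((6561 : ℕ) : ℝ) = 6561 := by norm_num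
      rw [h3] at h1
      linarith
  refine ⟨A + 6561 + C₅, by positivity, ?_⟩
  intro z w hz hzw
  have h1 := TS_split (fun q => chi3 q / q) 2 z w hz hzw
  have h2 := hlow w (hz.trans hzw)
  have h3 := hup z hz
  linarith

end Pool.Agent.H37.PPC
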