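import Pool.Agent.H37.PPC.Defs
import Pool.Agent.H91.PK.LSa

/-!
PPC ALS: Montgomery's arithmetic large sieve.

Use `Pool.Agent.H91.PK.additive_ls` (the additive large sieve for Farey fractions; ee t = exp(2πit)):
 ∑_{r ≤ R} ∑_{b mod r, (b,r)=1} |∑_{K0 < n ≤ K0+K} a_n ee(n b / r)|² ≤ (R² + π K) ∑ |a_n|²   with a = indicator of S, K0 = 0, K = X.
(Alternatively Pool.Agent.H92.EH2.LS `farey_ls`.)
Let S(α) = ∑_{n∈S} ee(n α).
(1) prime step: for l prime, ω = |Ω l| < l, and ANY real β:  ∑_{b=1}^{l-1} |S(β + b/l)|² ≥ (ω/(l-ω)) |S(β)|².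
 Z_j = ∑_{n∈S, n ≡ j mod l} ee(nβ), S(β+b/l) = ∑_j Z_j ee(jb/l); Z_j = 0 for the j ∈ Ω l; Parseval:
 ∑_{b=0}^{l-1} |S(β+b/l)|² = l ∑_j |Z_j|²; Cauchy: |S(β)|² = |∑_j Z_j|² ≤ (l-ω) ∑_j |Z_j|².
(2) for squarefree d and any β:  ∑_{b mod d, (b,d)=1} |S(β+b/d)|² ≥ g(d) |S(β)|², g(d) = ∏_{l|d} ω/(l-ω)
 by induction over the prime factors: for d = d' l, (d',l)=1 the residues b/d mod 1 with (b,d)=1 are exactly b'/d' + b''/l
 (CRT), S(α+integer) = S(α).
(3) β = 0: |S|² g(d) ≤ ∑_{b,(b,d)=1}|S(b/d)|²; sum over squarefree d ≤ Q: |S|² ∑ g(d) ≤ (Q²+πX)|S|.  Take C = 4 (S empty: trivial).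
-/

set_option autoImplicit false

namespace Pool.Agent.H37.PPC

open Finset Pool.Agent.H91.PK

private noncomputable def alsS (S : Finset ℕ) (α : ℝ) : ℂ := ∑ n ∈ S, ee ((n : ℝ) * α)

private theorem als_ee_add (a b : ℝ) : ee (a + b) = ee a * ee b := by
  unfold ee
  rw [← Complex.exp_add]
  congr 1
  push_cast
  ring

private theorem als_ee_int (n : ℤ) : ee (n : ℝ) = 1 := by
  unfold ee
  rw [Complex.exp_eq_one_iff]
  exact ⟨n, by push_cast; ring⟩

private theorem als_ee_nat (n : ℕ) : ee (n : ℝ) = 1 := by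
  have := als_ee_int (n : ℤ)
  push_cast at this
  exact this

private theorem als_norm_ee (t : ℝ) : ‖ee t‖ = 1 := by
  unfold ee
  have : (2 * (Real.pi : ℂ) * (t : ℂ) * Complex.I) = ((2 * Real.pi * t : ℝ) : ℂ) * Complex.I := by
    push_cast; ring
  rw [this, Complex.norm_exp_ofReal_mul_I]

private theorem als_ee_nat_mul (t : ℝ) (b : ℕ) : ee ((b : ℝ) * t) = ee t ^ b := by
  unfold ee
  rw [← Complex.exp_nat_mul]
  congr 1
  push_cast
  ring

private theorem alsS_add_int (S : Finset ℕ) (α : ℝ) (z : ℕ) : alsS S (α + z) = alsS S α := by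
  unfold alsS
  refine sum_congr rfl fun n _ => ?_
  have h : (n : ℝ) * (α + z) = n * α + ((n * z : ℕ) : ℝ) := by push_cast; ring
  rw [h, als_ee_add, als_ee_nat, mul_one]

/-- orthogonality -/
private theorem als_orth {l : ℕ} (hl : 0 < l) (j j' : ℕ) (hj : j < l) (hj' : j' < l) :
    ∑ b ∈ range l, ee ((j : ℝ) * b / l) * (starRingEnd ℂ) (ee ((j' : ℝ) * b / l)) =
      if j = j' then (l : ℂ) else 0 := by
  have hl0 : (l : ℝ) ≠ 0 := by exact_mod_cast hl.ne'
  have hconj : ∀ t : ℝ, (starRingEnd ℂ) (ee t) = ee (-t) := by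
    intro t
    unfold ee
    rw [← Complex.exp_conj]
    congr 1
    simp only [map_mul, Complex.conj_ofReal, Complex.conj_I, map_ofNat]
    push_cast
    ring
  have hterm : ∀ b : ℕ, ee ((j : ℝ) * b / l) * (starRingEnd ℂ) (ee ((j' : ℝ) * b / l)) =
      ee (((j : ℝ) - j') / l) ^ b := by
    intro b
    rw [hconj, ← als_ee_add, ← als_ee_nat_mul]
    congr 1
    ring
  simp_rw [hterm]
  split_ifs with h
  · subst h
    have : ee (((j : ℝ) - j) / l) = 1 := by
      rw [sub_self, zero_div]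
      unfold ee
      simp
    rw [this]
    simp
  · have h1 : ee (((j : ℝ) - j') / l) ≠ 1 := by
      intro h1
      unfold ee at h1
      rw [Complex.exp_eq_one_iff] at h1
      obtain ⟨z, hz⟩ := h1
      have h2 : ((((j : ℝ) - j') / l : ℝ) : ℂ) = (z : ℂ) := by
        have hpi : (2 * (Real.pi : ℂ) * Complex.I) ≠ 0 := Complex.two_pi_I_ne_zero
        have : (2 * (Real.pi : ℂ) * Complex.I) * ((((j : ℝ) - j') / l : ℝ) : ℂ) =
            (2 * (Real.pi : ℂ) * Complex.I) * (z : ℂ) := by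
          rw [← mul_comm (z : ℂ)]
          rw [← hz]
          ring
        exact mul_left_cancel₀ hpi this
      have h3 : ((j : ℝ) - j') / l = z := by exact_mod_cast h2
      have h4 : (j : ℝ) - j' = z * l := by
        field_simp at h3
        linarith
      have h5 : (j : ℤ) - j' = z * l := by exact_mod_cast h4
      have h6 : (l : ℤ) ∣ (j : ℤ) - j' := ⟨z, by rw [h5]; ring⟩
      have h7 : |(j : ℤ) - j'| < l := by
        rw [abs_lt]
        constructor <;> omega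
      have h8 := Int.eq_zero_of_abs_lt_dvd h6 h7
      omega
    have h2 : ee (((j : ℝ) - j') / l) ^ l = 1 := by
      rw [← als_ee_nat_mul]
      have : (l : ℝ) * (((j : ℝ) - j') / l) = (((j : ℤ) - j' : ℤ) : ℝ) := by
        push_cast
        field_simp
      rw [this, als_ee_int]
    rw [geom_sum_eq h1, h2, sub_self, zero_div]

/-- the part of the sum in the class `j` -/
private noncomputable def alsZ (S : Finset ℕ) (l : ℕ) (β : ℝ) (j : ℕ) : ℂ :=
  ∑ n ∈ S.filter (fun n => n % l = j), ee ((n : ℝ) * β)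

private theorem alsS_eq_Z (S : Finset ℕ) {l : ℕ} (hl : 0 < l) (β : ℝ) (b : ℕ) :
    alsS S (β + b / l) = ∑ j ∈ range l, alsZ S l β j * ee ((j : ℝ) * b / l) := by
  have hl0 : (l : ℝ) ≠ 0 := by exact_mod_cast hl.ne'
  unfold alsS alsZ
  rw [← sum_fiberwise_of_maps_to (s := S) (t := range l) (g := fun n => n % l)
    (fun n _ => mem_range.2 (Nat.mod_lt n hl))]
  refine sum_congr rfl fun j _ => ?_
  rw [sum_mul]
  refine sum_congr rfl fun n hn => ?_
  have hnj : n % l = j := (mem_filter.1 hn).2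
  have h1 : (n : ℝ) = j + l * ((n / l : ℕ) : ℝ) := by
    have := Nat.mod_add_div n l
    rw [hnj] at this
    exact_mod_cast this.symm
  have h2 : (n : ℝ) * (β + b / l) = n * β + (j * b / l + ((b * (n / l) : ℕ) : ℝ)) := by
    have : (n : ℝ) * (b / l) = j * b / l + ((b * (n / l) : ℕ) : ℝ) := by
      push_cast
      rw [h1]
      field_simp
    rw [mul_add, this]
  rw [h2, als_ee_add, als_ee_add, als_ee_nat, mul_one]

private theorem als_parseval (S : Finset ℕ) {l : ℕ} (hl : 0 < l) (β : ℝ) :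
    ∑ b ∈ range l, ‖alsS S (β + b / l)‖ ^ 2 = l * ∑ j ∈ range l, ‖alsZ S l β j‖ ^ 2 := by
  have key : ∑ b ∈ range l, (alsS S (β + b / l) * (starRingEnd ℂ) (alsS S (β + b / l))) =
      (l : ℂ) * ∑ j ∈ range l, (alsZ S l β j * (starRingEnd ℂ) (alsZ S l β j)) := by
    have h1 : ∀ b ∈ range l, alsS S (β + b / l) * (starRingEnd ℂ) (alsS S (β + b / l)) =
        ∑ j ∈ range l, ∑ j' ∈ range l, (alsZ S l β j * (starRingEnd ℂ) (alsZ S l β j')) *
          (ee ((j : ℝ) * b / l) * (starRingEnd ℂ) (ee ((j' : ℝ) * b / l))) := by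
      intro b _
      rw [alsS_eq_Z S hl, map_sum, sum_mul_sum]
      refine sum_congr rfl fun j _ => sum_congr rfl fun j' _ => ?_
      rw [map_mul]
      ring
    rw [sum_congr rfl h1, sum_comm, mul_sum]
    refine sum_congr rfl fun j hj => ?_
    rw [sum_comm]
    have h2 : ∀ j' ∈ range l, ∑ b ∈ range l, (alsZ S l β j * (starRingEnd ℂ) (alsZ S l β j')) *
          (ee ((j : ℝ) * b / l) * (starRingEnd ℂ) (ee ((j' : ℝ) * b / l))) =
        if j = j' then (alsZ S l β j * (starRingEnd ℂ) (alsZ S l β j')) * (l : ℂ) else 0 := by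
      intro j' hj'
      rw [← mul_sum, als_orth hl j j' (mem_range.1 hj) (mem_range.1 hj')]
      split_ifs <;> simp
    rw [sum_congr rfl h2, sum_ite_eq (range l) j, if_pos hj]
    ring
  have h3 : ∀ z : ℂ, z * (starRingEnd ℂ) z = ((‖z‖ ^ 2 : ℝ) : ℂ) := by
    intro z
    rw [Complex.mul_conj, Complex.normSq_eq_norm_sq]
  simp_rw [h3] at key
  exact_mod_cast key

private theorem als_prime {S : Finset ℕ} {l : ℕ} (hl : l.Prime) {Ω : Finset ℕ} (hΩ : Ω ⊆ range l)
    (hc : Ω.card < l) (hS : ∀ n ∈ S, n % l ∉ Ω) (β : ℝ) :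
    ((Ω.card : ℝ) / (l - Ω.card)) * ‖alsS S β‖ ^ 2 ≤
      ∑ b ∈ (range l).filter (fun b => Nat.Coprime b l), ‖alsS S (β + b / l)‖ ^ 2 := by
  have hpos : (0 : ℝ) < l - Ω.card := by
    have : (Ω.card : ℝ) < l := by exact_mod_cast hc
    linarith
  have hl0 : 0 < l := hl.pos
  have hpar := als_parseval S hl0 β
  have hcs : ‖alsS S β‖ ^ 2 ≤ (l - Ω.card) * ∑ j ∈ range l, ‖alsZ S l β j‖ ^ 2 := by
    have h0 : alsS S β = ∑ j ∈ range l \ Ω, alsZ S l β j := by
      have h1 := alsS_eq_Z S hl0 β 0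
      have h2 : β + ((0 : ℕ) : ℝ) / l = β := by simp
      rw [h2] at h1
      rw [h1, ← sum_sdiff hΩ]
      have h3 : ∑ j ∈ Ω, alsZ S l β j * ee ((j : ℝ) * (0 : ℕ) / l) = 0 := by
        refine sum_eq_zero fun j hj => ?_
        have : S.filter (fun n => n % l = j) = ∅ := by
          rw [filter_eq_empty_iff]
          intro n hn h
          exact hS n hn (h ▸ hj)
        unfold alsZ
        rw [this, sum_empty, zero_mul]
      rw [h3, add_zero]
      refine sum_congr rfl fun j _ => ?_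
      have : ee ((j : ℝ) * (0 : ℕ) / l) = 1 := by
        unfold ee
        simp
      rw [this, mul_one]
    rw [h0]
    have h1 : ‖∑ j ∈ range l \ Ω, alsZ S l β j‖ ^ 2 ≤ (∑ j ∈ range l \ Ω, ‖alsZ S l β j‖) ^ 2 := by
      have := norm_sum_le (range l \ Ω) (fun j => alsZ S l β j)
      exact pow_le_pow_left₀ (norm_nonneg _) this 2
    have h2 := sq_sum_le_card_mul_sum_sq (s := range l \ Ω) (f := fun j => ‖alsZ S l β j‖)
    have h3 : ((range l \ Ω).card : ℝ) = l - Ω.card := by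
      rw [card_sdiff_of_subset hΩ, card_range, Nat.cast_sub hc.le]
    rw [h3] at h2
    refine h1.trans (h2.trans ?_)
    refine mul_le_mul_of_nonneg_left ?_ hpos.le
    exact sum_le_sum_of_subset_of_nonneg sdiff_subset fun j _ _ => by positivity
  have hsplit : ∑ b ∈ range l, ‖alsS S (β + b / l)‖ ^ 2 = ‖alsS S β‖ ^ 2 +
      ∑ b ∈ (range l).filter (fun b => Nat.Coprime b l), ‖alsS S (β + b / l)‖ ^ 2 := by
    rw [← sum_filter_add_sum_filter_not (range l) (fun b => Nat.Coprime b l), add_comm]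
    congr 1
    have : (range l).filter (fun b => ¬ Nat.Coprime b l) = {0} := by
      ext b
      rw [mem_filter, mem_range, mem_singleton]
      constructor
      · rintro ⟨h1, h2⟩
        by_contra hb
        apply h2
        rw [Nat.coprime_comm]
        exact (Nat.Prime.coprime_iff_not_dvd hl).2 fun h => hb (Nat.eq_zero_of_dvd_of_lt h h1)
      · rintro rfl
        refine ⟨hl0, ?_⟩
        rw [Nat.coprime_zero_left]
        exact hl.one_lt.ne'
    rw [this, sum_singleton]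
    simp
  rw [hpar] at hsplit
  have h4 : (l : ℝ) * ∑ j ∈ range l, ‖alsZ S l β j‖ ^ 2 ≥ l / (l - Ω.card) * ‖alsS S β‖ ^ 2 := by
    have h5 : ‖alsS S β‖ ^ 2 / (l - Ω.card) ≤ ∑ j ∈ range l, ‖alsZ S l β j‖ ^ 2 := by
      rw [div_le_iff₀ hpos, mul_comm]
      exact hcs
    have h6 : (l : ℝ) / (l - Ω.card) * ‖alsS S β‖ ^ 2 = l * (‖alsS S β‖ ^ 2 / (l - Ω.card)) := by
      ring
    rw [h6]
    exact mul_le_mul_of_nonneg_left h5 (Nat.cast_nonneg _)
  have h7 : (Ω.card : ℝ) / (l - Ω.card) = l / (l - Ω.card) - 1 := by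
    field_simp
    ring
  rw [h7, sub_mul, one_mul]
  linarith

/-- the sum over the reduced fractions with denominator `d` -/
private noncomputable def alsA (S : Finset ℕ) (d : ℕ) (β : ℝ) : ℝ :=
  ∑ b ∈ (range d).filter (fun b => Nat.Coprime b d), ‖alsS S (β + b / d)‖ ^ 2

private theorem als_mul {S : Finset ℕ} {d l : ℕ} (hd : 0 < d) (hl : 0 < l) (hc : Nat.Coprime d l)
    (β : ℝ) : ∑ b ∈ (range d).filter (fun b => Nat.Coprime b d), alsA S l (β + b / d) ≤
      alsA S (d * l) β := by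
  have hd0 : (d : ℝ) ≠ 0 := by exact_mod_cast hd.ne'
  have hl0 : (l : ℝ) ≠ 0 := by exact_mod_cast hl.ne'
  unfold alsA
  rw [← sum_product']
  have hval : ∀ x : ℕ × ℕ, alsS S (β + x.1 / d + x.2 / l) =
      alsS S (β + ((x.1 * l + x.2 * d) % (d * l) : ℕ) / ((d * l : ℕ) : ℝ)) := by
    intro x
    have h1 : ((x.1 * l + x.2 * d : ℕ) : ℝ) = ((x.1 * l + x.2 * d) % (d * l) : ℕ) +
        ((d * l : ℕ) : ℝ) * (((x.1 * l + x.2 * d) / (d * l) : ℕ) : ℝ) := by
      exact_mod_cast (Nat.mod_add_div (x.1 * l + x.2 * d) (d * l)).symm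
    have h2 : β + (x.1 : ℝ) / d + (x.2 : ℝ) / l =
        (β + ((x.1 * l + x.2 * d) % (d * l) : ℕ) / ((d * l : ℕ) : ℝ)) +
          (((x.1 * l + x.2 * d) / (d * l) : ℕ) : ℝ) := by
      have hdl : ((d * l : ℕ) : ℝ) ≠ 0 := by
        push_cast
        exact mul_ne_zero hd0 hl0
      have h3 : (x.1 : ℝ) / d + (x.2 : ℝ) / l = ((x.1 * l + x.2 * d : ℕ) : ℝ) / ((d * l : ℕ) : ℝ) := by
        push_cast
        field_simp
      rw [add_assoc, h3, h1]
      field_simp
      ring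
    rw [h2, alsS_add_int]
  have hsum : ∑ x ∈ ((range d).filter (fun b => Nat.Coprime b d)) ×ˢ
        ((range l).filter (fun b => Nat.Coprime b l)), ‖alsS S (β + x.1 / d + x.2 / l)‖ ^ 2 =
      ∑ y ∈ (((range d).filter (fun b => Nat.Coprime b d)) ×ˢ
        ((range l).filter (fun b => Nat.Coprime b l))).image
          (fun x => (x.1 * l + x.2 * d) % (d * l)), ‖alsS S (β + (y : ℝ) / ((d * l : ℕ) : ℝ))‖ ^ 2 := by
    rw [sum_image]
    · refine sum_congr rfl fun x _ => ?_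
      rw [hval x]
    · intro x hx x' hx' h
      rw [mem_coe, mem_product, mem_filter, mem_filter, mem_range, mem_range] at hx hx'
      have h' : x.1 * l + x.2 * d ≡ x'.1 * l + x'.2 * d [MOD d * l] := h
      have e1 : x.1 * l + x.2 * d ≡ x'.1 * l + x'.2 * d [MOD d] := h'.of_mul_right l
      have e2 : x.1 * l + x.2 * d ≡ x'.1 * l + x'.2 * d [MOD l] := h'.of_mul_left d
      have f1 : x.1 * l ≡ x'.1 * l [MOD d] := by
        have a1 : x.2 * d ≡ x'.2 * d [MOD d] := by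
          rw [Nat.ModEq, Nat.mul_mod_left, Nat.mul_mod_left]
        exact Nat.ModEq.add_right_cancel a1 e1
      have f2 : x.2 * d ≡ x'.2 * d [MOD l] := by
        have a1 : x.1 * l ≡ x'.1 * l [MOD l] := by
          rw [Nat.ModEq, Nat.mul_mod_left, Nat.mul_mod_left]
        exact Nat.ModEq.add_left_cancel a1 e2
      have g1 : x.1 ≡ x'.1 [MOD d] := Nat.ModEq.cancel_right_of_coprime hc f1
      have g2 : x.2 ≡ x'.2 [MOD l] := Nat.ModEq.cancel_right_of_coprime (Nat.coprime_comm.1 hc) f2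
      exact Prod.ext (g1.eq_of_lt_of_lt hx.1.1 hx'.1.1) (g2.eq_of_lt_of_lt hx.2.1 hx'.2.1)
  rw [hsum]
  refine sum_le_sum_of_subset_of_nonneg ?_ fun _ _ _ => by positivity
  intro y hy
  obtain ⟨x, hx, rfl⟩ := mem_image.1 hy
  rw [mem_product, mem_filter, mem_filter, mem_range, mem_range] at hx
  rw [mem_filter, mem_range]
  refine ⟨Nat.mod_lt _ (Nat.mul_pos hd hl), ?_⟩
  have hco : Nat.Coprime (x.1 * l + x.2 * d) (d * l) := by
    refine Nat.Coprime.mul_right ?_ ?_
    · rw [Nat.coprime_add_mul_right_left]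
      exact Nat.Coprime.mul_left hx.1.2 (Nat.coprime_comm.1 hc)
    · rw [Nat.coprime_mul_right_add_left]
      exact Nat.Coprime.mul_left hx.2.2 hc
  rw [Nat.coprime_iff_gcd_eq_one] at hco ⊢
  rw [← hco, ← Nat.gcd_rec, Nat.gcd_comm]

private theorem als_ge {S : Finset ℕ} {Ω : ℕ → Finset ℕ}
    (hΩ : ∀ l : ℕ, l.Prime → Ω l ⊆ range l ∧ (Ω l).card < l)
    (hS : ∀ n ∈ S, ∀ l : ℕ, l.Prime → n % l ∉ Ω l) (d : ℕ) (hd : Squarefree d) :
    ∀ β : ℝ, (∏ l ∈ d.primeFactors, ((Ω l).card : ℝ) / (l - (Ω l).card)) * ‖alsS S β‖ ^ 2 ≤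
      alsA S d β := by
  induction d using Nat.recOnPosPrimePosCoprime with
  | zero => exact absurd hd not_squarefree_zero
  | one =>
    intro β
    simp [alsA]
  | prime_pow p n hp hn =>
    intro β
    have hn1 : n = 1 := by
      by_contra hne
      have h2 : 2 ≤ n := by omega
      have : p * p ∣ p ^ n := by
        rw [← pow_two]
        exact pow_dvd_pow p h2
      exact hp.one_lt.ne' (Nat.isUnit_iff.1 (hd p this))
    subst hn1
    rw [pow_one, hp.primeFactors, prod_singleton]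
    exact als_prime hp (hΩ p hp).1 (hΩ p hp).2 (fun n hn => hS n hn p hp) β
  | coprime a b ha hb hab iha ihb =>
    intro β
    have hsq := (Nat.squarefree_mul hab).1 hd
    rw [Nat.Coprime.primeFactors_mul hab, prod_union (Nat.Coprime.disjoint_primeFactors hab)]
    refine le_trans ?_ (als_mul (by omega) (by omega) hab β)
    have hnn : 0 ≤ ∏ l ∈ b.primeFactors, ((Ω l).card : ℝ) / (l - (Ω l).card) := by
      refine prod_nonneg fun l hl => div_nonneg (Nat.cast_nonneg _) ?_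
      have : ((Ω l).card : ℝ) < l := by exact_mod_cast (hΩ l (Nat.prime_of_mem_primeFactors hl)).2
      linarith
    have h1 : ∑ c ∈ (range a).filter (fun c => Nat.Coprime c a),
        (∏ l ∈ b.primeFactors, ((Ω l).card : ℝ) / (l - (Ω l).card)) * ‖alsS S (β + c / a)‖ ^ 2 ≤
        ∑ c ∈ (range a).filter (fun c => Nat.Coprime c a), alsA S b (β + c / a) :=
      sum_le_sum fun c _ => ihb hsq.2 _
    refine le_trans ?_ h1
    rw [← mul_sum]
    have h2 := iha hsq.1 β
    unfold alsA at h2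
    calc _ = (∏ l ∈ b.primeFactors, ((Ω l).card : ℝ) / (l - (Ω l).card)) *
          ((∏ l ∈ a.primeFactors, ((Ω l).card : ℝ) / (l - (Ω l).card)) * ‖alsS S β‖ ^ 2) := by ring
      _ ≤ _ := mul_le_mul_of_nonneg_left h2 hnn

theorem arith_ls : ∃ C : ℝ, 0 < C ∧ ∀ X Q : ℕ, 1 ≤ X → 1 ≤ Q → ∀ Ω : ℕ → Finset ℕ,
    (∀ l : ℕ, l.Prime → Ω l ⊆ range l ∧ (Ω l).card < l) →
    ∀ S : Finset ℕ, (∀ n ∈ S, 1 ≤ n ∧ n ≤ X) → (∀ n ∈ S, ∀ l : ℕ, l.Prime → n % l ∉ Ω l) →
    (S.card : ℝ) * ∑ d ∈ (Icc 1 Q).filter Squarefree,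
        ∏ l ∈ d.primeFactors, ((Ω l).card : ℝ) / (l - (Ω l).card)
      ≤ C * ((Q : ℝ) ^ 2 + X) := by
  classical
  refine ⟨4, by norm_num, ?_⟩
  intro X Q hX hQ Ω hΩ S hSX hS
  rcases S.eq_empty_or_nonempty with rfl | hne
  · simp only [card_empty, Nat.cast_zero, zero_mul]
    positivity
  have hcard : (0 : ℝ) < S.card := by exact_mod_cast card_pos.2 hne
  have hls := additive_ls Q 0 X (fun n => if n ∈ S then 1 else 0)
  have hS0 : alsS S 0 = S.card := by
    unfold alsS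
    have : ∀ n ∈ S, ee ((n : ℝ) * 0) = 1 := by
      intro n _
      rw [mul_zero]
      unfold ee
      simp
    rw [sum_congr rfl this]
    simp
  have hin : (Ioc 0 (0 + X)).filter (fun n => n ∈ S) = S := by
    ext n
    rw [mem_filter, mem_Ioc]
    constructor
    · exact fun h => h.2
    · intro h
      have := hSX n h
      exact ⟨⟨by omega, by omega⟩, h⟩
  have hR : ∑ n ∈ Ioc 0 (0 + X), ‖(if n ∈ S then (1 : ℂ) else 0)‖ ^ 2 = S.card := by
    have : ∀ n ∈ Ioc 0 (0 + X), ‖(if n ∈ S then (1 : ℂ) else 0)‖ ^ 2 =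
        if n ∈ S then (1 : ℝ) else 0 := by
      intro n _
      split_ifs <;> simp
    rw [sum_congr rfl this, ← sum_filter, hin]
    simp
  have hL : ∀ t : ℕ → ℝ, ∑ n ∈ Ioc 0 (0 + X), (if n ∈ S then (1 : ℂ) else 0) * ee (t n) =
      ∑ n ∈ S, ee (t n) := by
    intro t
    simp only [ite_mul, one_mul, zero_mul]
    rw [← sum_filter, hin]
  rw [hR] at hls
  have hkey : ∑ d ∈ (Icc 1 Q).filter Squarefree,
      (∏ l ∈ d.primeFactors, ((Ω l).card : ℝ) / (l - (Ω l).card)) * (S.card : ℝ) ^ 2 ≤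
      ((Q : ℝ) ^ 2 + Real.pi * X) * S.card := by
    refine le_trans ?_ hls
    refine le_trans ?_ (sum_le_sum_of_subset_of_nonneg (filter_subset Squarefree (Icc 1 Q))
      fun r _ _ => sum_nonneg fun b _ => by positivity)
    refine sum_le_sum fun d hd => ?_
    rw [mem_filter, mem_Icc] at hd
    have h1 := als_ge hΩ hS d hd.2 0
    rw [hS0, Complex.norm_natCast] at h1
    refine h1.trans ?_
    unfold alsA
    have hval : ∀ b : ℕ, ‖∑ n ∈ Ioc 0 (0 + X), (if n ∈ S then (1 : ℂ) else 0) *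
        ee ((n : ℝ) * b / d)‖ ^ 2 = ‖alsS S (0 + (b : ℝ) / d)‖ ^ 2 := by
      intro b
      rw [hL fun n => (n : ℝ) * b / d]
      unfold alsS
      congr 2
      refine sum_congr rfl fun n _ => ?_
      congr 1
      rw [zero_add, mul_div_assoc]
    simp_rw [hval]
    rcases Nat.lt_or_ge 1 d with h | h
    · refine sum_le_sum_of_subset_of_nonneg ?_ fun _ _ _ => by positivity
      intro b hb
      rw [mem_filter, mem_range] at hb
      rw [mem_filter, mem_Icc]
      refine ⟨⟨?_, hb.1.le⟩, hb.2⟩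
      rcases Nat.eq_zero_or_pos b with rfl | hb0
      · rw [Nat.coprime_zero_left] at hb
        omega
      · exact hb0
    · have hd1 : d = 1 := by omega
      subst hd1
      have e1 : (range 1).filter (fun b => Nat.Coprime b 1) = {0} := by decide
      have e2 : (Icc 1 1).filter (fun b => Nat.Coprime b 1) = {1} := by decide
      rw [e1, e2, sum_singleton, sum_singleton]
      have := alsS_add_int S (0 + ((0 : ℕ) : ℝ) / ((1 : ℕ) : ℝ)) 1
      have h2 : (0 + ((0 : ℕ) : ℝ) / ((1 : ℕ) : ℝ)) + ((1 : ℕ) : ℝ) =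
          0 + ((1 : ℕ) : ℝ) / ((1 : ℕ) : ℝ) := by norm_num
      rw [← h2, this]
  rw [← sum_mul] at hkey
  have hpi : Real.pi ≤ 4 := Real.pi_le_four
  have h3 : (S.card : ℝ) * ∑ d ∈ (Icc 1 Q).filter Squarefree,
        ∏ l ∈ d.primeFactors, ((Ω l).card : ℝ) / (l - (Ω l).card) ≤ (Q : ℝ) ^ 2 + Real.pi * X := by
    have h4 : ((S.card : ℝ) * ∑ d ∈ (Icc 1 Q).filter Squarefree,
        ∏ l ∈ d.primeFactors, ((Ω l).card : ℝ) / (l - (Ω l).card)) * S.card ≤
        ((Q : ℝ) ^ 2 + Real.pi * X) * S.card := by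
      refine le_trans (le_of_eq ?_) hkey
      ring
    exact le_of_mul_le_mul_right h4 hcard
  refine h3.trans ?_
  have hX0 : (0 : ℝ) ≤ X := Nat.cast_nonneg _
  nlinarith [mul_le_mul_of_nonneg_right hpi hX0, sq_nonneg (Q : ℝ)]

end Pool.Agent.H37.PPC
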