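import Pool.Agent.H37.PPC.Rk
import Pool.Agent.H37.PPC.ALS

/-!
PPC Sv: the sieve bound, and its application to multiples of m.

`sieve`: Q = z^{s1} (s1 from `rankin κ`), s = 2 s1, h l = ω/(l-ω), ω = |Ω l| (extend by h l = 0 for non-primes if needed), h l·l = ω(1+h l) ≤ κ(1+h l).
 |S| (1/2) ∏_{l≤z}(1+h l) ≤ |S| ∑_{d≤Q} ... ≤ C(Q²+X) ≤ 2CX, and 1+h l = 1/(1-ω/l) ≥ exp(ω/l).
`sieve_apply`: κ = 3, X = x/m (floor), S' = {n/m : n∈S}; Ω l = {0} if l ∈ Z0 (l ∤ n = m r ⇒ l ∤ r), for q ∈ Zq also the two classes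
 m^{-1}ρ, ρ the two roots of t²+t+1 in ZMod q (q ≡ 1 mod 3: an element of order 3 by Cauchy, and its square; distinct, nonzero); since
 n²+n+1 ≢ 0 mod q, n = m r ≢ ρ, r ≢ m^{-1}ρ.  |Ω l| = [l∈Z0] + 2[l∈Zq].  q ≡ 1 mod 3 prime ⇒ q ≥ 7 so |Ω| < l.
-/

set_option autoImplicit false

namespace Pool.Agent.H37.PPC

open Finset

theorem sieve (κ : ℕ) : ∃ C : ℝ, 0 < C ∧ ∃ s : ℕ, 0 < s ∧ ∀ X z : ℕ, 2 ≤ z → z ^ s ≤ X →
    ∀ Ω : ℕ → Finset ℕ, (∀ l : ℕ, l.Prime → Ω l ⊆ range l ∧ (Ω l).card < l ∧ (Ω l).card ≤ κ) →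
    ∀ S : Finset ℕ, (∀ n ∈ S, 1 ≤ n ∧ n ≤ X) → (∀ n ∈ S, ∀ l : ℕ, l.Prime → n % l ∉ Ω l) →
    (S.card : ℝ) ≤ C * X * Real.exp (- ∑ l ∈ pr 2 (z + 1), ((Ω l).card : ℝ) / l) := by
  obtain ⟨s1, hs1, hR⟩ := rankin κ
  obtain ⟨C0, hC0, hL⟩ := arith_ls
  refine ⟨4 * C0, by positivity, 2 * s1, by omega, ?_⟩
  intro X z hz hzX Ω hΩ S hS hS2
  have hz1 : 1 ≤ z ^ s1 := Nat.one_le_pow _ _ (by omega)
  have hQ2 : (z ^ s1) ^ 2 ≤ X := by
    rw [← pow_mul, mul_comm s1 2]; exact hzX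
  have hX1 : 1 ≤ X := le_trans (Nat.one_le_pow _ _ (by omega)) hzX
  have h1 := hL X (z ^ s1) hX1 hz1 Ω (fun l hl => ⟨(hΩ l hl).1, (hΩ l hl).2.1⟩) S hS hS2
  have hpos : ∀ l : ℕ, l.Prime → (0 : ℝ) < (l : ℝ) - ((Ω l).card : ℝ) := by
    intro l hl
    have := (hΩ l hl).2.1
    have h2 : ((Ω l).card : ℝ) < (l : ℝ) := by exact_mod_cast this
    linarith
  have hone : ∀ l : ℕ, l.Prime →
      1 + ((Ω l).card : ℝ) / (l - (Ω l).card) = l / (l - (Ω l).card) := by
    intro l hl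
    have := hpos l hl
    field_simp
    ring
  have h2 := hR z hz (fun l => ((Ω l).card : ℝ) / (l - (Ω l).card)) (by
    intro l hl
    have hp := hpos l hl
    refine ⟨by positivity, ?_⟩
    show ((Ω l).card : ℝ) / (l - (Ω l).card) * l
      ≤ κ * (1 + ((Ω l).card : ℝ) / (l - (Ω l).card))
    rw [hone l hl]
    have hk : ((Ω l).card : ℝ) ≤ κ := by exact_mod_cast (hΩ l hl).2.2
    have h3 : ((Ω l).card : ℝ) / (l - (Ω l).card) * l
        = ((Ω l).card : ℝ) * (l / (l - (Ω l).card)) := by ring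
    rw [h3]
    exact mul_le_mul_of_nonneg_right hk (by positivity))
  have h3 : Real.exp (∑ l ∈ pr 2 (z + 1), ((Ω l).card : ℝ) / l)
      ≤ ∏ l ∈ pr 2 (z + 1), (1 + ((Ω l).card : ℝ) / (l - (Ω l).card)) := by
    rw [Real.exp_sum]
    apply Finset.prod_le_prod
    · intro l _; exact (Real.exp_pos _).le
    · intro l hl
      have hlp : l.Prime := (mem_pr.1 hl).2
      have hp := hpos l hlp
      have hl0 : (0 : ℝ) < l := by exact_mod_cast hlp.pos
      rw [hone l hlp]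
      have h4 : 1 - ((Ω l).card : ℝ) / l ≤ Real.exp (-(((Ω l).card : ℝ) / l)) :=
        Real.one_sub_le_exp_neg _
      have h5 : (l : ℝ) / (l - (Ω l).card) = (1 - ((Ω l).card : ℝ) / l)⁻¹ := by
        field_simp
      have h6 : (0 : ℝ) < 1 - ((Ω l).card : ℝ) / l := by
        rw [sub_pos, div_lt_one hl0]; linarith
      rw [h5, show Real.exp (((Ω l).card : ℝ) / l)
        = (Real.exp (-(((Ω l).card : ℝ) / l)))⁻¹ by rw [Real.exp_neg, inv_inv]]
      exact inv_anti₀ h6 h4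
  have hSc : (0 : ℝ) ≤ S.card := by positivity
  have hX2 : ((z ^ s1 : ℕ) : ℝ) ^ 2 ≤ X := by exact_mod_cast hQ2
  have h4 : (S.card : ℝ) * ((1 / 2) * Real.exp (∑ l ∈ pr 2 (z + 1), ((Ω l).card : ℝ) / l))
      ≤ C0 * (2 * X) := by
    calc (S.card : ℝ) * ((1 / 2) * Real.exp (∑ l ∈ pr 2 (z + 1), ((Ω l).card : ℝ) / l))
        ≤ (S.card : ℝ) * ∑ d ∈ (Icc 1 (z ^ s1)).filter Squarefree,
          ∏ l ∈ d.primeFactors, ((Ω l).card : ℝ) / (l - (Ω l).card) := by
          apply mul_le_mul_of_nonneg_left _ hSc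
          refine le_trans ?_ h2
          exact mul_le_mul_of_nonneg_left h3 (by norm_num)
      _ ≤ C0 * (((z ^ s1 : ℕ) : ℝ) ^ 2 + X) := h1
      _ ≤ C0 * (2 * X) := by
          apply mul_le_mul_of_nonneg_left _ hC0.le
          linarith
  rw [Real.exp_neg]
  have hE := Real.exp_pos (∑ l ∈ pr 2 (z + 1), ((Ω l).card : ℝ) / l)
  rw [← div_eq_mul_inv, le_div_iff₀ hE]
  nlinarith [h4]

/-- the number of roots -/
private lemma Sv_roots {q m : ℕ} (hq : q.Prime) (h3 : q % 3 = 1) (hm : ¬ q ∣ m) :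
    ((range q).filter (fun r => q ∣ (m * r) ^ 2 + m * r + 1)).card = 2 := by
  classical
  haveI : Fact q.Prime := ⟨hq⟩
  have hdvd : 3 ∣ Fintype.card (ZMod q)ˣ := by
    rw [ZMod.card_units_eq_totient, Nat.totient_prime hq]
    omega
  haveI : Fact (Nat.Prime 3) := ⟨Nat.prime_three⟩
  obtain ⟨u, hu⟩ := exists_prime_orderOf_dvd_card 3 hdvd
  have hu3 : u ^ 3 = 1 := by rw [← hu]; exact pow_orderOf_eq_one u
  have hu1 : u ≠ 1 := by
    intro h; rw [h, orderOf_one] at hu; omega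
  set w : ZMod q := (u : ZMod q) with hw
  have hw3 : w ^ 3 = 1 := by
    rw [hw, ← Units.val_pow_eq_pow_val, hu3, Units.val_one]
  have hw1 : w ≠ 1 := by
    intro h
    apply hu1
    apply Units.ext
    rw [Units.val_one]; exact h
  have hw0 : w ≠ 0 := u.ne_zero
  have hww : w ^ 2 + w + 1 = 0 := by
    have h : (w - 1) * (w ^ 2 + w + 1) = 0 := by
      have : (w - 1) * (w ^ 2 + w + 1) = w ^ 3 - 1 := by ring
      rw [this, hw3, sub_self]
    rcases mul_eq_zero.1 h with h | h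
    · exact absurd (sub_eq_zero.1 h) hw1
    · exact h
  have hm0 : (m : ZMod q) ≠ 0 := by
    intro h
    exact hm ((ZMod.natCast_eq_zero_iff m q).1 h)
  have hne : w ≠ w ^ 2 := by
    intro h
    apply hw1
    have h2 : w * (w - 1) = 0 := by
      have : w * (w - 1) = w ^ 2 - w := by ring
      rw [this, ← h, sub_self]
    rcases mul_eq_zero.1 h2 with h | h
    · exact absurd h hw0
    · exact sub_eq_zero.1 h
  have hfil : (range q).filter (fun r => q ∣ (m * r) ^ 2 + m * r + 1)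
      = {((m : ZMod q)⁻¹ * w).val, ((m : ZMod q)⁻¹ * w ^ 2).val} := by
    ext r
    rw [mem_filter, mem_range, mem_insert, mem_singleton]
    constructor
    · rintro ⟨hr, hd⟩
      have h1 : (((m * r) ^ 2 + m * r + 1 : ℕ) : ZMod q) = 0 :=
        (ZMod.natCast_eq_zero_iff _ q).2 hd
      push_cast at h1
      have h2 : ((m : ZMod q) * r - w) * ((m : ZMod q) * r - w ^ 2) = 0 := by
        have : ((m : ZMod q) * r - w) * ((m : ZMod q) * r - w ^ 2)
            = (((m : ZMod q) * r) ^ 2 + (m : ZMod q) * r + 1)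
              - ((m : ZMod q) * r) * (w ^ 2 + w + 1) + (w ^ 3 - 1) := by ring
        rw [this, h1, hww, hw3]; ring
      rcases mul_eq_zero.1 h2 with h | h
      · left
        have h3 : (r : ZMod q) = (m : ZMod q)⁻¹ * w := by
          rw [← sub_eq_zero.1 h]; field_simp
        rw [← h3, ZMod.val_natCast, Nat.mod_eq_of_lt hr]
      · right
        have h3 : (r : ZMod q) = (m : ZMod q)⁻¹ * w ^ 2 := by
          rw [← sub_eq_zero.1 h]; field_simp
        rw [← h3, ZMod.val_natCast, Nat.mod_eq_of_lt hr]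
    · rintro (h | h)
      · refine ⟨by rw [h]; exact ZMod.val_lt _, ?_⟩
        apply (ZMod.natCast_eq_zero_iff _ q).1
        push_cast
        rw [h, ZMod.natCast_val, ZMod.cast_id, mul_inv_cancel_left₀ hm0]
        exact hww
      · refine ⟨by rw [h]; exact ZMod.val_lt _, ?_⟩
        apply (ZMod.natCast_eq_zero_iff _ q).1
        push_cast
        rw [h, ZMod.natCast_val, ZMod.cast_id, mul_inv_cancel_left₀ hm0]
        have : (w ^ 2) ^ 2 + w ^ 2 + 1 = (w ^ 2 + w + 1) + w * (w ^ 3 - 1) := by ring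
        rw [this, hww, hw3]; ring
  rw [hfil]
  apply card_pair
  intro h
  have h2 := ZMod.val_injective q h
  apply hne
  exact mul_left_cancel₀ (inv_ne_zero hm0) h2

theorem sieve_apply : ∃ C : ℝ, 0 < C ∧ ∃ s : ℕ, 0 < s ∧ ∀ (x y m : ℕ), 2 ≤ y → 1 ≤ m →
    m * y ^ s ≤ x → ∀ Z0 Zq : Finset ℕ, Z0 ⊆ pr 2 (y + 1) → Zq ⊆ pr 2 (y + 1) →
    (∀ q ∈ Zq, q % 3 = 1 ∧ ¬ q ∣ m) →
    ∀ S : Finset ℕ, (∀ n ∈ S, 1 ≤ n ∧ n ≤ x ∧ m ∣ n ∧ (∀ l ∈ Z0, ¬ l ∣ n) ∧
      (∀ q ∈ Zq, ¬ q ∣ n ^ 2 + n + 1)) →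
    (S.card : ℝ) ≤ C * (x / m) * Real.exp (- (∑ l ∈ Z0, (1 : ℝ) / l) - 2 * ∑ q ∈ Zq, (1 : ℝ) / q) := by
  classical
  obtain ⟨C, hC, s, hs, hsv⟩ := sieve 3
  refine ⟨C, hC, s, hs, ?_⟩
  intro x y m hy hm hxm Z0 Zq hZ0 hZq hq S hS
  set Ω : ℕ → Finset ℕ := fun l => (if l ∈ Z0 then {0} else ∅) ∪
    (if l ∈ Zq then (range l).filter (fun r => l ∣ (m * r) ^ 2 + m * r + 1) else ∅) with hΩ
  have hcard : ∀ l : ℕ, (Ω l).card = (if l ∈ Z0 then 1 else 0) + (if l ∈ Zq then 2 else 0) := by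
    intro l
    rw [hΩ]
    show ((if l ∈ Z0 then ({0} : Finset ℕ) else ∅) ∪
      (if l ∈ Zq then (range l).filter (fun r => l ∣ (m * r) ^ 2 + m * r + 1) else ∅)).card = _
    rw [card_union_of_disjoint]
    · congr 1
      · split_ifs <;> simp
      · split_ifs with h
        · exact Sv_roots (mem_pr.1 (hZq h)).2 (hq l h).1 (hq l h).2
        · simp
    · rw [disjoint_left]
      intro a ha hb
      split_ifs at ha with h1
      · rw [mem_singleton] at ha
        subst ha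
        split_ifs at hb with h2
        · rw [mem_filter] at hb
          have h3 : l ∣ 1 := by simpa using hb.2
          have hp := (mem_pr.1 (hZq h2)).2
          exact hp.one_lt.ne' (Nat.dvd_one.1 h3)
        · simp at hb
      · simp at ha
  have hmain := hsv (x / m) y hy ((Nat.le_div_iff_mul_le (by omega)).2 (by
      rw [mul_comm]; exact hxm)) Ω (by
    intro l hl
    refine ⟨?_, ?_, ?_⟩
    · intro a ha
      rw [hΩ] at ha
      change a ∈ ((if l ∈ Z0 then ({0} : Finset ℕ) else ∅) ∪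
        (if l ∈ Zq then (range l).filter (fun r => l ∣ (m * r) ^ 2 + m * r + 1) else ∅)) at ha
      rw [mem_union] at ha
      rw [mem_range]
      rcases ha with ha | ha
      · split_ifs at ha with h1
        · rw [mem_singleton] at ha
          rw [ha]; exact hl.pos
        · simp at ha
      · split_ifs at ha with h1
        · exact mem_range.1 (mem_filter.1 ha).1
        · simp at ha
    · rw [hcard]
      have h2 := hl.two_le
      split_ifs with h1 h3 h3
      · have h4 := (hq l h3).1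
        have h5 : l ≠ 4 := by rintro rfl; revert hl; decide
        omega
      · omega
      · have h4 := (hq l h3).1
        omega
      · omega
    · rw [hcard]
      split_ifs <;> omega)
    (S.image (fun n => n / m)) (by
      intro a ha
      rw [mem_image] at ha
      obtain ⟨n, hn, rfl⟩ := ha
      obtain ⟨h1, h2, h3, _⟩ := hS n hn
      refine ⟨?_, Nat.div_le_div_right h2⟩
      exact Nat.div_pos (Nat.le_of_dvd h1 h3) hm) (by
      intro a ha l hl hin
      rw [mem_image] at ha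
      obtain ⟨n, hn, rfl⟩ := ha
      obtain ⟨h1, h2, h3, h4, h5⟩ := hS n hn
      have hnm : m * (n / m) = n := Nat.mul_div_cancel' h3
      rw [hΩ] at hin
      change n / m % l ∈ ((if l ∈ Z0 then ({0} : Finset ℕ) else ∅) ∪
        (if l ∈ Zq then (range l).filter (fun r => l ∣ (m * r) ^ 2 + m * r + 1) else ∅)) at hin
      rw [mem_union] at hin
      rcases hin with hin | hin
      · split_ifs at hin with h6
        · rw [mem_singleton] at hin
          apply h4 l h6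
          rw [← hnm]
          exact dvd_mul_of_dvd_right (Nat.dvd_of_mod_eq_zero hin) m
        · simp at hin
      · split_ifs at hin with h6
        · apply h5 l h6
          have h7 := (mem_filter.1 hin).2
          have h8 : (m * (n / m % l)) ^ 2 + m * (n / m % l) + 1 ≡ n ^ 2 + n + 1 [MOD l] := by
            have h9 : m * (n / m % l) ≡ n [MOD l] := by
              calc m * (n / m % l) ≡ m * (n / m) [MOD l] :=
                    Nat.ModEq.mul_left m (Nat.mod_modEq _ _)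
                _ = n := hnm
            exact ((h9.pow 2).add h9).add_right 1
          exact (Nat.ModEq.dvd_iff h8 (dvd_refl l)).1 h7
        · simp at hin)
  have hinj : (S.image (fun n => n / m)).card = S.card := by
    apply card_image_of_injOn
    intro a ha b hb hab
    have h1 : m * (a / m) = a := Nat.mul_div_cancel' (hS a ha).2.2.1
    have h2 : m * (b / m) = b := Nat.mul_div_cancel' (hS b hb).2.2.1
    change a / m = b / m at hab
    rw [← h1, ← h2, hab]
  rw [hinj] at hmain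
  have hsum : ∑ l ∈ pr 2 (y + 1), ((Ω l).card : ℝ) / l
      = (∑ l ∈ Z0, (1 : ℝ) / l) + 2 * ∑ q ∈ Zq, (1 : ℝ) / q := by
    have h1 : ∀ l ∈ pr 2 (y + 1), ((Ω l).card : ℝ) / l
        = (if l ∈ Z0 then (1 : ℝ) / l else 0) + (if l ∈ Zq then 2 * ((1 : ℝ) / l) else 0) := by
      intro l _
      rw [hcard]
      split_ifs <;> push_cast <;> ring
    rw [sum_congr rfl h1, sum_add_distrib, ← sum_filter, ← sum_filter]
    congr 1
    · apply sum_congr _ (fun _ _ => rfl)
      ext l; rw [mem_filter]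
      exact ⟨fun h => h.2, fun h => ⟨hZ0 h, h⟩⟩
    · rw [mul_sum]
      apply sum_congr _ (fun _ _ => rfl)
      ext l; rw [mem_filter]
      exact ⟨fun h => h.2, fun h => ⟨hZq h, h⟩⟩
  rw [hsum] at hmain
  have hdiv : ((x / m : ℕ) : ℝ) ≤ (x : ℝ) / m := Nat.cast_div_le
  calc (S.card : ℝ) ≤ C * ((x / m : ℕ) : ℝ)
        * Real.exp (-((∑ l ∈ Z0, (1 : ℝ) / l) + 2 * ∑ q ∈ Zq, (1 : ℝ) / q)) := hmain
    _ ≤ C * (x / m) * Real.exp (-((∑ l ∈ Z0, (1 : ℝ) / l) + 2 * ∑ q ∈ Zq, (1 : ℝ) / q)) := by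
        apply mul_le_mul_of_nonneg_right _ (Real.exp_pos _).le
        exact mul_le_mul_of_nonneg_left hdiv hC.le
    _ = _ := by
        congr 2
        ring

end Pool.Agent.H37.PPC
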