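import Pool.Agent.H37.PPC.Defs

/-!
PPC Ch: the real characters.

psi a m = (a/m) Jacobi for odd m, 0 for even m.
`psi_TW`: multiplicative (jacobiSym.mul_right', Odd mult), values; periodic mod M = 4|a| (jacobiSym.mod_right, M even so parity
 is preserved).  With b odd, J(a|b) = -1 (so gcd(a,b)=1 and gcd(b,M)=1): n ↦ b n permutes residues mod M, so the sum over a
 period Σ satisfies Σ = ψ(b) Σ = -Σ, Σ = 0; a sum over Icc 1 N is then a sum over < M consecutive terms, each ≤ 1 in absolute value.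
`ex_neg`: b = 4|a| - 1 ≡ 3 mod 4: J(-1|b) = -1 (jacobiSym.at_neg_one, ZMod.χ₄), 4|a| ≡ 1 mod b so
 1 = J(4|a| | b) = J(2|b)^2 J(|a| | b) = J(|a||b).
`ex_pos`: if T = {2}: b = 3.  Otherwise pick an odd l ∈ T; choose by CRT (Nat.chineseRemainder or a direct product) b ≡ 1 mod
 8·∏(T \ {l}), b ≡ r mod l with r a quadratic nonresidue mod l (l coprime to 8∏(T\{l}));
 J(2|b) = 1 (b ≡ 1 mod 8: jacobiSym.at_two, χ₈), for odd p ∈ T: J(p|b) = J(b|p) (b ≡ 1 mod 4: jacobiSym.quadratic_reciprocity_one_mod_four),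
 which is 1 for p ≠ l and -1 for p = l.
`jac_m3`: J(-3|q) = J(-1|q) J(3|q), and J(3|q) = (-1)^((q-1)/2) J(q|3) so J(-3|q) = J(q|3) = chi3 q.
`chi3_TW`: by residues mod 3.
-/

set_option autoImplicit false

namespace Pool.Agent.H37.PPC

open Finset

theorem Ch_psi_val (a : ℤ) (m : ℕ) : psi a m = 1 ∨ psi a m = 0 ∨ psi a m = -1 := by
  unfold psi
  split_ifs with h
  · rcases jacobiSym.trichotomy a m with h1 | h1 | h1
    · right; left; rw [h1]; norm_num
    · left; rw [h1]; norm_num
    · right; right; rw [h1]; norm_num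
  · right; left; rfl

theorem Ch_psi_abs (a : ℤ) (m : ℕ) : |psi a m| ≤ 1 := by
  rcases Ch_psi_val a m with h | h | h <;> rw [h] <;> norm_num

theorem Ch_psi_mul (a : ℤ) (m n : ℕ) : psi a (m * n) = psi a m * psi a n := by
  unfold psi
  by_cases hm : Odd m
  · by_cases hn : Odd n
    · rw [if_pos hm, if_pos hn, if_pos (hm.mul hn)]
      rw [jacobiSym.mul_right' a hm.pos.ne' hn.pos.ne']
      push_cast
      rfl
    · rw [if_pos hm, if_neg hn, if_neg (fun h => hn (Nat.odd_mul.mp h).2)]
      ring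
  · rw [if_neg hm, if_neg (fun h => hm (Nat.odd_mul.mp h).1)]
    ring

theorem Ch_psi_mod (a : ℤ) (m : ℕ) : psi a m = psi a (m % (4 * a.natAbs)) := by
  unfold psi
  have hpar : Odd (m % (4 * a.natAbs)) ↔ Odd m := by
    rw [Nat.odd_iff, Nat.odd_iff, Nat.mod_mod_of_dvd _ (⟨2 * a.natAbs, by ring⟩ : 2 ∣ 4 * a.natAbs)]
  by_cases hm : Odd m
  · rw [if_pos hm, if_pos (hpar.mpr hm), jacobiSym.mod_right a hm]
  · rw [if_neg hm, if_neg (fun h => hm (hpar.mp h))]

theorem Ch_psi_add (a : ℤ) (m : ℕ) : psi a (4 * a.natAbs + m) = psi a m := by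
  rw [Ch_psi_mod a (4 * a.natAbs + m), Ch_psi_mod a m, Nat.add_mod_left]

theorem Ch_period_sum (a : ℤ) (ha : a ≠ 0) (hb : ∃ b : ℕ, Odd b ∧ jacobiSym a b = -1) :
    ∑ n ∈ range (4 * a.natAbs), psi a n = 0 := by
  obtain ⟨b, hbo, hbj⟩ := hb
  have hM : 0 < 4 * a.natAbs := by
    have := Int.natAbs_pos.mpr ha
    omega
  have hgcd : a.gcd b = 1 := by
    by_contra hne
    have : NeZero b := ⟨hbo.pos.ne'⟩
    have h0 : jacobiSym a b = 0 := jacobiSym.eq_zero_iff_not_coprime.mpr hne
    rw [h0] at hbj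
    norm_num at hbj
  have hcop : Nat.Coprime b (4 * a.natAbs) := by
    have h1 : Nat.Coprime b a.natAbs := by
      have : Nat.gcd a.natAbs b = 1 := by
        rw [Int.gcd_def] at hgcd
        simpa using hgcd
      exact (Nat.Coprime.symm this)
    have h2 : Nat.Coprime b 4 := by
      have : Nat.Coprime b 2 := Nat.coprime_two_right.mpr hbo
      have h4 : Nat.Coprime b (2 ^ 2) := this.pow_right 2
      simpa using h4
    exact Nat.Coprime.mul_right h2 h1
  have hpb : psi a b = -1 := by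
    unfold psi
    rw [if_pos hbo, hbj]
    norm_num
  have key : ∑ n ∈ range (4 * a.natAbs), psi a n = ∑ n ∈ range (4 * a.natAbs), psi a (b * n) := by
    have h1 : ∀ n ∈ range (4 * a.natAbs), psi a (b * n) = psi a ((b * n) % (4 * a.natAbs)) :=
      fun n _ => Ch_psi_mod a (b * n)
    rw [Finset.sum_congr rfl h1]
    symm
    have hinj : Set.InjOn (fun n => (b * n) % (4 * a.natAbs)) (range (4 * a.natAbs) : Set ℕ) := by
      intro x hx y hy hxy
      have hx' : x < 4 * a.natAbs := by simpa using hx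
      have hy' : y < 4 * a.natAbs := by simpa using hy
      have h2 : b * x ≡ b * y [MOD (4 * a.natAbs)] := hxy
      have h3 : x ≡ y [MOD (4 * a.natAbs)] :=
        Nat.ModEq.cancel_left_of_coprime (Nat.Coprime.symm hcop) h2
      have h4 : x % (4 * a.natAbs) = y % (4 * a.natAbs) := h3
      rwa [Nat.mod_eq_of_lt hx', Nat.mod_eq_of_lt hy'] at h4
    have himg : (range (4 * a.natAbs)).image (fun n => (b * n) % (4 * a.natAbs))
        = range (4 * a.natAbs) := by
      apply Finset.eq_of_subset_of_card_le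
      · intro y hy
        obtain ⟨x, _, rfl⟩ := Finset.mem_image.mp hy
        exact Finset.mem_range.mpr (Nat.mod_lt _ hM)
      · rw [Finset.card_image_of_injOn hinj]
    calc ∑ n ∈ range (4 * a.natAbs), psi a ((b * n) % (4 * a.natAbs))
        = ∑ m ∈ (range (4 * a.natAbs)).image (fun n => (b * n) % (4 * a.natAbs)), psi a m :=
          (Finset.sum_image hinj).symm
      _ = ∑ n ∈ range (4 * a.natAbs), psi a n := by rw [himg]
  have h2 : ∑ n ∈ range (4 * a.natAbs), psi a (b * n)
      = - ∑ n ∈ range (4 * a.natAbs), psi a n := by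
    rw [← Finset.sum_neg_distrib]
    apply Finset.sum_congr rfl
    intro n _
    rw [Ch_psi_mul, hpb]
    ring
  linarith [key, h2]

theorem Ch_range_bd (a : ℤ) (ha : a ≠ 0) (hb : ∃ b : ℕ, Odd b ∧ jacobiSym a b = -1) (N : ℕ) :
    |∑ n ∈ range N, psi a n| ≤ ((4 * a.natAbs : ℕ) : ℝ) := by
  have hM : 0 < 4 * a.natAbs := by
    have := Int.natAbs_pos.mpr ha
    omega
  induction N using Nat.strong_induction_on with
  | _ N ih =>
    by_cases hN : N < 4 * a.natAbs
    · calc |∑ n ∈ range N, psi a n| ≤ ∑ n ∈ range N, |psi a n| := Finset.abs_sum_le_sum_abs _ _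
        _ ≤ ∑ _n ∈ range N, (1 : ℝ) := Finset.sum_le_sum (fun n _ => Ch_psi_abs a n)
        _ = (N : ℝ) := by simp
        _ ≤ ((4 * a.natAbs : ℕ) : ℝ) := by exact_mod_cast hN.le
    · push Not at hN
      obtain ⟨k, rfl⟩ := Nat.exists_eq_add_of_le hN
      rw [Finset.sum_range_add, Ch_period_sum a ha hb, zero_add]
      have h1 : ∑ x ∈ range k, psi a (4 * a.natAbs + x) = ∑ x ∈ range k, psi a x :=
        Finset.sum_congr rfl (fun x _ => Ch_psi_add a x)
      rw [h1]
      exact ih k (by omega)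

theorem Ch_Icc_range (f : ℕ → ℝ) (h0 : f 0 = 0) (N : ℕ) :
    ∑ n ∈ Icc 1 N, f n = ∑ n ∈ range (N + 1), f n := by
  induction N with
  | zero => simp [h0]
  | succ k ih =>
    rw [Finset.sum_range_succ, ← ih, Finset.sum_Icc_succ_top (by omega)]

theorem psi_TW (a : ℤ) (ha : a ≠ 0) (hb : ∃ b : ℕ, Odd b ∧ jacobiSym a b = -1) :
    TW (psi a) (4 * a.natAbs) where
  one := by
    unfold psi
    rw [if_pos (by decide), jacobiSym.one_right]
    norm_num
  mul := Ch_psi_mul a
  val := Ch_psi_val a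
  bd := by
    intro N
    rw [Ch_Icc_range (psi a) (by unfold psi; rw [if_neg (by decide)]) N]
    exact Ch_range_bd a ha hb (N + 1)

theorem ex_neg (a : ℤ) (ha : a < 0) : ∃ b : ℕ, Odd b ∧ jacobiSym a b = -1 := by
  obtain ⟨m, hm⟩ : ∃ m : ℕ, a = -((m : ℤ) + 1) := ⟨(-a - 1).toNat, by omega⟩
  have hodd : Odd (4 * m + 3) := ⟨2 * m + 1, by ring⟩
  refine ⟨4 * m + 3, hodd, ?_⟩
  have h1 : a = (-1) * ((m : ℤ) + 1) := by rw [hm]; ring
  have hm1 : jacobiSym (-1) (4 * m + 3) = -1 := by
    rw [jacobiSym.at_neg_one hodd]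
    exact ZMod.χ₄_nat_three_mod_four (by omega)
  have h4 : jacobiSym (4 * ((m : ℤ) + 1)) (4 * m + 3) = 1 := by
    have h5 : jacobiSym (4 * ((m : ℤ) + 1)) (4 * m + 3) = jacobiSym 1 (4 * m + 3) := by
      apply jacobiSym.mod_left'
      have h6 : (4 * ((m : ℤ) + 1)) = 1 + ((4 * m + 3 : ℕ) : ℤ) * 1 := by push_cast; ring
      rw [h6, Int.add_mul_emod_self_left]
    rw [h5, jacobiSym.one_left]
  have h2c : Int.gcd 2 ((4 * m + 3 : ℕ) : ℤ) = 1 := by
    have h9 : Nat.gcd 2 (4 * m + 3) = 1 := Nat.coprime_two_left.mpr hodd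
    exact h9
  have h44 : jacobiSym 4 (4 * m + 3) = 1 := by
    have := jacobiSym.sq_one' h2c
    have h6 : ((2 : ℤ) ^ 2) = 4 := by norm_num
    rwa [h6] at this
  have h7 : jacobiSym ((m : ℤ) + 1) (4 * m + 3) = 1 := by
    rw [jacobiSym.mul_left, h44, one_mul] at h4
    exact h4
  rw [h1, jacobiSym.mul_left, hm1, h7]
  norm_num

theorem Ch_prod_one (b : ℕ) (S : Finset ℕ) (h : ∀ p ∈ S, jacobiSym (p : ℤ) b = 1) :
    jacobiSym ((∏ p ∈ S, p : ℕ) : ℤ) b = 1 := by
  classical
  induction S using Finset.induction_on with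
  | empty => simp [jacobiSym.one_left]
  | insert x S hx ih =>
    rw [Finset.prod_insert hx, Nat.cast_mul, jacobiSym.mul_left,
      h x (Finset.mem_insert_self x S),
      ih (fun p hp => h p (Finset.mem_insert_of_mem hp))]
    norm_num

theorem ex_pos (T : Finset ℕ) (hT : T.Nonempty) (hp : ∀ p ∈ T, p.Prime) :
    ∃ b : ℕ, Odd b ∧ jacobiSym ((∏ p ∈ T, p : ℕ) : ℤ) b = -1 := by
  classical
  by_cases hodd : ∃ l ∈ T, l ≠ 2
  · obtain ⟨l, hlT, hl2⟩ := hodd
    have hl : l.Prime := hp l hlT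
    have hlo : Odd l := hl.odd_of_ne_two hl2
    set P : ℕ := ∏ p ∈ T.erase l, p with hP
    -- a nonresidue mod l
    have : Fact l.Prime := ⟨hl⟩
    obtain ⟨r, hr⟩ : ∃ r : ZMod l, ¬ IsSquare r := by
      apply FiniteField.exists_nonsquare
      rw [ZMod.ringChar_zmod_n]
      exact hl2
    have hcop : Nat.Coprime (8 * P) l := by
      apply Nat.Coprime.mul_left
      · have : Nat.Coprime 2 l := Nat.coprime_two_left.mpr hlo
        have h8 : Nat.Coprime (2 ^ 3) l := this.pow_left 3
        simpa using h8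
      · rw [hP]
        apply Nat.Coprime.prod_left
        intro p hpT
        have hpT' := Finset.mem_erase.mp hpT
        exact (Nat.coprime_primes (hp p hpT'.2) hl).mpr hpT'.1
    obtain ⟨b, hb1, hb2⟩ := Nat.chineseRemainder hcop 1 r.val
    have hb8 : b % 8 = 1 := by
      have : b ≡ 1 [MOD 8] := hb1.of_mul_right P
      exact this
    have hbo : Odd b := Nat.odd_iff.mpr (by omega)
    have hb4 : b % 4 = 1 := by omega
    refine ⟨b, hbo, ?_⟩
    have hother : jacobiSym ((∏ p ∈ T.erase l, p : ℕ) : ℤ) b = 1 := by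
      apply Ch_prod_one
      intro p hpT
      have hpT' := Finset.mem_erase.mp hpT
      have hpp : p.Prime := hp p hpT'.2
      by_cases h2 : p = 2
      · subst h2
        have h3 := jacobiSym.at_two hbo
        have h4 : (ZMod.χ₈ (b : ZMod 8)) = 1 := by
          rw [ZMod.χ₈_nat_mod_eight, hb8]
          decide
        rw [h4] at h3
        exact_mod_cast h3
      · have hpo : Odd p := hpp.odd_of_ne_two h2
        rw [jacobiSym.quadratic_reciprocity_one_mod_four' hpo hb4]
        have hbp : b ≡ 1 [MOD p] := by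
          have h5 : P ∣ 8 * P := Dvd.intro_left 8 rfl
          have h6 : p ∣ P := by rw [hP]; exact Finset.dvd_prod_of_mem _ hpT
          exact hb1.of_dvd (h6.trans h5)
        have : jacobiSym (b : ℤ) p = jacobiSym 1 p := by
          apply jacobiSym.mod_left'
          have h7 : ((b % p : ℕ) : ℤ) = ((1 % p : ℕ) : ℤ) := by
            have : b % p = 1 % p := hbp
            rw [this]
          push_cast at h7
          exact h7
        rw [this, jacobiSym.one_left]
    have hlb : jacobiSym (l : ℤ) b = -1 := by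
      rw [jacobiSym.quadratic_reciprocity_one_mod_four' hlo hb4]
      rw [← jacobiSym.legendreSym.to_jacobiSym]
      rw [legendreSym.eq_neg_one_iff']
      have h8 : ((b : ℕ) : ZMod l) = r := by
        have h9 : ((b : ℕ) : ZMod l) = ((r.val : ℕ) : ZMod l) :=
          (ZMod.natCast_eq_natCast_iff _ _ _).mpr hb2
        rw [h9]
        exact ZMod.natCast_zmod_val r
      rw [h8]
      exact hr
    have hprod : (∏ p ∈ T, p : ℕ) = l * ∏ p ∈ T.erase l, p :=
      (Finset.mul_prod_erase T (fun p => p) hlT).symm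
    rw [hprod, Nat.cast_mul, jacobiSym.mul_left, hlb, hother]
    norm_num
  · push Not at hodd
    have hT2 : T = {2} := by
      apply Finset.eq_singleton_iff_unique_mem.mpr
      obtain ⟨x, hx⟩ := hT
      refine ⟨?_, hodd⟩
      rw [← hodd x hx]
      exact hx
    refine ⟨3, by decide, ?_⟩
    rw [hT2, Finset.prod_singleton]
    have : jacobiSym ((2 : ℕ) : ℤ) 3 = -1 := by
      norm_num
    exact this

theorem jac_m3 (q : ℕ) (hq : q.Prime) (hq3 : 3 < q) : (jacobiSym (-3) q : ℝ) = chi3 q := by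
  have hqo : Odd q := hq.odd_of_ne_two (by omega)
  have h3 : q % 3 = 1 ∨ q % 3 = 2 := by
    have h4 : ¬ (3 ∣ q) := by
      intro h
      rcases (Nat.dvd_prime hq).mp h with h5 | h5 <;> omega
    omega
  have hq3' : jacobiSym (q : ℤ) 3 = if q % 3 = 1 then 1 else -1 := by
    have h5 : jacobiSym (q : ℤ) 3 = jacobiSym ((q % 3 : ℕ) : ℤ) 3 := by
      apply jacobiSym.mod_left'
      push_cast
      rw [Int.emod_emod_of_dvd _ (dvd_refl _)]
    rw [h5]
    rcases h3 with h6 | h6
    · rw [h6, if_pos rfl]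
      norm_num
    · rw [h6, if_neg (by norm_num)]
      norm_num
  have key : jacobiSym (-3) q = jacobiSym (q : ℤ) 3 := by
    have h7 : jacobiSym (-3) q = jacobiSym (-1) q * jacobiSym ((3 : ℕ) : ℤ) q := by
      rw [← jacobiSym.mul_left]
      norm_num
    rw [h7]
    rcases (show q % 4 = 1 ∨ q % 4 = 3 by
      have := Nat.odd_iff.mp hqo
      omega) with h8 | h8
    · rw [jacobiSym.at_neg_one hqo, ZMod.χ₄_nat_one_mod_four h8,
        jacobiSym.quadratic_reciprocity_one_mod_four' (by decide) h8]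
      norm_num
    · rw [jacobiSym.at_neg_one hqo, ZMod.χ₄_nat_three_mod_four h8,
        jacobiSym.quadratic_reciprocity_three_mod_four (by decide) h8]
      norm_num
  rw [key, hq3']
  unfold chi3
  rcases h3 with h6 | h6
  · rw [if_pos h6, if_pos h6]
    norm_num
  · rw [if_neg (by omega), if_neg (by omega), if_pos h6]
    norm_num

theorem Ch_chi3_sum (N : ℕ) : ∑ n ∈ Icc 1 N, chi3 n = if N % 3 = 1 then 1 else 0 := by
  induction N with
  | zero => simp
  | succ k ih =>
    rw [Finset.sum_Icc_succ_top (by omega), ih]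
    unfold chi3
    have h3 : k % 3 = 0 ∨ k % 3 = 1 ∨ k % 3 = 2 := by omega
    rcases h3 with h | h | h
    · have h1 : (k + 1) % 3 = 1 := by omega
      rw [h, h1]
      norm_num
    · have h1 : (k + 1) % 3 = 2 := by omega
      rw [h, h1]
      norm_num
    · have h1 : (k + 1) % 3 = 0 := by omega
      rw [h, h1]
      norm_num

theorem chi3_TW : TW chi3 3 where
  one := by
    unfold chi3
    norm_num
  mul := by
    intro a b
    unfold chi3
    rw [Nat.mul_mod]
    have ha : a % 3 = 0 ∨ a % 3 = 1 ∨ a % 3 = 2 := by omega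
    have hb : b % 3 = 0 ∨ b % 3 = 1 ∨ b % 3 = 2 := by omega
    rcases ha with h | h | h <;> rcases hb with h' | h' | h' <;> rw [h, h'] <;> norm_num
  val := by
    intro n
    unfold chi3
    split_ifs
    · left; rfl
    · right; right; rfl
    · right; left; rfl
  bd := by
    intro N
    rw [Ch_chi3_sum]
    split_ifs <;> norm_num

end Pool.Agent.H37.PPC
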