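import Pool.Agent.H37.PPC.Fin

/-!
PPC Top: the counting theorem.
-/

set_option autoImplicit false

namespace Pool.Agent.H37.PPC

open Finset

theorem exists_root (t x : ℕ) (ht : 1 ≤ t) (hx : 2 ^ t ≤ x) :
    ∃ y : ℕ, 2 ≤ y ∧ y ^ t ≤ x ∧ x < (y + 1) ^ t := by
  classical
  refine ⟨Nat.findGreatest (fun y => y ^ t ≤ x) x, ?_, ?_, ?_⟩
  · have h2x : 2 ≤ x := by
      calc 2 = 2 ^ 1 := by norm_num
        _ ≤ 2 ^ t := Nat.pow_le_pow_right (by norm_num) ht
        _ ≤ x := hx
    exact Nat.le_findGreatest (P := fun y => y ^ t ≤ x) h2x hx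
  · have h : 0 ^ t ≤ x := by rw [zero_pow (by omega)]; exact Nat.zero_le _
    exact Nat.findGreatest_spec (P := fun y => y ^ t ≤ x) (Nat.zero_le x) h
  · by_contra hcon
    push Not at hcon
    have h1 : Nat.findGreatest (fun y => y ^ t ≤ x) x + 1 ≤ x :=
      (Nat.le_self_pow (by omega) _).trans hcon
    have h2 := Nat.le_findGreatest (P := fun y => y ^ t ≤ x) h1 hcon
    omega

/-- the number of squares -/
theorem card_squares (x : ℕ) (S : Finset ℕ) (hS : ∀ n ∈ S, 1 ≤ n ∧ n ≤ x ∧ IsSquare n) :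
    S.card ≤ Nat.sqrt x := by
  have h : S ⊆ (Icc 1 (Nat.sqrt x)).image (fun m => m * m) := by
    intro n hn
    obtain ⟨h1, h2, m, rfl⟩ := hS n hn
    rw [mem_image]
    refine ⟨m, mem_Icc.2 ⟨?_, ?_⟩, rfl⟩
    · by_contra hm
      have : m = 0 := by omega
      subst this
      omega
    · exact Nat.le_sqrt.2 h2
  calc S.card ≤ _ := card_le_card h
    _ ≤ (Icc 1 (Nat.sqrt x)).card := card_image_le
    _ = Nat.sqrt x := by rw [Nat.card_Icc]; omega

theorem loglog_16 {x : ℕ} (hx : 16 ≤ x) : 1 ≤ Real.log (Real.log x) := by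
  have h1 : Real.log 16 ≤ Real.log x := Real.log_le_log (by norm_num) (by exact_mod_cast hx)
  have h2 : Real.log 16 = 4 * Real.log 2 := by
    rw [show (16 : ℝ) = 2 ^ 4 by norm_num, Real.log_pow]; norm_num
  have h3 := Real.log_two_gt_d9
  have h4 : Real.exp 1 ≤ Real.log x := by
    have := Real.exp_one_lt_d9
    rw [h2] at h1
    linarith
  calc (1 : ℝ) = Real.log (Real.exp 1) := (Real.log_exp 1).symm
    _ ≤ _ := Real.log_le_log (Real.exp_pos 1) h4

open Classical in
theorem main : ∃ C : ℝ, 0 < C ∧ ∀ x : ℕ, 16 ≤ x →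
    (((Icc 2 x).filter (fun n => IsOrder n)).card : ℝ)
      ≤ C * x * Real.log (Real.log x) ^ C / Real.log x := by
  obtain ⟨K, hK, s, hs, h⟩ := count_main
  -- K ≤ 2^b
  obtain ⟨b, hb⟩ : ∃ b : ℕ, K ≤ 2 ^ b := by
    obtain ⟨b, hb⟩ := pow_unbounded_of_one_lt K (show (1 : ℝ) < 2 by norm_num)
    exact ⟨b, hb.le⟩
  set t : ℕ := s + 2 with ht
  set A : ℝ := 2 ^ t * (t + 1) + 2 + 2 ^ b * 4 ^ b * 8 * (2 * t) with hA
  have hA0 : 0 < A := by positivity
  refine ⟨A + b + 1, by positivity, ?_⟩
  intro x hx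
  have hx0 : (0 : ℝ) < x := by exact_mod_cast (by omega : 0 < x)
  have hL := loglog_16 hx
  set L : ℝ := Real.log (Real.log x) with hLdef
  have hlx : 0 < Real.log x := Real.log_pos (by exact_mod_cast (by omega : 1 < x))
  have hLpow : L ^ (b + 1) ≤ L ^ (A + b + 1 : ℝ) := by
    rw [← Real.rpow_natCast]
    apply Real.rpow_le_rpow_of_exponent_le hL
    push_cast
    linarith
  have hL1 : (1 : ℝ) ≤ L ^ (b + 1) := one_le_pow₀ hL
  -- it suffices to prove the bound with A and natural power
  suffices hmain : (((Icc 2 x).filter (fun n => IsOrder n)).card : ℝ)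
      ≤ A * L ^ (b + 1) * (x / Real.log x) by
    have hxl : 0 ≤ (x : ℝ) / Real.log x := by positivity
    calc (((Icc 2 x).filter (fun n => IsOrder n)).card : ℝ) ≤ A * L ^ (b + 1) * (x / Real.log x) :=
          hmain
      _ ≤ (A + b + 1) * L ^ (A + b + 1 : ℝ) * (x / Real.log x) := by
          apply mul_le_mul_of_nonneg_right _ hxl
          apply mul_le_mul _ hLpow (by positivity) (by positivity)
          have : (0 : ℝ) ≤ b := by positivity
          linarith
      _ = _ := by ring
  have hcard_x : (((Icc 2 x).filter (fun n => IsOrder n)).card : ℝ) ≤ x := by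
    have : ((Icc 2 x).filter (fun n => IsOrder n)).card ≤ x := by
      calc _ ≤ (Icc 2 x).card := card_filter_le _ _
        _ ≤ x := by rw [Nat.card_Icc]; omega
    exact_mod_cast this
  by_cases hxt : x < 2 ^ t
  · -- small x
    have h1 : Real.log x ≤ t := by
      have h2 : Real.log x ≤ Real.log (2 ^ t) := Real.log_le_log hx0 (by exact_mod_cast hxt.le)
      rw [Real.log_pow] at h2
      have h3 := Real.log_two_lt_d9
      have h4 : (0 : ℝ) ≤ t := by positivity
      nlinarith
    have h2 : (t : ℝ) ≤ A := by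
      have h3 : (1 : ℝ) ≤ 2 ^ t := one_le_pow₀ (by norm_num)
      have h4 : (t : ℝ) + 1 ≤ 2 ^ t * (t + 1) := by nlinarith [(by positivity : (0 : ℝ) ≤ t)]
      have h5 : (0 : ℝ) ≤ 2 ^ b * 4 ^ b * 8 * (2 * t) := by positivity
      rw [hA]
      linarith
    refine hcard_x.trans ?_
    have h5 : (x : ℝ) = Real.log x * (x / Real.log x) := by field_simp
    have h6 : Real.log x ≤ A * L ^ (b + 1) := by
      calc Real.log x ≤ A * 1 := by linarith
        _ ≤ A * L ^ (b + 1) := mul_le_mul_of_nonneg_left hL1 hA0.le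
    calc (x : ℝ) = Real.log x * (x / Real.log x) := h5
      _ ≤ A * L ^ (b + 1) * (x / Real.log x) := mul_le_mul_of_nonneg_right h6 (by positivity)
  · push Not at hxt
    obtain ⟨y, hy, hyx, hxy⟩ := exists_root t x (by omega) hxt
    have hy1 : (1 : ℝ) < y := by exact_mod_cast (by omega : 1 < y)
    have hly : 0 < Real.log y := Real.log_pos hy1
    -- log x ≤ 2 t log y
    have hlxy : Real.log x ≤ 2 * t * Real.log y := by
      have h1 : (x : ℝ) ≤ (y ^ 2) ^ t := by
        have : x ≤ (y ^ 2) ^ t := hxy.le.trans (Nat.pow_le_pow_left (by nlinarith) t)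
        exact_mod_cast this
      have h2 := Real.log_le_log hx0 h1
      rw [Real.log_pow, Real.log_pow] at h2
      push_cast at h2
      linarith
    have hyx' : y ≤ x := (Nat.le_self_pow (by omega) y).trans hyx
    -- choice of J
    obtain ⟨J, hJ1, hJ2⟩ : ∃ J : ℕ, L ≤ 2 ^ (J + 1) ∧ (2 : ℝ) ^ (J + 1) ≤ 4 * L := by
      have hex : ∃ J : ℕ, L ≤ 2 ^ (J + 1) := by
        obtain ⟨m, hm⟩ := pow_unbounded_of_one_lt L (show (1 : ℝ) < 2 by norm_num)
        refine ⟨m, hm.le.trans ?_⟩
        exact pow_le_pow_right₀ (by norm_num) (by omega)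
      refine ⟨Nat.find hex, Nat.find_spec hex, ?_⟩
      rcases Nat.eq_zero_or_pos (Nat.find hex) with h0 | h0
      · rw [h0]; norm_num; linarith
      · have := Nat.find_min hex (m := Nat.find hex - 1) (by omega)
        push Not at this
        have e : Nat.find hex - 1 + 1 = Nat.find hex := by omega
        rw [e] at this
        rw [pow_succ]
        linarith
    set G := (Icc 2 x).filter (fun n => IsOrder n ∧ ¬ IsSquare n) with hG
    have hcnt := h x y J hy hyx ?_ G ?_
    · -- split off the squares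
      have hsplit : ((Icc 2 x).filter (fun n => IsOrder n)).card
          ≤ ((Icc 2 x).filter (fun n => IsSquare n)).card + G.card := by
        rw [← card_union_of_disjoint]
        · apply card_le_card
          intro n hn
          rw [mem_filter] at hn
          rw [mem_union, mem_filter, hG, mem_filter]
          by_cases hsq : IsSquare n
          · exact Or.inl ⟨hn.1, hsq⟩
          · exact Or.inr ⟨hn.1, hn.2, hsq⟩
        · rw [disjoint_left]
          intro n hn hn'
          rw [mem_filter] at hn hn'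
          exact hn'.2.2 hn.2
      have hsqc := card_squares x ((Icc 2 x).filter (fun n => IsSquare n)) (fun n hn => by
        rw [mem_filter, mem_Icc] at hn
        exact ⟨by omega, hn.1.2, hn.2⟩)
      have hsqr : (Nat.sqrt x : ℝ) ≤ 2 * (x / Real.log x) := by
        have h1 : (Nat.sqrt x : ℝ) ≤ Real.sqrt x := Real.nat_sqrt_le_real_sqrt
        have h2 : Real.log x ≤ 2 * Real.sqrt x := by
          have h3 : Real.log (Real.sqrt x) ≤ Real.sqrt x - 1 :=
            Real.log_le_sub_one_of_pos (Real.sqrt_pos.2 hx0)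
          rw [Real.log_sqrt hx0.le] at h3
          linarith
        have h4 : Real.sqrt x * Real.log x ≤ 2 * x := by
          have h5 := Real.mul_self_sqrt hx0.le
          have h6 : 0 ≤ Real.sqrt x := Real.sqrt_nonneg _
          nlinarith
        calc (Nat.sqrt x : ℝ) ≤ Real.sqrt x := h1
          _ ≤ 2 * (x / Real.log x) := by
            rw [← mul_div_assoc, le_div_iff₀ hlx]
            exact h4
      have h1 : (((Icc 2 x).filter (fun n => IsOrder n)).card : ℝ) ≤ Nat.sqrt x + G.card := by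
        have : ((Icc 2 x).filter (fun n => IsOrder n)).card ≤ Nat.sqrt x + G.card := by omega
        exact_mod_cast this
      -- bound the main factor
      have hKpow : K ^ (J + 1) ≤ (4 * L) ^ b := by
        calc K ^ (J + 1) ≤ (2 ^ b) ^ (J + 1) := pow_le_pow_left₀ (by linarith) hb _
          _ = (2 ^ (J + 1)) ^ b := by rw [← pow_mul, ← pow_mul, mul_comm]
          _ ≤ (4 * L) ^ b := pow_le_pow_left₀ (by positivity) hJ2 _
      have hJle : ((J : ℝ) + 1) ≤ 2 ^ (J + 1) := by
        have : J + 1 < 2 ^ (J + 1) := Nat.lt_two_pow_self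
        exact_mod_cast this.le
      have hfac : K * K ^ (J + 1) * (J + 1 + 2 ^ (J + 1)) ≤ 2 ^ b * 4 ^ b * 8 * L ^ (b + 1) := by
        have h2 : (J : ℝ) + 1 + 2 ^ (J + 1) ≤ 8 * L := by linarith
        calc K * K ^ (J + 1) * (J + 1 + 2 ^ (J + 1)) ≤ 2 ^ b * (4 * L) ^ b * (8 * L) := by
              apply mul_le_mul _ h2 (by positivity) (by positivity)
              exact mul_le_mul hb hKpow (by positivity) (by positivity)
          _ = 2 ^ b * 4 ^ b * 8 * L ^ (b + 1) := by rw [mul_pow]; ring
      have hxy2 : (x : ℝ) / Real.log y ≤ 2 * t * (x / Real.log x) := by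
        rw [← mul_div_assoc, div_le_div_iff₀ hly hlx]
        nlinarith
      have h3 : (G.card : ℝ) ≤ 2 ^ b * 4 ^ b * 8 * (2 * t) * L ^ (b + 1) * (x / Real.log x) := by
        calc (G.card : ℝ) ≤ _ := hcnt
          _ ≤ (2 ^ b * 4 ^ b * 8 * L ^ (b + 1)) * (2 * t * (x / Real.log x)) := by
              apply mul_le_mul hfac hxy2 (by positivity) (by positivity)
          _ = _ := by ring
      have h4 : (0 : ℝ) ≤ x / Real.log x := by positivity
      have h5 : 2 * ((x : ℝ) / Real.log x) ≤ 2 * L ^ (b + 1) * (x / Real.log x) := by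
        apply mul_le_mul_of_nonneg_right _ h4
        linarith
      have h6 : (0 : ℝ) ≤ 2 ^ t * (t + 1) * L ^ (b + 1) * (x / Real.log x) := by positivity
      calc _ ≤ _ := h1
        _ ≤ 2 * L ^ (b + 1) * (x / Real.log x)
            + 2 ^ b * 4 ^ b * 8 * (2 * t) * L ^ (b + 1) * (x / Real.log x) := by linarith
        _ ≤ A * L ^ (b + 1) * (x / Real.log x) := by
            rw [hA]
            linarith
    · -- loglog y ≤ 2^(J+1)
      exact (loglog_mono hy hyx').trans hJ1
    · intro n hn
      rw [hG, mem_filter, mem_Icc] at hn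
      exact ⟨by omega, hn.1.2, hn.1.1, hn.2.1, hn.2.2⟩

end Pool.Agent.H37.PPC
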