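import Pool.Agent.H37.PPC.Defs

/-!
PPC A1: every prime divisor `p` of the order is a multiplier (Hall).

Sketch.  v = n^2+n+1, E(r) = #{(d,d') ∈ D × D : p d - d' = r}.
(1) E(r) ≡ 1 mod p.  In the commutative ring R = AddMonoidAlgebra (ZMod p) (ZMod v) (char p) put
 x = ∑_{d∈D} [d], x' = ∑_{d∈D} [-d], G = ∑_{g} [g].  x^p = ∑_{d∈D} [p d] (Frobenius: sum_pow_char / add_pow_char),
 x * x' = n*1 + G = G  (difference property, p | n, |D| = n+1: coefficient of 0 is n+1, of r ≠ 0 is 1),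
 x * G = |D| G = G, so x^p * x' = x^(p-1) * (x * x') = x^(p-1) G = G.  The coefficient of x^p * x' at r is E(r) mod p.
 So E(r) ≥ 1 for all r.
(2) ∑_r E(r) = (n+1)^2, and ∑_r E(r)^2 = #{(a,b,c,d) ∈ D^4 : p a - b = p c - d, i.e. p (a - c) = b - d}
 = #{a=c, b=d} + #{a ≠ c, ...}: p is a unit mod v (gcd(p, n^2+n+1) = 1), so for each ordered pair a ≠ c the nonzero
 p(a-c) is b - d for exactly one pair: ∑ E^2 = (n+1)^2 + (n+1) n.
 With e = E - 1 ≥ 0 (integers): ∑ e = (n+1)^2 - v = n, ∑ e^2 = ∑E^2 - 2∑E + v = n^2.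
 So (∑ e)^2 = ∑ e^2 with e ≥ 0 : at most one e(r) is non-zero, so some r0 has e(r0) = n (if n = 0 trivial: n ≥ p ≥ 2
 as p | n unless n = 0; for n = 0 the group is trivial), i.e. E(r0) = n+1.
(3) E(r0) = n+1 = |D| means every d ∈ D has p d - r0 ∈ D, and d ↦ p d - r0 is injective, so p D = D + r0.
 -/

set_option autoImplicit false

namespace Pool.Agent.H37.PPC

open Finset

private theorem A1_coeff {ι G : Type} [DecidableEq G] (k : Type) [CommRing k] (S : Finset ι) (f : ι → G)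
    (r : G) :
    (∑ i ∈ S, (AddMonoidAlgebra.single (f i) (1 : k) : AddMonoidAlgebra k G)).coeff r
      = ((S.filter (fun i => f i = r)).card : k) := by
  rw [AddMonoidAlgebra.coeff_sum, Finsupp.finsetSum_apply]
  simp only [AddMonoidAlgebra.coeff_single, Finsupp.single_apply]
  rw [Finset.sum_boole]

private theorem A1_mod (v : ℕ) [NeZero v] (n : ℕ) (D : Finset (ZMod v)) (hcard : D.card = n + 1)
    (hD : ∀ r : ZMod v, r ≠ 0 →
      ((D ×ˢ D).filter (fun p => p.1 - p.2 = r)).card = 1)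
    (p : ℕ) (hp : p.Prime) (hpn : p ∣ n) (r : ZMod v) :
    ((((D ×ˢ D).filter (fun q => (p : ZMod v) * q.1 - q.2 = r)).card : ℕ) : ZMod p) = 1 := by
  classical
  have : Fact p.Prime := ⟨hp⟩
  let R := AddMonoidAlgebra (ZMod p) (ZMod v)
  have : CharP R p := charP_of_injective_algebraMap (algebraMap (ZMod p) R).injective p
  let X : R := ∑ d ∈ D, AddMonoidAlgebra.single d (1 : ZMod p)
  let X' : R := ∑ d ∈ D, AddMonoidAlgebra.single (-d) (1 : ZMod p)
  let G : R := ∑ g : ZMod v, AddMonoidAlgebra.single g (1 : ZMod p)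
  have hn0 : (n : ZMod p) = 0 := (ZMod.natCast_eq_zero_iff n p).2 hpn
  have hnR : (n : R) = 0 := (CharP.cast_eq_zero_iff R p n).2 hpn
  have hXG : X * G = G := by
    have h1 : ∀ d : ZMod v, (AddMonoidAlgebra.single d (1 : ZMod p) : R) * G = G := by
      intro d
      show (AddMonoidAlgebra.single d (1 : ZMod p) : R) * ∑ g : ZMod v, AddMonoidAlgebra.single g (1 : ZMod p)
        = ∑ g : ZMod v, AddMonoidAlgebra.single g (1 : ZMod p)
      rw [Finset.mul_sum]
      rw [← Equiv.sum_comp (Equiv.addLeft d) (fun g => (AddMonoidAlgebra.single g (1 : ZMod p) : R))]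
      refine Finset.sum_congr rfl fun g _ => ?_
      rw [AddMonoidAlgebra.single_mul_single, mul_one]
      rfl
    show (∑ d ∈ D, (AddMonoidAlgebra.single d (1 : ZMod p) : R)) * G = G
    rw [Finset.sum_mul, Finset.sum_congr rfl (fun d _ => h1 d), Finset.sum_const, hcard, nsmul_eq_mul]
    push_cast
    rw [hnR]
    ring
  have hXX : X * X' = G := by
    have h1 : X * X' = ∑ q ∈ D ×ˢ D, (AddMonoidAlgebra.single (q.1 - q.2) (1 : ZMod p) : R) := by
      show (∑ d ∈ D, (AddMonoidAlgebra.single d (1 : ZMod p) : R)) *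
        (∑ d ∈ D, (AddMonoidAlgebra.single (-d) (1 : ZMod p) : R)) = _
      rw [Finset.sum_mul_sum, Finset.sum_product]
      refine Finset.sum_congr rfl fun a _ => Finset.sum_congr rfl fun b _ => ?_
      rw [AddMonoidAlgebra.single_mul_single, mul_one, sub_eq_add_neg]
    rw [h1]
    refine AddMonoidAlgebra.ext (Finsupp.ext fun g => ?_)
    have h2 := A1_coeff (ZMod p) (D ×ˢ D) (fun q : ZMod v × ZMod v => q.1 - q.2) g
    have h3 := A1_coeff (ZMod p) (Finset.univ : Finset (ZMod v)) (fun q : ZMod v => q) g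
    refine Eq.trans h2 (Eq.trans ?_ h3.symm)
    have h4 : ((Finset.univ : Finset (ZMod v)).filter (fun i => i = g)).card = 1 := by
      rw [Finset.filter_eq' _ g]
      simp
    rw [h4]
    by_cases hg : g = 0
    · subst hg
      have h5 : ((D ×ˢ D).filter (fun p => p.1 - p.2 = 0)).card = n + 1 := by
        rw [← hcard]
        refine (Finset.card_bij (fun a _ => (a, a)) ?_ ?_ ?_).symm
        · intro a ha
          simp [ha]
        · intro a _ b _ hab
          exact (Prod.mk.inj hab).1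
        · rintro ⟨a, b⟩ hab
          simp only [mem_filter, mem_product, sub_eq_zero] at hab
          exact ⟨a, hab.1.1, by rw [hab.2]⟩
      rw [h5]
      push_cast
      rw [hn0]
      ring
    · rw [hD g hg]
  have hpow : ∀ k : ℕ, X ^ k * G = G := by
    intro k
    induction k with
    | zero => rw [pow_zero, one_mul]
    | succ k ih => rw [pow_succ, mul_assoc, hXG, ih]
  have hp1 : X ^ p * X' = G := by
    have hm : X ^ p = X ^ (p - 1) * X := by
      rw [← pow_succ, Nat.sub_add_cancel hp.one_lt.le]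
    rw [hm, mul_assoc, hXX, hpow]
  have hfr : X ^ p = ∑ d ∈ D, (AddMonoidAlgebra.single ((p : ZMod v) * d) (1 : ZMod p) : R) := by
    show (∑ d ∈ D, (AddMonoidAlgebra.single d (1 : ZMod p) : R)) ^ p = _
    rw [sum_pow_char]
    refine Finset.sum_congr rfl fun d _ => ?_
    rw [AddMonoidAlgebra.single_pow, one_pow, nsmul_eq_mul]
  have h6 : ∑ q ∈ D ×ˢ D, (AddMonoidAlgebra.single ((p : ZMod v) * q.1 - q.2) (1 : ZMod p) : R) = G := by
    rw [← hp1, hfr]
    show _ = (∑ d ∈ D, (AddMonoidAlgebra.single ((p : ZMod v) * d) (1 : ZMod p) : R)) *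
        (∑ d ∈ D, (AddMonoidAlgebra.single (-d) (1 : ZMod p) : R))
    rw [Finset.sum_mul_sum, Finset.sum_product]
    refine Finset.sum_congr rfl fun a _ => Finset.sum_congr rfl fun b _ => ?_
    rw [AddMonoidAlgebra.single_mul_single, mul_one, sub_eq_add_neg]
  have h2 := A1_coeff (ZMod p) (D ×ˢ D) (fun q : ZMod v × ZMod v => (p : ZMod v) * q.1 - q.2) r
  have h3 := A1_coeff (ZMod p) (Finset.univ : Finset (ZMod v)) (fun q : ZMod v => q) r
  have h4 : ((Finset.univ : Finset (ZMod v)).filter (fun i => i = r)).card = 1 := by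
    rw [Finset.filter_eq' _ r]
    simp
  rw [h4] at h3
  have h7 : (∑ q ∈ D ×ˢ D, (AddMonoidAlgebra.single ((p : ZMod v) * q.1 - q.2) (1 : ZMod p) : R)).coeff r
      = G.coeff r := congrArg (fun F : R => F.coeff r) h6
  refine h2.symm.trans (h7.trans (h3.trans ?_))
  simp

theorem multiplier (n : ℕ) (D : Finset (ZMod (n ^ 2 + n + 1))) (hcard : D.card = n + 1)
    (hD : ∀ r : ZMod (n ^ 2 + n + 1), r ≠ 0 →
      ((D ×ˢ D).filter (fun p => p.1 - p.2 = r)).card = 1)
    (p : ℕ) (hp : p.Prime) (hpn : p ∣ n) :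
    ∃ r0 : ZMod (n ^ 2 + n + 1),
      D.image (fun d => (p : ZMod (n ^ 2 + n + 1)) * d) = D.image (fun d => d + r0) := by
  classical
  rcases Nat.eq_zero_or_pos n with hn | hn
  · subst hn
    refine ⟨0, ?_⟩
    congr 1
    funext d
    exact Subsingleton.elim (α := ZMod 1) _ _
  set E : ZMod (n ^ 2 + n + 1) → ℕ := fun r =>
    ((D ×ˢ D).filter (fun q => (p : ZMod (n ^ 2 + n + 1)) * q.1 - q.2 = r)).card with hE
  have hE1 : ∀ r, 1 ≤ E r := by
    intro r
    have h := A1_mod (n ^ 2 + n + 1) n D hcard hD p hp hpn r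
    have : Fact p.Prime := ⟨hp⟩
    by_contra hc
    have h0 : E r = 0 := by omega
    have h1 : ((D ×ˢ D).filter (fun q => (p : ZMod (n ^ 2 + n + 1)) * q.1 - q.2 = r)).card = 0 := h0
    rw [h1] at h
    simp at h
  have hcop : Nat.Coprime p (n ^ 2 + n + 1) := by
    have h1 : p ∣ n ^ 2 + n := Dvd.dvd.add (dvd_pow hpn (by norm_num)) hpn
    rw [hp.coprime_iff_not_dvd]
    intro h2
    have h3 : p ∣ 1 := (Nat.dvd_add_right h1).1 h2
    exact hp.one_lt.ne' (Nat.dvd_one.1 h3)
  have hunit : IsUnit (p : ZMod (n ^ 2 + n + 1)) := (ZMod.isUnit_iff_coprime _ _).2 hcop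
  have hsum : ∑ r, E r = (n + 1) ^ 2 := by
    have h1 : (D ×ˢ D).card = ∑ r, E r :=
      Finset.card_eq_sum_card_fiberwise (f := fun q : ZMod (n ^ 2 + n + 1) × ZMod (n ^ 2 + n + 1) =>
        (p : ZMod (n ^ 2 + n + 1)) * q.1 - q.2) (fun _ _ => Finset.mem_coe.2 (Finset.mem_univ _))
    rw [← h1, card_product, hcard, sq]
  have hN0 : ((D ×ˢ D).filter (fun p => p.1 - p.2 = 0)).card = n + 1 := by
    rw [← hcard]
    refine (Finset.card_bij (fun a _ => (a, a)) ?_ ?_ ?_).symm
    · intro a ha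
      simp [ha]
    · intro a _ b _ hab
      exact (Prod.mk.inj hab).1
    · rintro ⟨a, b⟩ hab
      simp only [mem_filter, mem_product, sub_eq_zero] at hab
      exact ⟨a, hab.1.1, by rw [hab.2]⟩
  have hsq : ∑ r, (E r) ^ 2 = (n + 1) ^ 2 + (n + 1) * n := by
    have h1 : ∀ r, (E r) ^ 2 = ∑ q ∈ D ×ˢ D, ∑ q' ∈ D ×ˢ D,
        (if (p : ZMod (n ^ 2 + n + 1)) * q.1 - q.2 = r ∧ (p : ZMod (n ^ 2 + n + 1)) * q'.1 - q'.2 = r
          then 1 else 0) := by
      intro r
      have h2 : E r = ∑ q ∈ D ×ˢ D, (if (p : ZMod (n ^ 2 + n + 1)) * q.1 - q.2 = r then 1 else 0) := by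
        rw [hE]
        simp only [Finset.card_filter]
      rw [h2, sq, Finset.sum_mul_sum]
      refine Finset.sum_congr rfl fun q _ => Finset.sum_congr rfl fun q' _ => ?_
      split_ifs <;> simp_all
    have h3 : ∑ r, (E r) ^ 2 = ∑ q ∈ D ×ˢ D, ∑ q' ∈ D ×ˢ D,
        (if (p : ZMod (n ^ 2 + n + 1)) * (q.1 - q'.1) = q.2 - q'.2 then 1 else 0) := by
      rw [Finset.sum_congr rfl (fun r _ => h1 r), Finset.sum_comm]
      refine Finset.sum_congr rfl fun q _ => ?_
      rw [Finset.sum_comm]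
      refine Finset.sum_congr rfl fun q' _ => ?_
      have h4 : ∀ r, (if (p : ZMod (n ^ 2 + n + 1)) * q.1 - q.2 = r ∧
          (p : ZMod (n ^ 2 + n + 1)) * q'.1 - q'.2 = r then (1 : ℕ) else 0) =
          if (p : ZMod (n ^ 2 + n + 1)) * q.1 - q.2 = r then
            (if (p : ZMod (n ^ 2 + n + 1)) * (q.1 - q'.1) = q.2 - q'.2 then 1 else 0) else 0 := by
        intro r
        by_cases h5 : (p : ZMod (n ^ 2 + n + 1)) * q.1 - q.2 = r
        · rw [if_pos h5]
          have h6 : ((p : ZMod (n ^ 2 + n + 1)) * q.1 - q.2 = r ∧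
            (p : ZMod (n ^ 2 + n + 1)) * q'.1 - q'.2 = r) ↔
              (p : ZMod (n ^ 2 + n + 1)) * (q.1 - q'.1) = q.2 - q'.2 := by
            constructor
            · rintro ⟨h7, h8⟩
              linear_combination h7 - h8
            · intro h7
              exact ⟨h5, by linear_combination h5 - h7⟩
          rw [if_congr h6 rfl rfl]
        · rw [if_neg h5, if_neg (fun h => h5 h.1)]
      rw [Finset.sum_congr rfl (fun r _ => h4 r), Finset.sum_ite_eq, if_pos (Finset.mem_univ _)]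
    have h4 : ∑ q ∈ D ×ˢ D, ∑ q' ∈ D ×ˢ D,
        (if (p : ZMod (n ^ 2 + n + 1)) * (q.1 - q'.1) = q.2 - q'.2 then 1 else 0)
        = ∑ a ∈ D, ∑ c ∈ D, ((D ×ˢ D).filter (fun s => s.1 - s.2 =
          (p : ZMod (n ^ 2 + n + 1)) * (a - c))).card := by
      rw [Finset.sum_product]
      refine Finset.sum_congr rfl fun a _ => ?_
      have h5 : ∀ b ∈ D, (∑ q' ∈ D ×ˢ D,
        (if (p : ZMod (n ^ 2 + n + 1)) * (a - q'.1) = b - q'.2 then 1 else 0)) = ∑ c ∈ D, ∑ d ∈ D,
          (if (p : ZMod (n ^ 2 + n + 1)) * (a - c) = b - d then 1 else 0) := fun b _ => Finset.sum_product _ _ _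
      rw [Finset.sum_congr rfl h5, Finset.sum_comm]
      refine Finset.sum_congr rfl fun c _ => ?_
      rw [Finset.card_filter, Finset.sum_product]
      refine Finset.sum_congr rfl fun b _ => Finset.sum_congr rfl fun d _ => ?_
      exact if_congr eq_comm rfl rfl
    have h5 : ∀ a ∈ D, ∑ c ∈ D, ((D ×ˢ D).filter (fun s => s.1 - s.2 =
          (p : ZMod (n ^ 2 + n + 1)) * (a - c))).card = (n + 1) + n := by
      intro a ha
      rw [← Finset.add_sum_erase D _ ha]
      have h6 : ((D ×ˢ D).filter (fun s => s.1 - s.2 = (p : ZMod (n ^ 2 + n + 1)) * (a - a))).card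
          = n + 1 := by
        rw [sub_self, mul_zero]
        exact hN0
      rw [h6]
      congr 1
      have h7 : ∀ c ∈ D.erase a, ((D ×ˢ D).filter (fun s => s.1 - s.2 =
          (p : ZMod (n ^ 2 + n + 1)) * (a - c))).card = 1 := by
        intro c hc
        apply hD
        intro h8
        have h9 : a - c = 0 := (hunit.mul_right_eq_zero).1 h8
        exact (Finset.mem_erase.1 hc).1 (sub_eq_zero.1 h9).symm
      rw [Finset.sum_congr rfl h7, Finset.sum_const, Finset.card_erase_of_mem ha, hcard]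
      simp
    rw [h3, h4, Finset.sum_congr rfl h5, Finset.sum_const, hcard, smul_eq_mul]
    ring
  have hv : (Fintype.card (ZMod (n ^ 2 + n + 1)) : ℤ) = n ^ 2 + n + 1 := by
    rw [ZMod.card]
    push_cast
    ring
  obtain ⟨r0, hr0⟩ : ∃ r0, n + 1 ≤ E r0 := by
    by_contra hc
    push Not at hc
    have h1 : ∀ r, ((E r : ℤ) - 1) ^ 2 ≤ ((n : ℤ) - 1) * ((E r : ℤ) - 1) := by
      intro r
      have h2 : (1 : ℤ) ≤ E r := by exact_mod_cast hE1 r
      have h3 : (E r : ℤ) ≤ n := by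
        have := hc r
        exact_mod_cast Nat.lt_succ_iff.1 this
      nlinarith
    have h2 : ∑ r, ((E r : ℤ) - 1) ^ 2 ≤ ((n : ℤ) - 1) * ∑ r, ((E r : ℤ) - 1) := by
      rw [Finset.mul_sum]
      exact Finset.sum_le_sum fun r _ => h1 r
    have h3 : ∑ r, ((E r : ℤ) - 1) = n := by
      rw [Finset.sum_sub_distrib, Finset.sum_const, Finset.card_univ, nsmul_eq_mul, hv]
      have h4 : (∑ r, (E r : ℤ)) = (n + 1) ^ 2 := by exact_mod_cast hsum
      rw [h4]
      ring
    have h5 : ∑ r, ((E r : ℤ) - 1) ^ 2 = (n : ℤ) ^ 2 := by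
      have h6 : ∀ r, ((E r : ℤ) - 1) ^ 2 = (E r : ℤ) ^ 2 - 2 * (E r : ℤ) + 1 := fun r => by ring
      rw [Finset.sum_congr rfl (fun r _ => h6 r), Finset.sum_add_distrib, Finset.sum_sub_distrib,
        ← Finset.mul_sum, Finset.sum_const, Finset.card_univ, nsmul_eq_mul, hv]
      have h4 : (∑ r, (E r : ℤ)) = (n + 1) ^ 2 := by exact_mod_cast hsum
      have h7 : (∑ r, (E r : ℤ) ^ 2) = (n + 1) ^ 2 + (n + 1) * n := by exact_mod_cast hsq
      rw [h4, h7]
      ring
    rw [h3, h5] at h2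
    have h6 : (0 : ℤ) < n := by exact_mod_cast hn
    nlinarith
  refine ⟨r0, ?_⟩
  -- every `d ∈ D` has `p d - r0 ∈ D`
  have hall : ∀ d ∈ D, (p : ZMod (n ^ 2 + n + 1)) * d - r0 ∈ D := by
    have h1 : ((D ×ˢ D).filter (fun q => (p : ZMod (n ^ 2 + n + 1)) * q.1 - q.2 = r0)).image Prod.fst = D := by
      apply Finset.eq_of_subset_of_card_le
      · intro a ha
        obtain ⟨q, hq, rfl⟩ := Finset.mem_image.1 ha
        exact (Finset.mem_product.1 (Finset.mem_filter.1 hq).1).1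
      · rw [Finset.card_image_of_injOn, hcard]
        · exact hr0
        · rintro ⟨a, b⟩ ha ⟨c, d⟩ hc hac
          have h2 := (Finset.mem_filter.1 (Finset.mem_coe.1 ha)).2
          have h3 := (Finset.mem_filter.1 (Finset.mem_coe.1 hc)).2
          simp only at h2 h3 hac
          subst hac
          have h4 : b = d := by linear_combination h3 - h2
          rw [h4]
    intro d hd
    rw [← h1] at hd
    obtain ⟨⟨a, b⟩, hq, rfl⟩ := Finset.mem_image.1 hd
    have h2 := Finset.mem_filter.1 hq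
    have h3 : (p : ZMod (n ^ 2 + n + 1)) * a - b = r0 := h2.2
    have h4 : (p : ZMod (n ^ 2 + n + 1)) * a - r0 = b := by linear_combination h3
    show (p : ZMod (n ^ 2 + n + 1)) * a - r0 ∈ D
    rw [h4]
    exact (Finset.mem_product.1 h2.1).2
  apply Finset.eq_of_subset_of_card_le
  · intro a ha
    obtain ⟨d, hd, rfl⟩ := Finset.mem_image.1 ha
    refine Finset.mem_image.2 ⟨_, hall d hd, ?_⟩
    show (p : ZMod (n ^ 2 + n + 1)) * d - r0 + r0 = (p : ZMod (n ^ 2 + n + 1)) * d
    ring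
  · have h1 : (D.image (fun d => (p : ZMod (n ^ 2 + n + 1)) * d)).card = D.card :=
      Finset.card_image_of_injective D (fun a b hab => hunit.mul_left_cancel hab)
    rw [h1]
    exact Finset.card_image_le

end Pool.Agent.H37.PPC
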