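import Pool.Agent.H37.PPC.A1

/-!
PPC A2: the Mann test and its consequence.

Sketch of `mann`.  v = n^2+n+1.  D0 = D + t satisfies the same hypotheses (card, differences) and
p D0 = D + r0 + p t = D0 + (r0 + (p-1) t).  We want sum(D0) = 0: s = ∑_{d∈D} d; ∑_{D0} = s + (n+1) t; (n+1) is a unit
mod v (inverse -n: (n+1)(-n) = 1 - v = 1), choose t = n s.  Then p·∑D0 = ∑(p D0) = ∑ (D0 + r1) = ∑D0 + (n+1) r1 gives
(n+1) r1 = 0, so r1 = 0: p D0 = D0 (as sets).  Hence p^k D0 = D0.
Let π : ZMod v → ZMod q (ZMod.castHom hqv), χ = ZMod.stdAddChar (mod q), b(j) = #{d ∈ D0 : π d = j},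
 α_a = ∑_{d∈D0} χ(a π(d)), a ∈ ZMod q.
 conj α_a = ∑ χ(-a π d) = ∑ χ(a p^k π(d)) = ∑_{d ∈ p^k D0 = D0} χ(a π d) = α_a: α_a is real.
 For a ≠ 0: |α_a|^2 = ∑_{d,d'} χ(a π(d-d')) = (n+1) + ∑_{r≠0} χ(a π r) = n + ∑_{r : ZMod v} χ(a π r) = n
  (the character r ↦ χ(aπr) of ZMod v is non-trivial).  So α_a = ε_a s, ε_a = ±1, s = √n.
 Orthogonality: ∑_{a} α_a = q b(0), α_0 = n+1.  So q b(0) - (n+1) = e s, e = ∑_{a≠0} ε_a an integer.
 If e = 0 then q | n+1, but q | n^2+n+1 = n(n+1)+1: contradiction.  If e ≠ 0 then √n is rational, so n is a square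
 (n = (integer/e)^2; Nat: irrational_sqrt / `Nat.sqrt`, e.g. e^2 n = m^2 ⇒ e ∣ m ⇒ n = (m/e)^2).

Sketch of `planar_test`: q is odd (n^2+n+1 is odd) and q ∤ p (else q = p | n and q | n^2+n+1), if jacobiSym p q = -1
then (legendreSym, Euler's criterion ZMod.euler_criterion / legendreSym.eq_pow) p^((q-1)/2) = -1 in ZMod q; take k = (q-1)/2.
p is a unit mod v as gcd(p, n^2+n+1) = 1.  Use `multiplier` for the D of IsOrder.
-/

set_option autoImplicit false

namespace Pool.Agent.H37.PPC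

open Finset

/-- translation to a set fixed by multiplication by `p` -/
private theorem A2_fixed (n : ℕ) (D : Finset (ZMod (n ^ 2 + n + 1))) (hcard : D.card = n + 1)
    (p : ℕ) (r0 : ZMod (n ^ 2 + n + 1))
    (hmult : D.image (fun d => (p : ZMod (n ^ 2 + n + 1)) * d) = D.image (fun d => d + r0))
    (hpu : IsUnit (p : ZMod (n ^ 2 + n + 1))) :
    ∃ t : ZMod (n ^ 2 + n + 1),
      (D.image (fun d => d + t)).image (fun d => (p : ZMod (n ^ 2 + n + 1)) * d)
        = D.image (fun d => d + t) := by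
  classical
  have hv : ((n : ZMod (n ^ 2 + n + 1)) ^ 2 + n + 1) = 0 := by
    have := ZMod.natCast_self (n ^ 2 + n + 1)
    push_cast at this
    exact this
  set s : ZMod (n ^ 2 + n + 1) := ∑ d ∈ D, d with hs
  set t : ZMod (n ^ 2 + n + 1) := (n : ZMod (n ^ 2 + n + 1)) * s with ht
  refine ⟨t, ?_⟩
  set D0 := D.image (fun d => d + t) with hD0
  set r1 := r0 + (p : ZMod (n ^ 2 + n + 1)) * t - t with hr1
  have h1 : D0.image (fun d => (p : ZMod (n ^ 2 + n + 1)) * d) = D0.image (fun d => d + r1) := by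
    have e1 : D0.image (fun d => (p : ZMod (n ^ 2 + n + 1)) * d)
        = (D.image (fun d => (p : ZMod (n ^ 2 + n + 1)) * d)).image
          (fun d => d + (p : ZMod (n ^ 2 + n + 1)) * t) := by
      rw [hD0, image_image, image_image]
      apply image_congr
      intro d _
      simp only [Function.comp]
      ring
    rw [e1, hmult, hD0, image_image, image_image]
    apply image_congr
    intro d _
    simp only [Function.comp, hr1]
    ring
  have hcard0 : D0.card = n + 1 := by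
    rw [hD0, card_image_of_injective _ (add_left_injective t), hcard]
  have hsum0 : ∑ x ∈ D0, x = 0 := by
    rw [hD0, sum_image (fun x _ y _ h => add_left_injective t h), sum_add_distrib, sum_const,
      hcard, ← hs, nsmul_eq_mul, ht]
    push_cast
    linear_combination s * hv
  have hsum1 : ∑ x ∈ D0.image (fun d => (p : ZMod (n ^ 2 + n + 1)) * d), x = 0 := by
    rw [sum_image (fun x _ y _ h => hpu.mul_right_injective h), ← mul_sum, hsum0, mul_zero]
  have hsum2 : ∑ x ∈ D0.image (fun d => d + r1), x = ((n : ZMod (n ^ 2 + n + 1)) + 1) * r1 := by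
    rw [sum_image (fun x _ y _ h => add_left_injective r1 h), sum_add_distrib, sum_const,
      hcard0, hsum0, nsmul_eq_mul]
    push_cast
    ring
  have hr : r1 = 0 := by
    have h2 : ((n : ZMod (n ^ 2 + n + 1)) + 1) * r1 = 0 := by rw [← hsum2, ← h1, hsum1]
    linear_combination (-(n : ZMod (n ^ 2 + n + 1))) * h2 + r1 * hv
  rw [h1, hr]
  simp

private theorem A2_pow (v : ℕ) (D : Finset (ZMod v)) (p : ℕ)
    (h : D.image (fun d => (p : ZMod v) * d) = D) (k : ℕ) :
    D.image (fun d => (p : ZMod v) ^ k * d) = D := by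
  induction k with
  | zero => simp
  | succ k ih =>
    have e1 : D.image (fun d => (p : ZMod v) ^ (k + 1) * d)
        = (D.image (fun d => (p : ZMod v) * d)).image (fun d => (p : ZMod v) ^ k * d) := by
      rw [image_image]
      apply image_congr
      intro d _
      simp only [Function.comp]
      ring
    rw [e1, h, ih]

/-- the difference count of a translate -/
private theorem A2_sum_diff (n : ℕ) (D : Finset (ZMod (n ^ 2 + n + 1))) (hcard : D.card = n + 1)
    (hD : ∀ r : ZMod (n ^ 2 + n + 1), r ≠ 0 →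
      ((D ×ˢ D).filter (fun p => p.1 - p.2 = r)).card = 1)
    (f : ZMod (n ^ 2 + n + 1) → ℂ) :
    ∑ x ∈ D, ∑ y ∈ D, f (x - y) = n * f 0 + ∑ r, f r := by
  classical
  rw [← sum_product']
  rw [← sum_fiberwise (s := D ×ˢ D) (g := fun p => p.1 - p.2)]
  have h1 : ∀ r : ZMod (n ^ 2 + n + 1),
      ∑ i ∈ (D ×ˢ D).filter (fun p => p.1 - p.2 = r), f (i.1 - i.2)
        = (if r = 0 then (n : ℂ) * f 0 else 0) + f r := by
    intro r
    have h2 : ∑ i ∈ (D ×ˢ D).filter (fun p => p.1 - p.2 = r), f (i.1 - i.2)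
        = ∑ i ∈ (D ×ˢ D).filter (fun p => p.1 - p.2 = r), f r := by
      apply sum_congr rfl
      intro i hi
      rw [(mem_filter.mp hi).2]
    rw [h2, sum_const, nsmul_eq_mul]
    by_cases hr : r = 0
    · subst hr
      have h3 : ((D ×ˢ D).filter (fun p => p.1 - p.2 = 0)).card = n + 1 := by
        rw [← hcard, ← diag_card D]
        congr 1
        ext ⟨x, y⟩
        simp only [mem_filter, mem_product, mem_diag, sub_eq_zero]
        constructor
        · rintro ⟨⟨h, _⟩, h'⟩; exact ⟨h, h'⟩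
        · rintro ⟨h, h'⟩; exact ⟨⟨h, h' ▸ h⟩, h'⟩
      rw [h3, if_pos rfl]
      push_cast
      ring
    · rw [hD r hr, if_neg hr]
      push_cast
      ring
  rw [sum_congr rfl (fun r _ => h1 r), sum_add_distrib, sum_ite_eq' univ (0 : ZMod (n ^ 2 + n + 1))]
  simp

theorem mann (n : ℕ) (hn : 2 ≤ n) (D : Finset (ZMod (n ^ 2 + n + 1))) (hcard : D.card = n + 1)
    (hD : ∀ r : ZMod (n ^ 2 + n + 1), r ≠ 0 →
      ((D ×ˢ D).filter (fun p => p.1 - p.2 = r)).card = 1)
    (p : ℕ) (r0 : ZMod (n ^ 2 + n + 1))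
    (hmult : D.image (fun d => (p : ZMod (n ^ 2 + n + 1)) * d) = D.image (fun d => d + r0))
    (hpu : IsUnit (p : ZMod (n ^ 2 + n + 1)))
    (q : ℕ) (hq : q.Prime) (hqv : q ∣ n ^ 2 + n + 1) (k : ℕ) (hk : (p : ZMod q) ^ k = -1) :
    IsSquare n := by
  classical
  obtain ⟨t, ht⟩ := A2_fixed n D hcard p r0 hmult hpu
  have htk := A2_pow _ _ p ht k
  haveI : Fact q.Prime := ⟨hq⟩
  haveI : NeZero q := ⟨hq.ne_zero⟩
  set π : ZMod (n ^ 2 + n + 1) →+* ZMod q := ZMod.castHom hqv (ZMod q) with hπ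
  set χ : AddChar (ZMod q) ℂ := ZMod.stdAddChar with hχ
  set D0 := D.image (fun d => d + t) with hD0
  set α : ZMod q → ℂ := fun a => ∑ d ∈ D0, χ (a * π d) with hα
  have hpkinj : Function.Injective (fun d : ZMod (n ^ 2 + n + 1) =>
      (p : ZMod (n ^ 2 + n + 1)) ^ k * d) := (hpu.pow k).mul_right_injective
  -- reality
  have hconj : ∀ a, (starRingEnd ℂ) (α a) = α a := by
    intro a
    have h1 : (starRingEnd ℂ) (α a) = ∑ d ∈ D0, χ (a * π ((p : ZMod (n ^ 2 + n + 1)) ^ k * d)) := by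
      simp only [hα, map_sum]
      apply sum_congr rfl
      intro d _
      rw [← AddChar.map_neg_eq_conj]
      congr 1
      rw [map_mul, map_pow, map_natCast, hk]
      ring
    rw [h1]
    have h2 : ∑ d ∈ D0.image (fun d => (p : ZMod (n ^ 2 + n + 1)) ^ k * d), χ (a * π d)
        = ∑ d ∈ D0, χ (a * π ((p : ZMod (n ^ 2 + n + 1)) ^ k * d)) :=
      sum_image (fun x _ y _ h => hpkinj h)
    rw [← h2, htk]
  -- squares
  have hsq : ∀ a, a ≠ 0 → α a ^ 2 = n := by
    intro a ha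
    have h1 : α a ^ 2 = ∑ x ∈ D, ∑ y ∈ D, χ (a * π (x - y)) := by
      have hx : α a = ∑ x ∈ D, χ (a * π (x + t)) := by
        simp only [hα, hD0]
        exact sum_image (fun x _ y _ h => add_left_injective t h)
      have hy : (starRingEnd ℂ) (α a) = ∑ y ∈ D, χ (-(a * π (y + t))) := by
        rw [hx, map_sum]
        apply sum_congr rfl
        intro d _
        rw [AddChar.map_neg_eq_conj]
      have : α a ^ 2 = α a * (starRingEnd ℂ) (α a) := by rw [hconj a, sq]
      rw [this, hy]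
      nth_rewrite 1 [hx]
      rw [sum_mul_sum]
      apply sum_congr rfl
      intro x _
      apply sum_congr rfl
      intro y _
      rw [← AddChar.map_add_eq_mul]
      congr 1
      rw [map_add, map_add, map_sub]
      ring
    rw [h1, A2_sum_diff n D hcard hD (fun r => χ (a * π r))]
    have h2 : ∑ r, χ (a * π r) = 0 := by
      set ψ : AddChar (ZMod (n ^ 2 + n + 1)) ℂ :=
        χ.compAddMonoidHom ((AddMonoidHom.mulLeft a).comp π.toAddMonoidHom) with hψ
      have hψe : ∀ r, ψ r = χ (a * π r) := fun r => rfl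
      have hψne : ψ ≠ 1 := by
        intro h
        have h3 : ψ 1 = 1 := by rw [h]; rfl
        rw [hψe, map_one, mul_one] at h3
        have h4 : χ a = χ 0 := by rw [h3, AddChar.map_zero_eq_one]
        exact ha (ZMod.injective_stdAddChar h4)
      have := AddChar.sum_eq_zero_of_ne_one hψne
      simpa [hψe] using this
    rw [h2]
    simp
  -- orthogonality
  have hort : ∑ a, α a = (q : ℂ) * ((D0.filter (fun d => π d = 0)).card : ℂ) := by
    simp only [hα]
    rw [sum_comm]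
    have h1 : ∀ d ∈ D0, ∑ a, χ (a * π d) = if π d = 0 then (q : ℂ) else 0 := by
      intro d _
      have := AddChar.sum_mulShift (π d) (ZMod.isPrimitive_stdAddChar q)
      rw [ZMod.card] at this
      rw [hχ, this]
      push_cast
      rfl
    rw [sum_congr rfl h1, ← sum_filter, sum_const, nsmul_eq_mul, mul_comm]
  have hα0 : α 0 = n + 1 := by
    simp only [hα, zero_mul, AddChar.map_zero_eq_one, sum_const, nsmul_eq_mul, mul_one]
    rw [hD0, card_image_of_injective _ (add_left_injective t), hcard]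
    push_cast
    rfl
  -- signs
  set s : ℂ := ((Real.sqrt n : ℝ) : ℂ) with hs
  have hs2 : s ^ 2 = n := by
    rw [hs, ← Complex.ofReal_pow, Real.sq_sqrt (Nat.cast_nonneg n)]
    simp
  have hε : ∀ a, a ≠ 0 → ∃ e : ℤ, α a = e * s := by
    intro a ha
    have h1 : α a ^ 2 = s ^ 2 := by rw [hsq a ha, hs2]
    rcases sq_eq_sq_iff_eq_or_eq_neg.mp h1 with h | h
    · exact ⟨1, by rw [h]; simp⟩
    · exact ⟨-1, by rw [h]; simp⟩
  choose! ε hε' using hε
  set e : ℤ := ∑ a ∈ univ.erase (0 : ZMod q), ε a with he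
  set b : ℕ := (D0.filter (fun d => π d = 0)).card with hb
  have hkey : (q : ℂ) * b - (n + 1) = e * s := by
    rw [← hort, ← add_sum_erase univ α (mem_univ (0 : ZMod q)), hα0, he]
    push_cast
    rw [sum_mul]
    rw [sum_congr rfl (fun a ha => hε' a (ne_of_mem_erase ha))]
    ring
  have hZ : ((q : ℤ) * b - (n + 1)) ^ 2 = e ^ 2 * n := by
    have h1 : ((q : ℂ) * b - (n + 1)) ^ 2 = (e : ℂ) ^ 2 * n := by
      rw [hkey, mul_pow, hs2]
    exact_mod_cast h1
  have he0 : e ≠ 0 := by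
    intro h0
    rw [h0] at hZ
    have h1 : (q : ℤ) * b - (n + 1) = 0 := by
      have : ((q : ℤ) * b - (n + 1)) ^ 2 = 0 := by rw [hZ]; ring
      exact pow_eq_zero_iff (two_ne_zero) |>.mp this
    have h2 : n + 1 = q * b := by
      have : ((n : ℤ) + 1) = q * b := by linarith
      exact_mod_cast this
    have h3 : q ∣ n + 1 := ⟨b, h2⟩
    have h4 : q ∣ 1 := by
      have h5 : q ∣ n * (n + 1) := h3.mul_left n
      have h6 : n ^ 2 + n + 1 = n * (n + 1) + 1 := by ring
      rw [h6] at hqv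
      exact (Nat.dvd_add_right h5).mp hqv
    exact hq.one_lt.ne' (Nat.dvd_one.mp h4)
  have hdvd : e ^ 2 ∣ ((q : ℤ) * b - (n + 1)) ^ 2 := ⟨n, hZ⟩
  have hdvd' : e ∣ ((q : ℤ) * b - (n + 1)) := (Int.pow_dvd_pow_iff two_ne_zero).mp hdvd
  obtain ⟨c, hc⟩ := hdvd'
  rw [hc, mul_pow] at hZ
  have hcn : c ^ 2 = (n : ℤ) := mul_left_cancel₀ (pow_ne_zero 2 he0) hZ
  refine ⟨c.natAbs, ?_⟩
  have : ((c.natAbs * c.natAbs : ℕ) : ℤ) = (n : ℤ) := by
    rw [Int.natCast_mul, Int.natAbs_mul_self', ← hcn, sq]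
  exact_mod_cast this.symm

theorem planar_test (n p q : ℕ) (hn : 2 ≤ n) (hO : IsOrder n) (hsq : ¬ IsSquare n)
    (hp : p.Prime) (hpn : p ∣ n) (hq : q.Prime) (hqv : q ∣ n ^ 2 + n + 1) :
    jacobiSym (p : ℤ) q ≠ -1 := by
  intro hj
  obtain ⟨D, hcard, hD⟩ := hO
  haveI : Fact q.Prime := ⟨hq⟩
  obtain ⟨r0, hr0⟩ := multiplier n D hcard hD p hp hpn
  have hcop : Nat.Coprime p (n ^ 2 + n + 1) := by
    rw [Nat.Prime.coprime_iff_not_dvd hp]
    intro h
    have h1 : p ∣ n * (n + 1) := hpn.mul_right _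
    have h2 : n ^ 2 + n + 1 = n * (n + 1) + 1 := by ring
    rw [h2] at h
    exact hp.one_lt.ne' (Nat.dvd_one.mp ((Nat.dvd_add_right h1).mp h))
  have hpu : IsUnit (p : ZMod (n ^ 2 + n + 1)) := (ZMod.isUnit_iff_coprime _ _).mpr hcop
  have hleg : legendreSym q (p : ℤ) = -1 := by
    rw [jacobiSym.legendreSym.to_jacobiSym, hj]
  have hpow := legendreSym.eq_pow q (p : ℤ)
  rw [hleg] at hpow
  push_cast at hpow
  exact hsq (mann n hn D hcard hD p r0 hr0 hpu q hq hqv (q / 2) hpow.symm)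

end Pool.Agent.H37.PPC
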