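import Pool.Agent.H37.PPC.CH

/-!
PPC CE: exponents of chains and the weighted sum over chains.
-/

set_option autoImplicit false

namespace Pool.Agent.H37.PPC

open Finset

noncomputable def EE (c : List ℕ) : ℝ := ∑ l ∈ Z0 c, (1 : ℝ) / l + 2 * ∑ q ∈ Zq c, (1 : ℝ) / q

noncomputable def vv (c : List ℕ) : ℝ := Real.exp (-EE c) / c.prod

noncomputable def ST (p w : ℕ) : ℝ :=
  ∑ l ∈ pr (p ^ 2) w, (1 : ℝ) / l + 2 * ∑ q ∈ qset {p} (zz p) w, (1 : ℝ) / q

theorem sum_pr_nonneg (s : Finset ℕ) : 0 ≤ ∑ l ∈ s, (1 : ℝ) / l :=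
  sum_nonneg (fun l _ => by positivity)

theorem loglog_zz (p : ℕ) (hp : 2 ≤ p) :
    Real.log (Real.log (zz p)) ≤ Real.log (Real.log p) + Real.log 45 := by
  have hlp : 0.69 < Real.log p := by
    have h1 := Real.log_two_gt_d9
    have h2 : Real.log 2 ≤ Real.log p := Real.log_le_log (by norm_num) (by exact_mod_cast hp)
    linarith
  have hp0 : (0 : ℝ) < p := by positivity
  have h12 : Real.log 12 ≤ 2.485 := by
    have h : Real.log 12 = 2 * Real.log 2 + Real.log 3 := by
      rw [show (12 : ℝ) = 2 ^ 2 * 3 by norm_num, Real.log_mul (by norm_num) (by norm_num),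
        Real.log_pow]
      norm_num
    have h2 := Real.log_two_lt_d9
    have h3 : Real.log 3 < 1.0986122888 := by
      have := Real.log_three_lt_d9
      linarith
    rw [h]; linarith
  have h1 : Real.log (zz p) = 8 * (Real.log 12 + 2 * Real.log p) := by
    unfold zz
    push_cast
    rw [Real.log_pow, Real.log_mul (by norm_num) (by positivity), Real.log_pow]
    norm_num
  have h2 : Real.log (zz p) ≤ 45 * Real.log p := by rw [h1]; linarith
  have h3 : 0 < Real.log (zz p) := by
    rw [h1]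
    have : 0 < Real.log 12 := Real.log_pos (by norm_num)
    linarith
  calc Real.log (Real.log (zz p)) ≤ Real.log (45 * Real.log p) := Real.log_le_log h3 h2
    _ = Real.log (Real.log p) + Real.log 45 := by
      rw [Real.log_mul (by norm_num) (by linarith)]; ring

theorem loglog_sq (p : ℕ) (hp : 2 ≤ p) :
    Real.log (Real.log ((p ^ 2 : ℕ) : ℝ)) = Real.log (Real.log p) + Real.log 2 := by
  have hlp : 0 < Real.log p := Real.log_pos (by exact_mod_cast (by omega : 1 < p))
  push_cast
  rw [Real.log_pow]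
  push_cast
  rw [Real.log_mul (by norm_num) (by linarith)]
  ring

theorem loglog_mono {a b : ℕ} (ha : 2 ≤ a) (hab : a ≤ b) :
    Real.log (Real.log a) ≤ Real.log (Real.log b) := by
  have hla : 0 < Real.log a := Real.log_pos (by exact_mod_cast (by omega : 1 < a))
  apply Real.log_le_log hla
  apply Real.log_le_log
  · exact_mod_cast (by omega : 0 < a)
  · exact_mod_cast hab

theorem ST_lower : ∃ K : ℝ, 0 < K ∧ ∀ p : ℕ, p.Prime → ∀ w : ℕ, 2 ≤ w →
    (3 / 2) * (Real.log (Real.log w) - Real.log (Real.log p)) - K ≤ ST p w := by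
  obtain ⟨C, hC, hM⟩ := mertens_two
  obtain ⟨C', hC', hQ⟩ := Qsum
  refine ⟨C + 2 * C' + Real.log 2 + Real.log 45, ?_, ?_⟩
  · have := Real.log_pos (show (1 : ℝ) < 2 by norm_num)
    have := Real.log_pos (show (1 : ℝ) < 45 by norm_num)
    linarith
  intro p hp w hw
  have hp2 := hp.two_le
  have hl2 := Real.log_pos (show (1 : ℝ) < 2 by norm_num)
  have hl45 := Real.log_pos (show (1 : ℝ) < 45 by norm_num)
  have hsq2 : 2 ≤ p ^ 2 := by nlinarith
  have h1 : Real.log (Real.log w) - Real.log (Real.log p) - Real.log 2 - C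
      ≤ ∑ l ∈ pr (p ^ 2) w, (1 : ℝ) / l := by
    by_cases h : p ^ 2 ≤ w
    · have := hM (p ^ 2) w hsq2 h
      rw [loglog_sq p hp2] at this
      have h2 := (abs_le.1 this).1
      linarith
    · have h2 := loglog_mono hw (by omega : w ≤ p ^ 2)
      rw [loglog_sq p hp2] at h2
      have h3 := sum_pr_nonneg (pr (p ^ 2) w)
      linarith
  have h2 : (1 / 4) * (Real.log (Real.log w) - Real.log (Real.log p)) - Real.log 45 / 4 - C'
      ≤ ∑ q ∈ qset {p} (zz p) w, (1 : ℝ) / q := by
    have hz := loglog_zz p hp2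
    by_cases h : zz p ≤ w
    · have h3 := hQ {p} (by simp) (by simpa using hp) (zz p) w ?_ h
      · rw [card_singleton] at h3
        unfold qset
        refine le_trans ?_ h3
        have : (1 / 2 : ℝ) * (1 - (1 / 2) ^ 1) = 1 / 4 := by norm_num
        rw [this]
        linarith
      · rw [prod_singleton]
        unfold zz
        apply Nat.pow_le_pow_left
        have : p ≤ p ^ 2 := Nat.le_self_pow (by norm_num) _
        omega
    · have h2 := loglog_mono hw (by omega : w ≤ zz p)
      have h3 := sum_pr_nonneg (qset {p} (zz p) w)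
      linarith
  unfold ST
  linarith

theorem CHb_self {j y p : ℕ} {c : List ℕ} (hc : p :: c ∈ CHb (j + 1) y) :
    p :: c ∈ CHb (j + 1) p ∧ c ∈ CHb j (Nat.sqrt p) ∧ p.Prime ∧ p ≤ y := by
  rw [mem_CHb_succ] at hc
  obtain ⟨p', hp', c', hc', heq⟩ := hc
  rw [List.cons.injEq] at heq
  obtain ⟨rfl, rfl⟩ := heq
  have h := mem_pr.1 hp'
  refine ⟨?_, hc', h.2, by omega⟩
  rw [mem_CHb_succ]
  exact ⟨p, mem_pr.2 ⟨⟨h.1.1, by omega⟩, h.2⟩, c, hc', rfl⟩

theorem EE_cons {j y p p' : ℕ} {c : List ℕ} (hc : p :: p' :: c ∈ CHb (j + 2) y) :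
    EE (p :: p' :: c) = EE (p' :: c) + ST p' p := by
  obtain ⟨h1, h2, h3, h4⟩ := CHb_self hc
  obtain ⟨h5, h6, h7, h8⟩ := CHb_self h2
  have hp2 := h7.two_le
  have hlt : p' < p' ^ 2 := by nlinarith
  have hz := lt_zz p' (by omega)
  have d1 : Disjoint (pr (p' ^ 2) p) (Z0 (p' :: c)) := by
    rw [disjoint_left]
    intro l hl hl'
    have a1 := mem_pr.1 hl
    have a2 := mem_pr.1 (Z0_sub _ _ _ h5 hl')
    omega
  have d2 : Disjoint (qset {p'} (zz p') p) (Zq (p' :: c)) := by
    rw [disjoint_left]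
    intro l hl hl'
    unfold qset at hl
    have a1 := mem_pr.1 (mem_filter.1 hl).1
    have a2 := mem_pr.1 (Zq_sub _ _ _ h5 hl')
    omega
  have e1 : Z0 (p :: p' :: c) = pr (p' ^ 2) p ∪ Z0 (p' :: c) := rfl
  have e2 : Zq (p :: p' :: c) = qset {p'} (zz p') p ∪ Zq (p' :: c) := rfl
  unfold EE ST
  rw [e1, e2, sum_union d1, sum_union d2]
  ring

theorem sum_biUnion_le' {ι α : Type*} [DecidableEq ι] [DecidableEq α] (s : Finset ι)
    (t : ι → Finset α) (g : α → ℝ) (hg : ∀ a, 0 ≤ g a) :
    ∑ a ∈ s.biUnion t, g a ≤ ∑ i ∈ s, ∑ a ∈ t i, g a := by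
  induction s using Finset.induction_on with
  | empty => simp
  | insert i s hi ih =>
    rw [biUnion_insert, sum_insert hi]
    have h := sum_union_inter (s₁ := t i) (s₂ := s.biUnion t) (f := g)
    have h2 : 0 ≤ ∑ a ∈ t i ∩ s.biUnion t, g a := sum_nonneg (fun a _ => hg a)
    linarith

theorem sum_CHb_succ_le (j y : ℕ) (g : List ℕ → ℝ) (hg : ∀ c, 0 ≤ g c) :
    ∑ c ∈ CHb (j + 1) y, g c
      ≤ ∑ p ∈ pr 2 (y + 1), ∑ c ∈ CHb j (Nat.sqrt p), g (p :: c) := by
  rw [CHb]
  refine (sum_biUnion_le' _ _ _ hg).trans ?_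
  refine sum_le_sum (fun p _ => ?_)
  rw [sum_image]
  intro a _ b _ h
  exact (List.cons.inj h).2

theorem vv_nonneg (c : List ℕ) : 0 ≤ vv c := by
  unfold vv
  positivity

/-- the sum over the chains with a given head -/
theorem V_bound : ∃ K : ℝ, 1 ≤ K ∧ ∀ (j p : ℕ), p.Prime →
    ∑ c ∈ CHb j (Nat.sqrt p), vv (p :: c) ≤ K ^ (j + 1) / (p * Real.log p) := by
  obtain ⟨C, hC, hM⟩ := mertens_two
  obtain ⟨K1, hK1, hST⟩ := ST_lower
  obtain ⟨K2, hK2, hH⟩ := sum_half
  set K : ℝ := max 1 (max (Real.exp C) (Real.exp K1 * K2)) with hK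
  have hKa : 1 ≤ K := le_max_left _ _
  have hKb : Real.exp C ≤ K := (le_max_left _ _).trans (le_max_right _ _)
  have hKc : Real.exp K1 * K2 ≤ K := (le_max_right _ _).trans (le_max_right _ _)
  refine ⟨K, hKa, ?_⟩
  intro j
  induction j with
  | zero =>
    intro p hp
    have hp2 := hp.two_le
    have hp0 : (0 : ℝ) < p := by positivity
    have hlp : 0 < Real.log p := Real.log_pos (by exact_mod_cast (by omega : 1 < p))
    have hl2 := Real.log_two_gt_d9
    have hl2' := Real.log_two_lt_d9
    rw [CHb, sum_singleton]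
    have e1 : EE [p] = ∑ l ∈ pr 2 p, (1 : ℝ) / l := by
      unfold EE
      have a1 : Z0 [p] = pr 2 p := by simp [Z0, lo]
      have a2 : Zq [p] = ∅ := by simp [Zq, stp]
      rw [a1, a2]
      simp
    unfold vv
    rw [e1]
    have h1 := (abs_le.1 (hM 2 p le_rfl hp2)).1
    have h2 : Real.log (Real.log 2) ≤ 0 := by
      apply Real.log_nonpos <;> linarith
    rw [Nat.cast_ofNat] at h1
    have h3 : -∑ l ∈ pr 2 p, (1 : ℝ) / l ≤ C - Real.log (Real.log p) := by linarith
    have h4 : Real.exp (-∑ l ∈ pr 2 p, (1 : ℝ) / l) ≤ Real.exp C / Real.log p := by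
      have h := Real.exp_le_exp.2 h3
      rwa [Real.exp_sub, Real.exp_log hlp] at h
    have h5 : (([p] : List ℕ).prod : ℝ) = p := by simp
    rw [show (0 + 1) = 1 from rfl, pow_one]
    have h6 : ((([p] : List ℕ).prod : ℕ) : ℝ) = p := by simp
    rw [h6, mul_comm (p : ℝ), ← div_div]
    apply div_le_div_of_nonneg_right _ hp0.le
    exact h4.trans (div_le_div_of_nonneg_right hKb hlp.le)
  | succ j ih =>
    intro p hp
    have hp2 := hp.two_le
    have hp0 : (0 : ℝ) < p := by positivity
    have hlp : 0 < Real.log p := Real.log_pos (by exact_mod_cast (by omega : 1 < p))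
    refine (sum_CHb_succ_le j (Nat.sqrt p) (fun c => vv (p :: c)) (fun c => vv_nonneg _)).trans ?_
    -- each term
    have hterm : ∀ p' ∈ pr 2 (Nat.sqrt p + 1), ∑ c ∈ CHb j (Nat.sqrt p'), vv (p :: p' :: c)
        ≤ (Real.exp K1 * K ^ (j + 1) / (p * (Real.log p * Real.sqrt (Real.log p)))) *
          (Real.sqrt (Real.log p') / p') := by
      intro p' hp'
      have hq := mem_pr.1 hp'
      have hq0 : (0 : ℝ) < p' := by exact_mod_cast hq.2.pos
      have hlq : 0 < Real.log p' := Real.log_pos (by exact_mod_cast hq.2.one_lt)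
      have hb : ∀ c ∈ CHb j (Nat.sqrt p'), vv (p :: p' :: c)
          ≤ (Real.exp K1 / p * (Real.log p' * Real.sqrt (Real.log p')
              / (Real.log p * Real.sqrt (Real.log p)))) * vv (p' :: c) := by
        intro c hc
        have hmem : p :: p' :: c ∈ CHb (j + 2) p := by
          rw [mem_CHb_succ]
          refine ⟨p, mem_pr.2 ⟨⟨hp2, by omega⟩, hp⟩, p' :: c, ?_, rfl⟩
          rw [mem_CHb_succ]
          exact ⟨p', hp', c, hc, rfl⟩
        have h1 := EE_cons hmem
        have h2 := hST p' hq.2 p hp2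
        have h3 : Real.exp (-ST p' p) ≤ Real.exp K1 * (Real.log p' * Real.sqrt (Real.log p')
              / (Real.log p * Real.sqrt (Real.log p))) := by
          have h4 : Real.log p' * Real.sqrt (Real.log p') / (Real.log p * Real.sqrt (Real.log p))
              = Real.exp ((3 / 2) * (Real.log (Real.log p') - Real.log (Real.log p))) := by
            have e : ∀ t : ℝ, 0 < t → t * Real.sqrt t = Real.exp ((3 / 2) * Real.log t) := by
              intro t ht
              rw [Real.sqrt_eq_rpow, ← Real.rpow_one_add' ht.le (by norm_num),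
                Real.rpow_def_of_pos ht]
              congr 1
              ring
            rw [e _ hlq, e _ hlp, ← Real.exp_sub]
            congr 1
            ring
          rw [h4, ← Real.exp_add]
          exact Real.exp_le_exp.2 (by linarith)
        unfold vv
        rw [h1, neg_add, Real.exp_add]
        have h5 : (((p :: p' :: c).prod : ℕ) : ℝ) = p * (((p' :: c).prod : ℕ) : ℝ) := by
          rw [List.prod_cons]; push_cast; ring
        rw [h5]
        have h6 : 0 ≤ Real.exp (-EE (p' :: c)) / (((p' :: c).prod : ℕ) : ℝ) := by positivity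
        calc Real.exp (-EE (p' :: c)) * Real.exp (-ST p' p) / (p * (((p' :: c).prod : ℕ) : ℝ))
            = (Real.exp (-ST p' p) / p) *
              (Real.exp (-EE (p' :: c)) / (((p' :: c).prod : ℕ) : ℝ)) := by
              rw [mul_comm (Real.exp (-EE (p' :: c))), mul_div_mul_comm]
          _ ≤ _ := by
              apply mul_le_mul_of_nonneg_right _ h6
              rw [div_mul_eq_mul_div]
              exact div_le_div_of_nonneg_right h3 hp0.le
      refine (sum_le_sum hb).trans ?_
      rw [← mul_sum]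
      have h7 := ih p' hq.2
      have h8 : 0 ≤ (Real.exp K1 / p * (Real.log p' * Real.sqrt (Real.log p')
              / (Real.log p * Real.sqrt (Real.log p)))) := by positivity
      refine (mul_le_mul_of_nonneg_left h7 h8).trans (le_of_eq ?_)
      have hs : 0 < Real.sqrt (Real.log p) := Real.sqrt_pos.2 hlp
      field_simp
    refine (sum_le_sum hterm).trans ?_
    rw [← mul_sum]
    by_cases hs2 : 2 ≤ Nat.sqrt p
    · have h9 := hH (Nat.sqrt p) hs2
      have h10 : Real.sqrt (Real.log (Nat.sqrt p : ℕ)) ≤ Real.sqrt (Real.log p) := by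
        apply Real.sqrt_le_sqrt
        apply Real.log_le_log
        · exact_mod_cast (by omega : 0 < Nat.sqrt p)
        · exact_mod_cast Nat.sqrt_le_self p
      have h11 : ∑ p' ∈ pr 2 (Nat.sqrt p + 1), Real.sqrt (Real.log p') / p'
          ≤ K2 * Real.sqrt (Real.log p) :=
        h9.trans (mul_le_mul_of_nonneg_left h10 hK2.le)
      have h12 : 0 ≤ (Real.exp K1 * K ^ (j + 1) / (p * (Real.log p * Real.sqrt (Real.log p)))) := by
        positivity
      refine (mul_le_mul_of_nonneg_left h11 h12).trans ?_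
      have hs : 0 < Real.sqrt (Real.log p) := Real.sqrt_pos.2 hlp
      have h13 : Real.exp K1 * K ^ (j + 1) / (p * (Real.log p * Real.sqrt (Real.log p)))
          * (K2 * Real.sqrt (Real.log p)) = (Real.exp K1 * K2) * K ^ (j + 1) / (p * Real.log p) := by
        field_simp
      rw [h13]
      apply div_le_div_of_nonneg_right _ (by positivity)
      calc Real.exp K1 * K2 * K ^ (j + 1) ≤ K * K ^ (j + 1) :=
            mul_le_mul_of_nonneg_right hKc (by positivity)
        _ = K ^ (j + 1 + 1) := by ring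
    · have h14 : pr 2 (Nat.sqrt p + 1) = ∅ := by
        unfold pr
        rw [Ico_eq_empty (by omega)]
        simp
      rw [h14, sum_empty, mul_zero]
      positivity

end Pool.Agent.H37.PPC
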