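import Pool.Agent.H37.PPC.QS
import Pool.Agent.H37.PPC.Sv
import Pool.Agent.H37.PPC.A2

/-!
PPC CH: chains of prime factors.
-/

set_option autoImplicit false

namespace Pool.Agent.H37.PPC

open Finset

/-- lower end of the range for the next prime of a chain -/
def lo : List ℕ → ℕ
  | [] => 2
  | p :: _ => p ^ 2

/-- chains of length `j` with all elements `≤ y` -/
def CHb : ℕ → ℕ → Finset (List ℕ)
  | 0, _ => {[]}
  | j + 1, y => (pr 2 (y + 1)).biUnion (fun p => (CHb j (Nat.sqrt p)).image (fun c => p :: c))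

/-- `n` has the chain `c` -/
def Gd : List ℕ → ℕ → Prop
  | [], _ => True
  | p :: c, n => p ∣ n ∧ (∀ l ∈ pr (lo c) p, ¬ l ∣ n) ∧ Gd c n

/-- primes not dividing -/
def Z0 : List ℕ → Finset ℕ
  | [] => ∅
  | p :: c => pr (lo c) p ∪ Z0 c

/-- the primes q = 1 mod 3 in `[a,b)` with `(p/q) = -1` for some `p ∈ T` -/
def qset (T : Finset ℕ) (a b : ℕ) : Finset ℕ :=
  (pr a b).filter (fun q => q % 3 = 1 ∧ ∃ p ∈ T, jacobiSym (p : ℤ) q = -1)

def zz (p : ℕ) : ℕ := (12 * p ^ 2) ^ 8

/-- the new primes at a step -/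
def stp : List ℕ → ℕ → Finset ℕ
  | [], _ => ∅
  | p' :: _, w => qset {p'} (zz p') w

def Zq : List ℕ → Finset ℕ
  | [] => ∅
  | p :: c => stp c p ∪ Zq c

theorem mem_CHb_succ {j y : ℕ} {c : List ℕ} : c ∈ CHb (j + 1) y ↔
    ∃ p ∈ pr 2 (y + 1), ∃ c' ∈ CHb j (Nat.sqrt p), c = p :: c' := by
  rw [CHb, mem_biUnion]
  constructor
  · rintro ⟨p, hp, h⟩
    obtain ⟨c', hc', rfl⟩ := mem_image.1 h
    exact ⟨p, hp, c', hc', rfl⟩
  · rintro ⟨p, hp, c', hc', rfl⟩
    exact ⟨p, hp, mem_image.2 ⟨c', hc', rfl⟩⟩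

theorem mem_CHb_zero {y : ℕ} {c : List ℕ} : c ∈ CHb 0 y ↔ c = [] := by
  rw [CHb, mem_singleton]

/-- basic facts about chains -/
theorem CHb_facts : ∀ (j y : ℕ) (c : List ℕ), c ∈ CHb j y →
    c.length = j ∧ (∀ p ∈ c, p.Prime ∧ p ≤ y) ∧ c.Nodup ∧ 1 ≤ c.prod
      ∧ (1 ≤ y → c.prod ≤ y ^ 2) := by
  intro j
  induction j with
  | zero =>
    intro y c hc
    rw [mem_CHb_zero] at hc
    subst hc
    refine ⟨rfl, by simp, by simp, by simp, fun hy => ?_⟩
    simp only [List.prod_nil]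
    exact Nat.one_le_pow _ _ hy
  | succ j ih =>
    intro y c hc
    rw [mem_CHb_succ] at hc
    obtain ⟨p, hp, c', hc', rfl⟩ := hc
    obtain ⟨⟨hp2, hpy⟩, hpp⟩ := mem_pr.1 hp
    obtain ⟨h1, h2, h3, h4, h5⟩ := ih _ _ hc'
    have hs : Nat.sqrt p < p := Nat.sqrt_lt_self (by omega)
    have hs1 : 1 ≤ Nat.sqrt p := Nat.sqrt_pos.2 (by omega)
    refine ⟨by simp [h1], ?_, ?_, ?_, ?_⟩
    · intro l hl
      rcases List.mem_cons.1 hl with rfl | hl
      · exact ⟨hpp, by omega⟩
      · have := h2 l hl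
        exact ⟨this.1, by omega⟩
    · rw [List.nodup_cons]
      refine ⟨fun h => ?_, h3⟩
      have := (h2 p h).2
      omega
    · rw [List.prod_cons]
      exact Nat.one_le_iff_ne_zero.2 (mul_ne_zero (by omega) (by omega))
    · intro _
      rw [List.prod_cons]
      have h6 := h5 hs1
      have h7 : (Nat.sqrt p) ^ 2 ≤ p := Nat.sqrt_le' p
      calc p * c'.prod ≤ p * p := Nat.mul_le_mul_left p (h6.trans h7)
        _ ≤ y ^ 2 := by nlinarith

/-- a chain can be seen with a smaller bound -/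
theorem CHb_shrink (j y p : ℕ) (c : List ℕ) (hc : c ∈ CHb j y) (hp : lo c ≤ p) :
    c ∈ CHb j (Nat.sqrt p) := by
  cases j with
  | zero => rw [mem_CHb_zero] at hc ⊢; exact hc
  | succ j =>
    rw [mem_CHb_succ] at hc ⊢
    obtain ⟨p', hp', c', hc', rfl⟩ := hc
    refine ⟨p', ?_, c', hc', rfl⟩
    rw [mem_pr] at hp' ⊢
    refine ⟨⟨hp'.1.1, ?_⟩, hp'.2⟩
    have : p' ≤ Nat.sqrt p := Nat.le_sqrt'.2 hp
    omega

theorem lo_two_le {j y : ℕ} {c : List ℕ} (hc : c ∈ CHb j y) : 2 ≤ lo c := by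
  cases c with
  | nil => exact le_refl 2
  | cons p c =>
    have := ((CHb_facts _ _ _ hc).2.1 p (by simp)).1.two_le
    unfold lo
    nlinarith

/-- existence of a chain -/
theorem exists_chain (n y : ℕ) : ∀ J : ℕ, ∃ j ≤ J, ∃ c ∈ CHb j y, Gd c n ∧
    (j = J ∨ ∀ l ∈ pr (lo c) (y + 1), ¬ l ∣ n) := by
  intro J
  induction J with
  | zero => exact ⟨0, le_refl _, [], mem_CHb_zero.2 rfl, trivial, Or.inl rfl⟩
  | succ J ih =>
    obtain ⟨j, hj, c, hc, hg, h⟩ := ih
    by_cases h2 : ∀ l ∈ pr (lo c) (y + 1), ¬ l ∣ n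
    · exact ⟨j, by omega, c, hc, hg, Or.inr h2⟩
    · rcases h with rfl | h
      · classical
        push Not at h2
        have hne : ((pr (lo c) (y + 1)).filter (fun l => l ∣ n)).Nonempty := by
          obtain ⟨l, hl, hln⟩ := h2
          exact ⟨l, mem_filter.2 ⟨hl, hln⟩⟩
        set p := ((pr (lo c) (y + 1)).filter (fun l => l ∣ n)).min' hne with hp
        have hpm := min'_mem _ hne
        rw [← hp, mem_filter] at hpm
        obtain ⟨hpm1, hpn⟩ := hpm
        have hpm2 := mem_pr.1 hpm1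
        refine ⟨j + 1, le_refl _, p :: c, ?_, ⟨hpn, ?_, hg⟩, Or.inl rfl⟩
        · rw [mem_CHb_succ]
          refine ⟨p, ?_, c, CHb_shrink _ _ _ _ hc hpm2.1.1, rfl⟩
          rw [mem_pr]
          exact ⟨⟨(lo_two_le hc).trans hpm2.1.1, hpm2.1.2⟩, hpm2.2⟩
        · intro l hl hln
          have hl2 := mem_pr.1 hl
          have : p ≤ l := by
            rw [hp]
            apply min'_le
            rw [mem_filter, mem_pr]
            exact ⟨⟨⟨hl2.1.1, by omega⟩, hl2.2⟩, hln⟩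
          omega
      · exact absurd h h2

theorem Gd_dvd : ∀ (c : List ℕ) (n : ℕ), Gd c n → ∀ p ∈ c, p ∣ n := by
  intro c
  induction c with
  | nil => intro n _ p hp; simp at hp
  | cons a c ih =>
    intro n hg p hp
    rcases List.mem_cons.1 hp with rfl | hp
    · exact hg.1
    · exact ih n hg.2.2 p hp

theorem Gd_prod (j y : ℕ) : ∀ (c : List ℕ) (n : ℕ), c ∈ CHb j y → Gd c n → c.prod ∣ n := by
  intro c n hc hg
  have hf := CHb_facts _ _ _ hc
  have h1 : ∏ p ∈ c.toFinset, p = c.prod := by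
    rw [List.prod_toFinset _ hf.2.2.1]
    simp
  rw [← h1]
  apply Finset.prod_primes_dvd
  · intro p hp
    exact (hf.2.1 p (List.mem_toFinset.1 hp)).1.prime
  · intro p hp
    exact Gd_dvd c n hg p (List.mem_toFinset.1 hp)

theorem Gd_Z0 : ∀ (c : List ℕ) (n : ℕ), Gd c n → ∀ l ∈ Z0 c, ¬ l ∣ n := by
  intro c
  induction c with
  | nil => intro n _ l hl; simp [Z0] at hl
  | cons a c ih =>
    intro n hg l hl
    rw [Z0, mem_union] at hl
    rcases hl with hl | hl
    · exact hg.2.1 l hl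
    · exact ih n hg.2.2 l hl

/-- elements of Z0 are primes below the bound -/
theorem Z0_sub (j y : ℕ) : ∀ (c : List ℕ), c ∈ CHb j y → Z0 c ⊆ pr 2 (y + 1) := by
  induction j generalizing y with
  | zero => intro c hc; rw [mem_CHb_zero] at hc; subst hc; simp [Z0]
  | succ j ih =>
    intro c hc
    rw [mem_CHb_succ] at hc
    obtain ⟨p, hp, c', hc', rfl⟩ := hc
    have hp' := mem_pr.1 hp
    have h1 := lo_two_le hc'
    intro l hl
    rw [Z0, mem_union] at hl
    rcases hl with hl | hl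
    · rw [mem_pr] at hl ⊢
      exact ⟨⟨by omega, by omega⟩, hl.2⟩
    · have h2 := ih _ _ hc' hl
      rw [mem_pr] at h2 ⊢
      have hs : Nat.sqrt p < p := Nat.sqrt_lt_self (by omega)
      exact ⟨⟨by omega, by omega⟩, h2.2⟩

theorem lt_zz (p : ℕ) (hp : 1 ≤ p) : p ^ 2 < zz p := by
  unfold zz
  have h1 : 1 ≤ p ^ 2 := Nat.one_le_pow _ _ hp
  have h2 : 12 * p ^ 2 ≤ (12 * p ^ 2) ^ 8 := Nat.le_self_pow (by norm_num) _
  omega

theorem Zq_sub (j y : ℕ) : ∀ (c : List ℕ), c ∈ CHb j y → Zq c ⊆ pr 2 (y + 1) := by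
  induction j generalizing y with
  | zero => intro c hc; rw [mem_CHb_zero] at hc; subst hc; simp [Zq]
  | succ j ih =>
    intro c hc
    rw [mem_CHb_succ] at hc
    obtain ⟨p, hp, c', hc', rfl⟩ := hc
    have hp' := mem_pr.1 hp
    intro l hl
    rw [Zq, mem_union] at hl
    rcases hl with hl | hl
    · cases c' with
      | nil => simp [stp] at hl
      | cons p' c'' =>
        have h3 := ((CHb_facts _ _ _ hc').2.1 p' (by simp)).1.two_le
        have h4 := lt_zz p' (by omega)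
        have h5 : 4 ≤ p' ^ 2 := by nlinarith
        simp only [stp, qset] at hl
        rw [mem_filter, mem_pr] at hl
        rw [mem_pr]
        exact ⟨⟨by omega, by omega⟩, hl.1.2⟩
    · have h2 := ih _ _ hc' hl
      rw [mem_pr] at h2 ⊢
      have hs : Nat.sqrt p < p := Nat.sqrt_lt_self (by omega)
      exact ⟨⟨by omega, by omega⟩, h2.2⟩

/-- properties of the primes in Zq -/
theorem Zq_prop (j y : ℕ) : ∀ (c : List ℕ), c ∈ CHb j y → ∀ q ∈ Zq c,
    q % 3 = 1 ∧ q ∉ c ∧ ∃ p ∈ c, jacobiSym (p : ℤ) q = -1 := by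
  induction j generalizing y with
  | zero => intro c hc; rw [mem_CHb_zero] at hc; subst hc; simp [Zq]
  | succ j ih =>
    intro c hc q hq
    rw [mem_CHb_succ] at hc
    obtain ⟨p, hp, c', hc', rfl⟩ := hc
    have hp' := mem_pr.1 hp
    have hs : Nat.sqrt p < p := Nat.sqrt_lt_self (by omega)
    rw [Zq, mem_union] at hq
    rcases hq with hq | hq
    · cases c' with
      | nil => simp [stp] at hq
      | cons p' c'' =>
        have hf := CHb_facts _ _ _ hc'
        have h3 := (hf.2.1 p' (by simp)).1.two_le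
        have h4 := lt_zz p' (by omega)
        simp only [stp, qset] at hq
        rw [mem_filter, mem_pr] at hq
        obtain ⟨⟨⟨hq1, hq2⟩, hqp⟩, hq3, p1, hp1, hj1⟩ := hq
        rw [mem_singleton] at hp1
        subst hp1
        refine ⟨hq3, ?_, p1, by simp, hj1⟩
        intro hmem
        rcases List.mem_cons.1 hmem with h | h
        · omega
        rcases List.mem_cons.1 h with h | h
        · have : p1 ≤ p1 ^ 2 := Nat.le_self_pow (by norm_num) _
          omega
        · -- q ∈ c'' : q ≤ sqrt p1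
          have hcc := hc'
          cases j with
          | zero => rw [mem_CHb_zero] at hcc; simp at hcc
          | succ j =>
            rw [mem_CHb_succ] at hcc
            obtain ⟨p2, hp2, c3, hc3, heq⟩ := hcc
            rw [List.cons.injEq] at heq
            obtain ⟨rfl, rfl⟩ := heq
            have := ((CHb_facts _ _ _ hc3).2.1 q h).2
            have h6 : Nat.sqrt p1 ≤ p1 := Nat.sqrt_le_self _
            have : p1 ≤ p1 ^ 2 := Nat.le_self_pow (by norm_num) _
            omega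
    · obtain ⟨h1, h2, p1, hp1, h3⟩ := ih _ _ hc' q hq
      refine ⟨h1, ?_, p1, by simp [hp1], h3⟩
      intro hmem
      rcases List.mem_cons.1 hmem with h | h
      · have h7 := mem_pr.1 (Zq_sub _ _ _ hc' hq)
        omega
      · exact h2 h

end Pool.Agent.H37.PPC
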