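import Pool.Agent.H37.PPC.Defs

/-!
PPC FC: comparison of `FF ψ y₂` and `FF ψ y₁`.

Sketch.  H n = ∑_{m≤n} 1/m (harmonic).  FF ψ y = ∑_{d≤y} (ψ(d)/d) H(⌊y/d⌋)  (swap n = d m).
|H(⌊t⌋) - log t - γ| ≤ 1/⌊t⌋ for real t ≥ 1 (H_n - log n decreases to γ, H_n - log(n+1) increases to γ: Mathlib
Real.eulerMascheroniSeq, Real.eulerMascheroniSeq'), and 1/⌊t⌋ ≤ 2/t.  So for d ≤ D ≤ y₁ ≤ y₂:
 |H(⌊y₂/d⌋) - H(⌊y₁/d⌋) - log(y₂/y₁)| ≤ 2d/y₁ + 2d/y₂ ≤ 4d/y₁, sum over d ≤ D of (1/d)·(4d/y₁): 4D/y₁.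
Tail: g(d) = H(⌊y/d⌋)/d ≥ 0 is antitone in d, g(D+1) ≤ (1+log y)/(D+1), |∑_{D<d≤N} ψ(d)| ≤ 2M, so by Abel summation
 |∑_{D<d≤y} ψ(d) g(d)| ≤ 2M (1+log y)/D; two tails (y = y₁ and y = y₂).
-/

set_option autoImplicit false

namespace Pool.Agent.H37.PPC

open Finset

private noncomputable def FC_H (n : ℕ) : ℝ := ∑ m ∈ Icc 1 n, (1 : ℝ) / m

private theorem FC_H_eq (n : ℕ) : FC_H n = ((harmonic n : ℚ) : ℝ) := by
  unfold FC_H
  rw [harmonic_eq_sum_Icc]
  push_cast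
  exact sum_congr rfl fun m _ => one_div _

private theorem FC_H_mono {a b : ℕ} (h : a ≤ b) : FC_H a ≤ FC_H b := by
  unfold FC_H
  apply sum_le_sum_of_subset_of_nonneg
  · intro x hx
    rw [mem_Icc] at hx ⊢
    omega
  · intro x _ _
    positivity

private theorem FC_H_nonneg (n : ℕ) : 0 ≤ FC_H n :=
  sum_nonneg fun x _ => by positivity

private theorem FC_H_le (n : ℕ) : FC_H n ≤ 1 + Real.log n := by
  rw [FC_H_eq]
  exact harmonic_le_one_add_log n

/-- `|H(y/d) - log(y/d) - γ| ≤ 2d/y` -/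
private theorem FC_H_asymp (y d : ℕ) (hd : 1 ≤ d) (hy : d ≤ y) :
    |FC_H (y / d) - Real.log ((y : ℝ) / d) - Real.eulerMascheroniConstant| ≤ 2 * d / y := by
  set n := y / d with hn
  have hn1 : 1 ≤ n := (Nat.one_le_div_iff (by omega)).mpr hy
  have hdR : (0 : ℝ) < d := by exact_mod_cast hd
  have hyR : (0 : ℝ) < y := by
    have : 0 < y := by omega
    exact_mod_cast this
  have hnR : (0 : ℝ) < n := by exact_mod_cast hn1
  have hnR1 : (1 : ℝ) ≤ n := by exact_mod_cast hn1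
  have hlow : (n : ℝ) ≤ y / d := by
    rw [le_div_iff₀ hdR]
    exact_mod_cast Nat.div_mul_le_self y d
  have hup : (y : ℝ) / d < n + 1 := by
    rw [div_lt_iff₀ hdR]
    have : y < (n + 1) * d := by
      rw [hn]
      exact Nat.lt_mul_of_div_lt (Nat.lt_succ_self _) (by omega)
    exact_mod_cast this
  have h1 : Real.log n ≤ Real.log ((y : ℝ) / d) := Real.log_le_log hnR hlow
  have h2 : Real.log ((y : ℝ) / d) ≤ Real.log (n + 1) := Real.log_le_log (by positivity) hup.le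
  have h3 : Real.log (n + 1) - Real.log n ≤ 1 / n := by
    rw [← Real.log_div (by positivity) (by positivity)]
    have := Real.log_le_sub_one_of_pos (x := ((n : ℝ) + 1) / n) (by positivity)
    have h4 : ((n : ℝ) + 1) / n - 1 = 1 / n := by
      field_simp
      ring
    linarith
  have h5 : (1 : ℝ) / n ≤ 2 * d / y := by
    rw [div_le_div_iff₀ hnR hyR]
    rw [div_lt_iff₀ hdR] at hup
    nlinarith
  have h6 := Real.eulerMascheroniSeq_lt_eulerMascheroniConstant n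
  have h7 := Real.eulerMascheroniConstant_lt_eulerMascheroniSeq' n
  unfold Real.eulerMascheroniSeq at h6
  unfold Real.eulerMascheroniSeq' at h7
  rw [if_neg (by omega)] at h7
  rw [FC_H_eq, abs_le]
  constructor <;> linarith

private theorem FC_abel (ψ g : ℕ → ℝ) (M : ℝ) (D : ℕ)
    (hM : ∀ N, |∑ n ∈ Icc 1 N, ψ n| ≤ M) (hg : ∀ d, D + 1 ≤ d → 0 ≤ g d)
    (hanti : ∀ d, D + 1 ≤ d → g (d + 1) ≤ g d) (N : ℕ) (hN : D ≤ N) :
    |∑ d ∈ Ioc D N, ψ d * g d| ≤ 2 * M * g (D + 1) := by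
  have key : ∀ k : ℕ, |∑ d ∈ Ioc D (D + k), ψ d * g d -
      (∑ n ∈ Icc 1 (D + k), ψ n - ∑ n ∈ Icc 1 D, ψ n) * g (D + k + 1)| ≤
      2 * M * (g (D + 1) - g (D + k + 1)) := by
    intro k
    induction k with
    | zero => simp
    | succ k ih =>
      have e1 : ∑ d ∈ Ioc D (D + (k + 1)), ψ d * g d =
          ∑ d ∈ Ioc D (D + k), ψ d * g d + ψ (D + k + 1) * g (D + k + 1) := by
        rw [← add_assoc, Finset.sum_Ioc_succ_top (by omega)]
      have e2 : ∑ n ∈ Icc 1 (D + (k + 1)), ψ n = ∑ n ∈ Icc 1 (D + k), ψ n + ψ (D + k + 1) := by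
        rw [← add_assoc, Finset.sum_Icc_succ_top (by omega)]
      have e3 : D + (k + 1) + 1 = D + k + 1 + 1 := by ring
      rw [e1, e3]
      have hd : |∑ n ∈ Icc 1 (D + (k + 1)), ψ n - ∑ n ∈ Icc 1 D, ψ n| ≤ 2 * M := by
        have h1 := abs_le.mp (hM (D + (k + 1)))
        have h2 := abs_le.mp (hM D)
        rw [abs_le]
        constructor <;> linarith
      have hgg : 0 ≤ g (D + k + 1) - g (D + k + 1 + 1) := by
        have := hanti (D + k + 1) (by omega)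
        linarith
      have e4 : ∑ d ∈ Ioc D (D + k), ψ d * g d + ψ (D + k + 1) * g (D + k + 1) -
          (∑ n ∈ Icc 1 (D + (k + 1)), ψ n - ∑ n ∈ Icc 1 D, ψ n) * g (D + k + 1 + 1) =
          (∑ d ∈ Ioc D (D + k), ψ d * g d -
            (∑ n ∈ Icc 1 (D + k), ψ n - ∑ n ∈ Icc 1 D, ψ n) * g (D + k + 1)) +
          (∑ n ∈ Icc 1 (D + (k + 1)), ψ n - ∑ n ∈ Icc 1 D, ψ n) *
            (g (D + k + 1) - g (D + k + 1 + 1)) := by
        rw [e2]
        ring
      rw [e4]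
      refine (abs_add_le _ _).trans ?_
      have h5 : |(∑ n ∈ Icc 1 (D + (k + 1)), ψ n - ∑ n ∈ Icc 1 D, ψ n) *
            (g (D + k + 1) - g (D + k + 1 + 1))| ≤ 2 * M * (g (D + k + 1) - g (D + k + 1 + 1)) := by
        rw [abs_mul, abs_of_nonneg hgg]
        exact mul_le_mul_of_nonneg_right hd hgg
      linarith
  obtain ⟨k, rfl⟩ := Nat.exists_eq_add_of_le hN
  have h := key k
  have hd : |∑ n ∈ Icc 1 (D + k), ψ n - ∑ n ∈ Icc 1 D, ψ n| ≤ 2 * M := by
    have h1 := abs_le.mp (hM (D + k))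
    have h2 := abs_le.mp (hM D)
    rw [abs_le]
    constructor <;> linarith
  have hg0 : 0 ≤ g (D + k + 1) := hg _ (by omega)
  have h5 : |(∑ n ∈ Icc 1 (D + k), ψ n - ∑ n ∈ Icc 1 D, ψ n) * g (D + k + 1)| ≤
      2 * M * g (D + k + 1) := by
    rw [abs_mul, abs_of_nonneg hg0]
    exact mul_le_mul_of_nonneg_right hd hg0
  have h6 := abs_le.mp h
  have h7 := abs_le.mp h5
  rw [abs_le]
  constructor <;> linarith

private theorem FC_FF_eq (ψ : ℕ → ℝ) (y : ℕ) :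
    FF ψ y = ∑ d ∈ Icc 1 y, ψ d * (FC_H (y / d) / d) := by
  unfold FF
  have h1 : ∀ n ∈ Icc 1 y, (∑ d ∈ n.divisors, ψ d) / (n : ℝ) =
      ∑ d ∈ Icc 1 y, if d ∣ n then ψ d / (n : ℝ) else 0 := by
    intro n hn
    rw [mem_Icc] at hn
    rw [sum_div, ← sum_filter]
    apply sum_congr _ fun _ _ => rfl
    ext d
    rw [Nat.mem_divisors, mem_filter, mem_Icc]
    constructor
    · rintro ⟨h, h0⟩
      have := Nat.le_of_dvd (by omega) h
      have : 0 < d := Nat.pos_of_dvd_of_pos h (by omega)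
      exact ⟨⟨by omega, by omega⟩, h⟩
    · rintro ⟨_, h⟩
      exact ⟨h, by omega⟩
  rw [sum_congr rfl h1, sum_comm]
  apply sum_congr rfl
  intro d hd
  rw [mem_Icc] at hd
  have hdR : (d : ℝ) ≠ 0 := by
    have : d ≠ 0 := by omega
    exact_mod_cast this
  rw [← sum_filter]
  unfold FC_H
  rw [sum_div, mul_sum]
  symm
  apply sum_bij (fun m _ => d * m)
  · intro m hm
    rw [mem_Icc] at hm
    rw [mem_filter, mem_Icc]
    refine ⟨⟨Nat.mul_pos (by omega) (by omega), ?_⟩, Dvd.intro _ rfl⟩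
    calc d * m ≤ d * (y / d) := Nat.mul_le_mul_left _ hm.2
      _ ≤ y := Nat.mul_div_le y d
  · intro a _ b _ hab
    exact Nat.eq_of_mul_eq_mul_left (by omega) hab
  · intro n hn
    rw [mem_filter, mem_Icc] at hn
    obtain ⟨⟨hn1, hn2⟩, m, rfl⟩ := hn
    refine ⟨m, ?_, rfl⟩
    rw [mem_Icc]
    refine ⟨Nat.pos_of_ne_zero (by rintro rfl; simp at hn1), ?_⟩
    rw [Nat.le_div_iff_mul_le (by omega)]
    linarith
  · intro m hm
    rw [mem_Icc] at hm
    have hmR : (m : ℝ) ≠ 0 := by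
      have : m ≠ 0 := by omega
      exact_mod_cast this
    push_cast
    field_simp

private theorem FC_tail (ψ : ℕ → ℝ) (M : ℕ) (hψ : TW ψ M) (D y : ℕ) (hD : 1 ≤ D) (hy : D ≤ y) :
    |∑ d ∈ Ioc D y, ψ d * (FC_H (y / d) / d)| ≤ 2 * M * (1 + Real.log y) / D := by
  have hyR : (1 : ℝ) ≤ y := by
    have : 1 ≤ y := by omega
    exact_mod_cast this
  have hlog : 0 ≤ Real.log y := Real.log_nonneg hyR
  have h := FC_abel ψ (fun d => FC_H (y / d) / d) M D hψ.bd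
    (fun d _ => div_nonneg (FC_H_nonneg _) (Nat.cast_nonneg _))
    (by
      intro d hd
      have hdR : (0 : ℝ) < d := by
        have : 0 < d := by omega
        exact_mod_cast this
      apply div_le_div₀ (FC_H_nonneg _) (FC_H_mono (Nat.div_le_div_left (by omega) (by omega))) hdR
      push_cast
      linarith) y hy
  refine h.trans ?_
  have hDR : (0 : ℝ) < D := by exact_mod_cast hD
  have h2 : FC_H (y / (D + 1)) ≤ 1 + Real.log y :=
    (FC_H_mono (Nat.div_le_self _ _)).trans (FC_H_le y)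
  have h3 : FC_H (y / (D + 1)) / ((D + 1 : ℕ) : ℝ) ≤ (1 + Real.log y) / D := by
    apply div_le_div₀ (by linarith) h2 hDR
    push_cast
    linarith
  calc 2 * (M : ℝ) * (FC_H (y / (D + 1)) / ((D + 1 : ℕ) : ℝ))
      ≤ 2 * M * ((1 + Real.log y) / D) := mul_le_mul_of_nonneg_left h3 (by positivity)
    _ = 2 * M * (1 + Real.log y) / D := by ring

theorem FF_compare (ψ : ℕ → ℝ) (M : ℕ) (hψ : TW ψ M) (D y₁ y₂ : ℕ) (hD : 1 ≤ D) (h1 : D ≤ y₁)
    (h2 : y₁ ≤ y₂) :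
    |FF ψ y₂ - FF ψ y₁ - (∑ d ∈ Icc 1 D, ψ d / d) * Real.log ((y₂ : ℝ) / y₁)|
      ≤ 4 * D / y₁ + 4 * M * (1 + Real.log y₂) / D := by
  have hDR : (0 : ℝ) < D := by exact_mod_cast hD
  have hy1 : (0 : ℝ) < y₁ := by
    have : 0 < y₁ := by omega
    exact_mod_cast this
  have hy2 : (0 : ℝ) < y₂ := by
    have : 0 < y₂ := by omega
    exact_mod_cast this
  have hyy : (y₁ : ℝ) ≤ y₂ := by exact_mod_cast h2
  have split : ∀ y : ℕ, D ≤ y → FF ψ y = ∑ d ∈ Icc 1 D, ψ d * (FC_H (y / d) / d) +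
      ∑ d ∈ Ioc D y, ψ d * (FC_H (y / d) / d) := by
    intro y hy
    rw [FC_FF_eq]
    have e : Icc 1 y = Icc 1 D ∪ Ioc D y := by
      ext x
      simp only [mem_union, mem_Icc, mem_Ioc]
      omega
    rw [e, sum_union]
    rw [disjoint_left]
    intro x hx hx'
    rw [mem_Icc] at hx
    rw [mem_Ioc] at hx'
    omega
  have t1 := abs_le.mp (FC_tail ψ M hψ D y₁ hD h1)
  have t2 := abs_le.mp (FC_tail ψ M hψ D y₂ hD (h1.trans h2))
  have hlog : Real.log y₁ ≤ Real.log y₂ := Real.log_le_log hy1 hyy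
  have t3 : 2 * M * (1 + Real.log y₁) / D ≤ 2 * M * (1 + Real.log y₂) / D := by
    apply div_le_div_of_nonneg_right _ hDR.le
    apply mul_le_mul_of_nonneg_left _ (by positivity)
    linarith
  have main : |∑ d ∈ Icc 1 D, ψ d * (FC_H (y₂ / d) / d) - ∑ d ∈ Icc 1 D, ψ d * (FC_H (y₁ / d) / d)
      - (∑ d ∈ Icc 1 D, ψ d / d) * Real.log ((y₂ : ℝ) / y₁)| ≤ 4 * D / y₁ := by
    rw [← sum_sub_distrib, sum_mul, ← sum_sub_distrib]
    refine (abs_sum_le_sum_abs _ _).trans ?_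
    have : ∀ d ∈ Icc 1 D, |ψ d * (FC_H (y₂ / d) / d) - ψ d * (FC_H (y₁ / d) / d) -
        ψ d / d * Real.log ((y₂ : ℝ) / y₁)| ≤ 4 / y₁ := by
      intro d hd
      rw [mem_Icc] at hd
      have hdR : (0 : ℝ) < d := by
        have : 0 < d := by omega
        exact_mod_cast this
      have e : ψ d * (FC_H (y₂ / d) / d) - ψ d * (FC_H (y₁ / d) / d) -
        ψ d / d * Real.log ((y₂ : ℝ) / y₁) =
        ψ d * ((FC_H (y₂ / d) - FC_H (y₁ / d) - Real.log ((y₂ : ℝ) / y₁)) / d) := by ring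
      rw [e, abs_mul]
      have hv : |ψ d| ≤ 1 := by
        rcases hψ.val d with h | h | h <;> rw [h] <;> norm_num
      have a1 := abs_le.mp (FC_H_asymp y₁ d hd.1 (by omega))
      have a2 := abs_le.mp (FC_H_asymp y₂ d hd.1 (by omega))
      have l1 : Real.log ((y₂ : ℝ) / y₁) = Real.log ((y₂ : ℝ) / d) - Real.log ((y₁ : ℝ) / d) := by
        rw [Real.log_div hy2.ne' hy1.ne', Real.log_div hy2.ne' hdR.ne',
          Real.log_div hy1.ne' hdR.ne']
        ring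
      have l2 : 2 * (d : ℝ) / y₂ ≤ 2 * d / y₁ :=
        div_le_div_of_nonneg_left (by positivity) hy1 hyy
      have l3 : 2 * (d : ℝ) / y₁ + 2 * d / y₁ = (4 / y₁) * d := by ring
      have a3 : |FC_H (y₂ / d) - FC_H (y₁ / d) - Real.log ((y₂ : ℝ) / y₁)| ≤ (4 / y₁) * d := by
        rw [l1, abs_le]
        constructor <;> linarith
      have a4 : |(FC_H (y₂ / d) - FC_H (y₁ / d) - Real.log ((y₂ : ℝ) / y₁)) / d| ≤ 4 / y₁ := by
        rw [abs_div, abs_of_pos hdR, div_le_iff₀ hdR]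
        exact a3
      calc |ψ d| * |(FC_H (y₂ / d) - FC_H (y₁ / d) - Real.log ((y₂ : ℝ) / y₁)) / d|
          ≤ 1 * (4 / y₁) := mul_le_mul hv a4 (abs_nonneg _) zero_le_one
        _ = 4 / y₁ := one_mul _
    refine (sum_le_sum this).trans ?_
    rw [sum_const, Nat.card_Icc, nsmul_eq_mul]
    simp only [Nat.add_sub_cancel]
    apply le_of_eq
    ring
  rw [split y₁ h1, split y₂ (h1.trans h2)]
  have m := abs_le.mp main
  have e5 : 4 * (M : ℝ) * (1 + Real.log y₂) / D =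
      2 * M * (1 + Real.log y₂) / D + 2 * M * (1 + Real.log y₂) / D := by ring
  rw [e5, abs_le]
  constructor <;> linarith

end Pool.Agent.H37.PPC
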