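import Pool.Agent.H37.PPC.Defs

/-!
PPC FP: positivity of `1 * ψ` and the Euler product upper bound.

f(n) = ∑_{d|n} ψ(d) is multiplicative, f(p^k) = 1 + ψ(p) + ... + ψ(p)^k ≥ 0 (values k+1, 1, or 0/1), so f ≥ 0;
for squarefree n: f(n) = ∏_{p|n} (1+ψ(p)).  f(1) = 1.
`FF_upper`: every n ≤ y is y-smooth, so FF ψ y ≤ ∑_{n smooth} f(n)/n = ∏_{q≤y} ∑_k f(q^k)/q^k
 (EulerProduct.summable_and_hasSum_smoothNumbers_prod_primesBelow_tsum or a finite version: ∏_{q ≤ y} ∑_{k ≤ K} f(q^k)/q^k with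
 2^K > y), and ∑_k f(q^k)/q^k ≤ (1-1/q)^{-1} (1-ψ(q)/q)^{-1} ≤ exp(1/q + ψ(q)/q + 4/q²)  (three cases for ψ(q)), ∑ 1/q² ≤ 2.
-/

set_option autoImplicit false

namespace Pool.Agent.H37.PPC

open Finset

/-- `ψ` as an arithmetic function -/
private noncomputable def FP_A (ψ : ℕ → ℝ) : ArithmeticFunction ℝ :=
  ⟨fun n => if n = 0 then 0 else ψ n, by simp⟩

private theorem FP_A_apply (ψ : ℕ → ℝ) {n : ℕ} (hn : n ≠ 0) : FP_A ψ n = ψ n := by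
  change (if n = 0 then 0 else ψ n) = ψ n
  rw [if_neg hn]

private theorem FP_A_mult (ψ : ℕ → ℝ) (M : ℕ) (hψ : TW ψ M) : (FP_A ψ).IsMultiplicative := by
  refine ⟨?_, ?_⟩
  · rw [FP_A_apply ψ one_ne_zero, hψ.one]
  · intro m n _
    rcases eq_or_ne m 0 with rfl | hm
    · simp
    rcases eq_or_ne n 0 with rfl | hn
    · simp
    rw [FP_A_apply ψ (mul_ne_zero hm hn), FP_A_apply ψ hm, FP_A_apply ψ hn, hψ.mul]

/-- `1 * ψ` as an arithmetic function -/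
private noncomputable def FP_F (ψ : ℕ → ℝ) : ArithmeticFunction ℝ :=
  ((ArithmeticFunction.zeta : ArithmeticFunction ℕ) : ArithmeticFunction ℝ) * FP_A ψ

private theorem FP_F_apply (ψ : ℕ → ℝ) (n : ℕ) : FP_F ψ n = ∑ d ∈ n.divisors, ψ d := by
  unfold FP_F
  rw [ArithmeticFunction.coe_zeta_mul_apply]
  refine sum_congr rfl fun d hd => ?_
  exact FP_A_apply ψ (Nat.pos_of_mem_divisors hd).ne'

private theorem FP_F_mult (ψ : ℕ → ℝ) (M : ℕ) (hψ : TW ψ M) : (FP_F ψ).IsMultiplicative :=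
  ArithmeticFunction.isMultiplicative_zeta.natCast.mul (FP_A_mult ψ M hψ)

private theorem FP_pow (ψ : ℕ → ℝ) (M : ℕ) (hψ : TW ψ M) (p k : ℕ) : ψ (p ^ k) = ψ p ^ k := by
  induction k with
  | zero => rw [pow_zero, pow_zero, hψ.one]
  | succ k ih => rw [pow_succ, pow_succ, hψ.mul, ih]

private theorem FP_F_pow (ψ : ℕ → ℝ) (M : ℕ) (hψ : TW ψ M) {p : ℕ} (hp : p.Prime) (k : ℕ) :
    FP_F ψ (p ^ k) = ∑ i ∈ range (k + 1), ψ p ^ i := by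
  rw [FP_F_apply, Nat.sum_divisors_prime_pow hp]
  exact sum_congr rfl fun i _ => FP_pow ψ M hψ p i

private theorem FP_geom_nonneg {t : ℝ} (ht : t = 1 ∨ t = 0 ∨ t = -1) (k : ℕ) :
    0 ≤ ∑ i ∈ range (k + 1), t ^ i := by
  rcases ht with rfl | rfl | rfl
  · exact sum_nonneg fun i _ => by positivity
  · exact sum_nonneg fun i _ => by positivity
  · rw [neg_one_geom_sum]
    split_ifs <;> norm_num

private theorem FP_F_nonneg (ψ : ℕ → ℝ) (M : ℕ) (hψ : TW ψ M) (n : ℕ) : 0 ≤ FP_F ψ n := by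
  rcases eq_or_ne n 0 with rfl | hn
  · simp
  rw [(FP_F_mult ψ M hψ).multiplicative_factorization _ hn]
  refine prod_nonneg fun p hp => ?_
  have hpp : p.Prime := Nat.prime_of_mem_primeFactors (by simpa using hp)
  change 0 ≤ FP_F ψ (p ^ n.factorization p)
  rw [FP_F_pow ψ M hψ hpp]
  exact FP_geom_nonneg (hψ.val p) _

theorem f_nonneg (ψ : ℕ → ℝ) (M : ℕ) (hψ : TW ψ M) (n : ℕ) : 0 ≤ ∑ d ∈ n.divisors, ψ d := by
  rw [← FP_F_apply]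
  exact FP_F_nonneg ψ M hψ n

theorem f_sqf (ψ : ℕ → ℝ) (M : ℕ) (hψ : TW ψ M) (n : ℕ) (hn : Squarefree n) :
    ∑ d ∈ n.divisors, ψ d = ∏ p ∈ n.primeFactors, (1 + ψ p) := by
  have h := (FP_A_mult ψ M hψ).prodPrimeFactors_one_add_of_squarefree hn
  have h1 : ∑ d ∈ n.divisors, FP_A ψ d = ∑ d ∈ n.divisors, ψ d :=
    sum_congr rfl fun d hd => FP_A_apply ψ (Nat.pos_of_mem_divisors hd).ne'
  have h2 : ∏ p ∈ n.primeFactors, (1 + FP_A ψ p) = ∏ p ∈ n.primeFactors, (1 + ψ p) :=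
    prod_congr rfl fun p hp => by
      rw [FP_A_apply ψ (Nat.prime_of_mem_primeFactors hp).ne_zero]
  rw [← h1, ← h, h2]

theorem FF_one_le (ψ : ℕ → ℝ) (M : ℕ) (hψ : TW ψ M) (y : ℕ) (hy : 1 ≤ y) : 1 ≤ FF ψ y := by
  have h1 : (1 : ℝ) = (∑ d ∈ (1 : ℕ).divisors, ψ d) / ((1 : ℕ) : ℝ) := by
    rw [Nat.divisors_one, sum_singleton, hψ.one]
    norm_num
  unfold FF
  rw [h1]
  refine single_le_sum (f := fun n : ℕ => (∑ d ∈ n.divisors, ψ d) / (n : ℝ)) (fun n _ => ?_)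
    (mem_Icc.mpr ⟨le_refl 1, hy⟩)
  exact div_nonneg (f_nonneg ψ M hψ n) (Nat.cast_nonneg n)

private noncomputable def FP_g (ψ : ℕ → ℝ) (n : ℕ) : ℝ := FP_F ψ n / n

private theorem FP_g_pow (ψ : ℕ → ℝ) (M : ℕ) (hψ : TW ψ M) {p : ℕ} (hp : p.Prime) (n : ℕ) :
    FP_g ψ (p ^ n) = ∑ k ∈ range (n + 1), (ψ p * (p : ℝ)⁻¹) ^ k * ((p : ℝ)⁻¹) ^ (n - k) := by
  unfold FP_g
  rw [FP_F_pow ψ M hψ hp, sum_div]
  refine sum_congr rfl fun k hk => ?_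
  have hk' : k ≤ n := Nat.lt_succ_iff.mp (mem_range.mp hk)
  rw [mul_pow, mul_assoc, ← pow_add, Nat.add_sub_cancel' hk', Nat.cast_pow, inv_pow, div_eq_mul_inv]

private theorem FP_inv_lt {p : ℕ} (hp : p.Prime) : ‖((p : ℝ)⁻¹)‖ < 1 := by
  have h2 : (1 : ℝ) < p := by exact_mod_cast hp.one_lt
  rw [Real.norm_of_nonneg (by positivity)]
  exact inv_lt_one_of_one_lt₀ h2

private theorem FP_abs_le (ψ : ℕ → ℝ) (M : ℕ) (hψ : TW ψ M) (p : ℕ) : |ψ p| ≤ 1 := by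
  rcases hψ.val p with h | h | h <;> rw [h] <;> norm_num

private theorem FP_mul_lt (ψ : ℕ → ℝ) (M : ℕ) (hψ : TW ψ M) {p : ℕ} (hp : p.Prime) :
    ‖ψ p * (p : ℝ)⁻¹‖ < 1 := by
  rw [norm_mul]
  calc ‖ψ p‖ * ‖(p : ℝ)⁻¹‖ ≤ 1 * ‖(p : ℝ)⁻¹‖ :=
        mul_le_mul_of_nonneg_right (FP_abs_le ψ M hψ p) (norm_nonneg _)
    _ < 1 := by rw [one_mul]; exact FP_inv_lt hp

private theorem FP_summable (ψ : ℕ → ℝ) (M : ℕ) (hψ : TW ψ M) {p : ℕ} (hp : p.Prime) :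
    Summable (fun n : ℕ => ‖FP_g ψ (p ^ n)‖) := by
  have h1 : Summable (fun n : ℕ => ‖(ψ p * (p : ℝ)⁻¹) ^ n‖) :=
    summable_norm_geometric_of_norm_lt_one (FP_mul_lt ψ M hψ hp)
  have h2 : Summable (fun n : ℕ => ‖((p : ℝ)⁻¹) ^ n‖) :=
    summable_norm_geometric_of_norm_lt_one (FP_inv_lt hp)
  have h := summable_norm_sum_mul_range_of_summable_norm h1 h2
  refine h.congr fun n => ?_
  rw [FP_g_pow ψ M hψ hp]

private theorem FP_tsum (ψ : ℕ → ℝ) (M : ℕ) (hψ : TW ψ M) {p : ℕ} (hp : p.Prime) :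
    ∑' n : ℕ, FP_g ψ (p ^ n) = (1 - ψ p * (p : ℝ)⁻¹)⁻¹ * (1 - (p : ℝ)⁻¹)⁻¹ := by
  have h1 : Summable (fun n : ℕ => ‖(ψ p * (p : ℝ)⁻¹) ^ n‖) :=
    summable_norm_geometric_of_norm_lt_one (FP_mul_lt ψ M hψ hp)
  have h2 : Summable (fun n : ℕ => ‖((p : ℝ)⁻¹) ^ n‖) :=
    summable_norm_geometric_of_norm_lt_one (FP_inv_lt hp)
  have h := tsum_mul_tsum_eq_tsum_sum_range_of_summable_norm h1 h2
  rw [tsum_geometric_of_norm_lt_one (FP_mul_lt ψ M hψ hp),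
    tsum_geometric_of_norm_lt_one (FP_inv_lt hp)] at h
  rw [h]
  exact tsum_congr fun n => FP_g_pow ψ M hψ hp n

private theorem FP_exp {t : ℝ} (ht : t ≤ 1 / 2) : (1 - t)⁻¹ ≤ Real.exp (t + 2 * t ^ 2) := by
  have h1 : (0 : ℝ) < 1 - t := by linarith
  have h2 : 1 + (t + 2 * t ^ 2) ≤ Real.exp (t + 2 * t ^ 2) := by
    have := Real.add_one_le_exp (t + 2 * t ^ 2)
    linarith
  have h3 : 1 ≤ (1 - t) * (1 + (t + 2 * t ^ 2)) := by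
    have : 0 ≤ t ^ 2 * (1 - 2 * t) := mul_nonneg (sq_nonneg t) (by linarith)
    nlinarith
  rw [inv_le_iff_one_le_mul₀ h1]
  calc 1 ≤ (1 - t) * (1 + (t + 2 * t ^ 2)) := h3
    _ ≤ (1 - t) * Real.exp (t + 2 * t ^ 2) := mul_le_mul_of_nonneg_left h2 h1.le
    _ = Real.exp (t + 2 * t ^ 2) * (1 - t) := mul_comm _ _

private theorem FP_tsum_le (ψ : ℕ → ℝ) (M : ℕ) (hψ : TW ψ M) {p : ℕ} (hp : p.Prime) :
    ∑' n : ℕ, FP_g ψ (p ^ n) ≤ Real.exp ((1 + ψ p) / p + 4 * (1 / (p : ℝ) ^ 2)) := by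
  rw [FP_tsum ψ M hψ hp]
  have hp2 : (2 : ℝ) ≤ p := by exact_mod_cast hp.two_le
  have hx : (p : ℝ)⁻¹ ≤ 1 / 2 := by
    rw [one_div]
    exact inv_anti₀ (by norm_num) hp2
  have hx0 : 0 ≤ (p : ℝ)⁻¹ := by positivity
  have habs := abs_le.mp (FP_abs_le ψ M hψ p)
  have hy : ψ p * (p : ℝ)⁻¹ ≤ 1 / 2 :=
    le_trans (by nlinarith [habs.2]) hx
  have hsq : ψ p ^ 2 ≤ 1 := by nlinarith [habs.1, habs.2]
  have e1 := FP_exp hy
  have e2 := FP_exp hx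
  have hpos : (0 : ℝ) ≤ (1 - (p : ℝ)⁻¹)⁻¹ := inv_nonneg.mpr (by linarith)
  calc (1 - ψ p * (p : ℝ)⁻¹)⁻¹ * (1 - (p : ℝ)⁻¹)⁻¹
      ≤ Real.exp (ψ p * (p : ℝ)⁻¹ + 2 * (ψ p * (p : ℝ)⁻¹) ^ 2) *
          Real.exp ((p : ℝ)⁻¹ + 2 * ((p : ℝ)⁻¹) ^ 2) :=
        mul_le_mul e1 e2 hpos (Real.exp_pos _).le
    _ = Real.exp ((ψ p * (p : ℝ)⁻¹ + 2 * (ψ p * (p : ℝ)⁻¹) ^ 2) +
          ((p : ℝ)⁻¹ + 2 * ((p : ℝ)⁻¹) ^ 2)) := (Real.exp_add _ _).symm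
    _ ≤ Real.exp ((1 + ψ p) / p + 4 * (1 / (p : ℝ) ^ 2)) := by
        apply Real.exp_le_exp.mpr
        have h1 : (1 + ψ p) / (p : ℝ) = (p : ℝ)⁻¹ + ψ p * (p : ℝ)⁻¹ := by
          rw [div_eq_mul_inv]; ring
        have h2 : 1 / (p : ℝ) ^ 2 = ((p : ℝ)⁻¹) ^ 2 := by rw [one_div, inv_pow]
        rw [h1, h2, mul_pow]
        nlinarith [mul_le_mul_of_nonneg_right hsq (sq_nonneg ((p : ℝ)⁻¹))]

private theorem FP_primes (y : ℕ) : (y + 1).primesBelow = pr 2 (y + 1) := by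
  ext p
  rw [Nat.mem_primesBelow, mem_pr]
  constructor
  · rintro ⟨h1, h2⟩
    exact ⟨⟨h2.two_le, h1⟩, h2⟩
  · rintro ⟨⟨-, h1⟩, h2⟩
    exact ⟨h1, h2⟩

private theorem FP_le_prod (ψ : ℕ → ℝ) (M : ℕ) (hψ : TW ψ M) (y : ℕ) :
    FF ψ y ≤ ∏ p ∈ (y + 1).primesBelow, ∑' n : ℕ, FP_g ψ (p ^ n) := by
  have hg1 : FP_g ψ 1 = 1 := by
    unfold FP_g
    rw [(FP_F_mult ψ M hψ).map_one]
    norm_num
  have hgm : ∀ {m n : ℕ}, Nat.Coprime m n → FP_g ψ (m * n) = FP_g ψ m * FP_g ψ n := by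
    intro m n hmn
    unfold FP_g
    rw [(FP_F_mult ψ M hψ).map_mul_of_coprime hmn, Nat.cast_mul, mul_div_mul_comm]
  have h := (EulerProduct.summable_and_hasSum_smoothNumbers_prod_primesBelow_tsum hg1 hgm
    (fun {p} hp => FP_summable ψ M hψ hp) (y + 1)).2
  have h' := (hasSum_subtype_iff_indicator (f := FP_g ψ)
    (s := Nat.smoothNumbers (y + 1))).mp h
  have hg0 : ∀ n, 0 ≤ FP_g ψ n := fun n => div_nonneg (FP_F_nonneg ψ M hψ n) (Nat.cast_nonneg n)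
  have hle := sum_le_hasSum (Icc 1 y) (fun i _ => Set.indicator_nonneg (fun n _ => hg0 n) i) h'
  refine le_trans (le_of_eq ?_) hle
  unfold FF
  refine sum_congr rfl fun n hn => ?_
  rw [mem_Icc] at hn
  rw [Set.indicator_of_mem (Nat.mem_smoothNumbers_of_lt (by omega) (by omega))]
  unfold FP_g
  rw [FP_F_apply]

theorem FF_upper : ∃ C : ℝ, ∀ (ψ : ℕ → ℝ) (M : ℕ), TW ψ M → ∀ y : ℕ, 1 ≤ y →
    FF ψ y ≤ Real.exp (∑ q ∈ pr 2 (y + 1), (1 + ψ q) / q + C) := by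
  have hs : Summable (fun n : ℕ => 1 / (n : ℝ) ^ 2) :=
    Real.summable_one_div_nat_pow.mpr (by norm_num)
  refine ⟨4 * ∑' n : ℕ, 1 / (n : ℝ) ^ 2, fun ψ M hψ y _ => ?_⟩
  refine (FP_le_prod ψ M hψ y).trans ?_
  have h0 : ∀ p ∈ (y + 1).primesBelow, 0 ≤ ∑' n : ℕ, FP_g ψ (p ^ n) := fun p _ =>
    tsum_nonneg fun n => div_nonneg (FP_F_nonneg ψ M hψ _) (Nat.cast_nonneg _)
  refine (prod_le_prod h0 fun p hp => FP_tsum_le ψ M hψ (Nat.prime_of_mem_primesBelow hp)).trans ?_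
  rw [← Real.exp_sum, FP_primes]
  apply Real.exp_le_exp.mpr
  rw [sum_add_distrib, ← mul_sum]
  have := hs.sum_le_tsum (pr 2 (y + 1)) (fun n _ => by positivity)
  linarith

end Pool.Agent.H37.PPC
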