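import Pool.Agent.H37.PPC.FC
import Pool.Agent.H37.PPC.FP
import Pool.Agent.H37.PPC.Ch

/-!
PPC FG: growth of FF ψ, and FF chi3 ≥ c log y.

`FF_growth`.  z ≥ M^8 ≥ 256, D = ⌊z^{1/4}⌋ (Nat.sqrt (Nat.sqrt z)) ≥ z^{1/4}/2 ≥ 2, L = ∑_{d≤D} ψ(d)/d, M ≤ z^{1/8}.
 (i) FF_compare with y₁ = z, y₂ = w:  F(w) ≤ F(z) + L log(w/z) + 4D/z + 4M(1+log w)/D;
   4M/D ≤ 8 z^{-1/8}, z^{-1/8} ≤ 8/log z (log z ≤ 8 z^{1/8}), so the last term ≤ 64 (1+log w)/log z ≤ 128 log w/log z.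
 (ii) FF_compare with y₁ = z₁ = Nat.sqrt z (≥ D), y₂ = z: L log(z/z₁) ≤ F(z) - F(z₁) + 4 + 128 ≤ F(z) + 132, log(z/z₁) ≥ (1/2) log z:
   so L log z ≤ 266 F(z) (if L ≤ 0 trivial) using F(z) ≥ 1, F(z₁) ≥ 0 (FF_one_le).
 Together F(w) ≤ F(z)(1 + 266 log w/log z + 4 + 128 log w/log z) ≤ C (log w/log z) F(z).
`FF_chi3`: FF_compare with D = y₁ = 100 (say), M = 3, L = ∑_{d≤100} chi3(d)/d ≥ 1/2 (pair 1/(3k+1) - 1/(3k+2) > 0, first pair 1/2):
 F(y) ≥ F(100) + L log(y/100) - 4 - 0.12 (1+log y) ≥ 0.38 log y - C₀ for y ≥ 100 and F ≥ 1 always (FF_one_le), so F(y) ≥ c log y.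
-/

set_option autoImplicit false

namespace Pool.Agent.H37.PPC

open Finset

/-- the tail term: `4 M (1 + log w) / D ≤ 64 (1 + log w) / log z` -/
theorem FG_tail (M z D : ℕ) (hM : 2 ≤ M) (hz : M ^ 8 ≤ z) (hD : D = Nat.sqrt (Nat.sqrt z)) :
    4 ≤ D ∧ (M : ℝ) / D ≤ 16 / Real.log z ∧ 1 ≤ Real.log z := by
  have hz256 : 256 ≤ z := le_trans (by
    calc 256 = 2 ^ 8 := by norm_num
      _ ≤ M ^ 8 := Nat.pow_le_pow_left hM 8) hz
  have hs16 : 16 ≤ Nat.sqrt z := Nat.le_sqrt.2 (by omega)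
  have hD4 : 4 ≤ D := by
    rw [hD]
    exact Nat.le_sqrt.2 (by omega)
  have hzpos : (0 : ℝ) < z := by
    have : 0 < z := by omega
    exact_mod_cast this
  have hlz1 : 1 ≤ Real.log z := by
    have h1 : Real.log (Real.exp 1) ≤ Real.log z := by
      apply Real.log_le_log (Real.exp_pos 1)
      have h2 : Real.exp 1 < 3 := by
        have := Real.exp_one_lt_d9
        linarith
      have h3 : (256 : ℝ) ≤ z := by exact_mod_cast hz256
      linarith
    rwa [Real.log_exp] at h1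
  refine ⟨hD4, ?_, hlz1⟩
  set t : ℝ := Real.exp (Real.log z / 8) with ht
  have htpos : 0 < t := Real.exp_pos _
  have ht8 : t ^ 8 = z := by
    rw [ht, ← Real.exp_nat_mul]
    have : ((8 : ℕ) : ℝ) * (Real.log z / 8) = Real.log z := by
      push_cast
      ring
    rw [this, Real.exp_log hzpos]
  have hMt : (M : ℝ) ≤ t := by
    have h1 : ((M : ℝ)) ^ 8 ≤ t ^ 8 := by
      rw [ht8]
      exact_mod_cast hz
    exact le_of_pow_le_pow_left₀ (by norm_num) htpos.le h1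
  have hlogt : Real.log z ≤ 8 * t := by
    have h1 : Real.log z / 8 + 1 ≤ t := Real.add_one_le_exp _
    linarith
  have hDt : t ^ 2 ≤ 2 * (D : ℝ) := by
    have h1 : z < (Nat.sqrt z + 1) * (Nat.sqrt z + 1) := Nat.lt_succ_sqrt z
    have h2 : Nat.sqrt z < (D + 1) * (D + 1) := by
      rw [hD]
      exact Nat.lt_succ_sqrt _
    have h3 : Nat.sqrt z + 1 ≤ (D + 1) ^ 2 := by
      rw [pow_two]
      exact h2
    have h4 : z < (D + 1) ^ 4 := by
      calc z < (Nat.sqrt z + 1) * (Nat.sqrt z + 1) := h1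
        _ ≤ (D + 1) ^ 2 * (D + 1) ^ 2 := Nat.mul_le_mul h3 h3
        _ = (D + 1) ^ 4 := by ring
    have h5 : (t ^ 2) ^ 4 ≤ ((D : ℝ) + 1) ^ 4 := by
      have e : (t ^ 2) ^ 4 = t ^ 8 := by ring
      rw [e, ht8]
      have h6 : (z : ℝ) < ((D : ℝ) + 1) ^ 4 := by exact_mod_cast h4
      exact h6.le
    have h7 : t ^ 2 ≤ (D : ℝ) + 1 := le_of_pow_le_pow_left₀ (by norm_num) (by positivity) h5
    have h8 : (4 : ℝ) ≤ D := by exact_mod_cast hD4
    linarith
  have hDpos : (0 : ℝ) < D := by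
    have : 0 < D := by omega
    exact_mod_cast this
  have hlzpos : 0 < Real.log z := by linarith
  rw [div_le_div_iff₀ hDpos hlzpos]
  calc (M : ℝ) * Real.log z ≤ t * (8 * t) := mul_le_mul hMt hlogt hlzpos.le htpos.le
    _ = 8 * t ^ 2 := by ring
    _ ≤ 8 * (2 * D) := by linarith
    _ = 16 * D := by ring

theorem FF_growth : ∃ C : ℝ, 0 < C ∧ ∀ (ψ : ℕ → ℝ) (M : ℕ), 2 ≤ M → TW ψ M → ∀ z w : ℕ,
    M ^ 8 ≤ z → z ≤ w → FF ψ w ≤ C * (Real.log w / Real.log z) * FF ψ z := by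
  refine ⟨399, by norm_num, ?_⟩
  intro ψ M hM hψ z w hz hzw
  obtain ⟨D, hD⟩ : ∃ D, D = Nat.sqrt (Nat.sqrt z) := ⟨_, rfl⟩
  obtain ⟨hD4, hMD, hlz1⟩ := FG_tail M z D hM hz hD
  have hz256 : 256 ≤ z := le_trans (by
    calc 256 = 2 ^ 8 := by norm_num
      _ ≤ M ^ 8 := Nat.pow_le_pow_left hM 8) hz
  have hDz1 : D ≤ Nat.sqrt z := by
    rw [hD]
    exact Nat.sqrt_le_self _
  have hz1z : Nat.sqrt z ≤ z := Nat.sqrt_le_self z
  have hz1pos : 0 < Nat.sqrt z := by omega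
  have hzR : (0 : ℝ) < z := by
    have : 0 < z := by omega
    exact_mod_cast this
  have hz1R : (0 : ℝ) < (Nat.sqrt z : ℝ) := by exact_mod_cast hz1pos
  have hwR : (0 : ℝ) < w := by
    have : 0 < w := by omega
    exact_mod_cast this
  have hlzpos : 0 < Real.log z := by linarith
  have hlzw : Real.log z ≤ Real.log w := Real.log_le_log hzR (by exact_mod_cast hzw)
  have hlwpos : 0 < Real.log w := by linarith
  have hDpos : (0 : ℝ) < D := by
    have : 0 < D := by omega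
    exact_mod_cast this
  obtain ⟨L, hL⟩ : ∃ L : ℝ, L = ∑ d ∈ Icc 1 D, ψ d / d := ⟨_, rfl⟩
  have hc1 := FF_compare ψ M hψ D z w (by omega) (le_trans hDz1 hz1z) hzw
  have hc2 := FF_compare ψ M hψ D (Nat.sqrt z) z (by omega) hDz1 hz1z
  rw [← hL] at hc1 hc2
  rw [abs_le] at hc1 hc2
  have hFz : 1 ≤ FF ψ z := FF_one_le ψ M hψ z (by omega)
  have hFz1 : 1 ≤ FF ψ (Nat.sqrt z) := FF_one_le ψ M hψ _ (by omega)
  -- error terms
  have e1 : 4 * (D : ℝ) / z ≤ 4 := by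
    rw [div_le_iff₀ hzR]
    have : (D : ℝ) ≤ z := by exact_mod_cast le_trans hDz1 hz1z
    linarith
  have e2 : 4 * (D : ℝ) / (Nat.sqrt z : ℝ) ≤ 4 := by
    rw [div_le_iff₀ hz1R]
    have : (D : ℝ) ≤ (Nat.sqrt z : ℝ) := by exact_mod_cast hDz1
    linarith
  have e3 : ∀ v : ℝ, 1 ≤ v → 4 * (M : ℝ) * (1 + v) / D ≤ 128 * (v / Real.log z) := by
    intro v hv
    calc 4 * (M : ℝ) * (1 + v) / D = 4 * (1 + v) * ((M : ℝ) / D) := by ring
      _ ≤ 4 * (1 + v) * (16 / Real.log z) := mul_le_mul_of_nonneg_left hMD (by linarith)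
      _ ≤ 4 * (2 * v) * (16 / Real.log z) :=
        mul_le_mul_of_nonneg_right (by linarith) (by positivity)
      _ = 128 * (v / Real.log z) := by ring
  have e4 := e3 (Real.log w) (by linarith)
  have e5 := e3 (Real.log z) hlz1
  rw [div_self hlzpos.ne', mul_one] at e5
  obtain ⟨ρ, hρ⟩ : ∃ ρ : ℝ, ρ = Real.log w / Real.log z := ⟨_, rfl⟩
  have hρ1 : 1 ≤ ρ := by
    rw [hρ, le_div_iff₀ hlzpos, one_mul]
    exact hlzw
  have hρz : ρ * Real.log z = Real.log w := by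
    rw [hρ]
    exact div_mul_cancel₀ _ hlzpos.ne'
  rw [← hρ] at e4 ⊢
  -- the main term
  have hlog1 : Real.log ((z : ℝ) / (Nat.sqrt z : ℝ)) = Real.log z - Real.log (Nat.sqrt z : ℝ) :=
    Real.log_div hzR.ne' hz1R.ne'
  have hlog2 : Real.log ((w : ℝ) / (z : ℝ)) = Real.log w - Real.log z :=
    Real.log_div hwR.ne' hzR.ne'
  have hhalf : Real.log (Nat.sqrt z : ℝ) ≤ Real.log z / 2 := by
    have h1 : (Nat.sqrt z : ℝ) * (Nat.sqrt z : ℝ) ≤ z := by exact_mod_cast Nat.sqrt_le z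
    have h2 := Real.log_le_log (mul_pos hz1R hz1R) h1
    rw [Real.log_mul hz1R.ne' hz1R.ne'] at h2
    linarith
  have hmain : L * Real.log ((w : ℝ) / (z : ℝ)) ≤ 266 * (ρ * FF ψ z) := by
    by_cases hL0 : L ≤ 0
    · have h1 : 0 ≤ Real.log ((w : ℝ) / (z : ℝ)) := by
        rw [hlog2]
        linarith
      have h2 : L * Real.log ((w : ℝ) / (z : ℝ)) ≤ 0 := mul_nonpos_of_nonpos_of_nonneg hL0 h1
      have h3 : 0 ≤ ρ * FF ψ z := by
        apply mul_nonneg <;> linarith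
      linarith
    · push Not at hL0
      have h1 : L * (Real.log z / 2) ≤ L * Real.log ((z : ℝ) / (Nat.sqrt z : ℝ)) := by
        apply mul_le_mul_of_nonneg_left _ hL0.le
        rw [hlog1]
        linarith
      have h2 : L * (Real.log z / 2) ≤ 133 * FF ψ z := by linarith
      have h3 : L * Real.log z ≤ 266 * FF ψ z := by linarith
      calc L * Real.log ((w : ℝ) / (z : ℝ)) ≤ L * Real.log w := by
            apply mul_le_mul_of_nonneg_left _ hL0.le
            rw [hlog2]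
            linarith
        _ = ρ * (L * Real.log z) := by
            rw [← hρz]
            ring
        _ ≤ ρ * (266 * FF ψ z) := mul_le_mul_of_nonneg_left h3 (by linarith)
        _ = 266 * (ρ * FF ψ z) := by ring
  have h5 : ρ ≤ ρ * FF ψ z := by nlinarith
  have h6 : FF ψ z ≤ ρ * FF ψ z := by nlinarith
  calc FF ψ w ≤ FF ψ z + 266 * (ρ * FF ψ z) + 4 + 128 * ρ := by linarith
    _ ≤ 399 * (ρ * FF ψ z) := by linarith
    _ = 399 * ρ * FF ψ z := by ring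

/-- the partial sum of `∑ chi3(d)/d` up to `30` -/
theorem FG_L30 : (1 : ℝ) / 2 ≤ ∑ d ∈ Icc 1 30, chi3 d / d := by
  norm_num [Finset.sum_Icc_succ_top, chi3]

theorem FF_chi3 : ∃ c : ℝ, 0 < c ∧ ∀ y : ℕ, 2 ≤ y → c * Real.log y ≤ FF chi3 y := by
  refine ⟨1 / 100, by norm_num, ?_⟩
  intro y hy
  have hF1 : 1 ≤ FF chi3 y := FF_one_le chi3 3 chi3_TW y (by omega)
  have hyR : (0 : ℝ) < y := by
    have : 0 < y := by omega
    exact_mod_cast this
  by_cases hl : Real.log y ≤ 100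
  · linarith
  · push Not at hl
    have hy30 : 30 ≤ y := by
      by_contra hcon
      push Not at hcon
      have h1 : (y : ℝ) < 30 := by exact_mod_cast hcon
      have h2 := Real.log_le_sub_one_of_pos hyR
      linarith
    have hc := FF_compare chi3 3 chi3_TW 30 30 y (by norm_num) (by norm_num) hy30
    rw [abs_le] at hc
    have hF30 : 1 ≤ FF chi3 30 := FF_one_le chi3 3 chi3_TW 30 (by norm_num)
    have hlog : Real.log ((y : ℝ) / ((30 : ℕ) : ℝ)) = Real.log y - Real.log 30 := by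
      rw [Real.log_div hyR.ne' (by norm_num)]
      norm_num
    have hl30 : Real.log 30 ≤ 4 := by
      have h2 : (30 : ℝ) ≤ Real.exp 4 := by
        have h3 : Real.exp 4 = Real.exp 1 ^ 4 := by
          rw [← Real.exp_nat_mul]
          norm_num
        rw [h3]
        have h4 : (2.7 : ℝ) ≤ Real.exp 1 := by
          have := Real.exp_one_gt_d9
          linarith
        calc (30 : ℝ) ≤ 2.7 ^ 4 := by norm_num
          _ ≤ Real.exp 1 ^ 4 := pow_le_pow_left₀ (by norm_num) h4 4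
      have h5 := Real.log_le_log (show (0 : ℝ) < 30 by norm_num) h2
      rwa [Real.log_exp] at h5
    have hpos : 0 ≤ Real.log ((y : ℝ) / ((30 : ℕ) : ℝ)) := by
      rw [hlog]
      linarith
    have hL := mul_le_mul_of_nonneg_right FG_L30 hpos
    have h1 := hc.1
    have e1 : 4 * (((30 : ℕ) : ℝ)) / ((30 : ℕ) : ℝ) + 4 * ((3 : ℕ) : ℝ) * (1 + Real.log y) / ((30 : ℕ) : ℝ) =
        4 + 0.4 * (1 + Real.log y) := by
      push_cast
      ring
    rw [e1] at h1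
    rw [hlog] at h1 hL
    norm_num at h1
    linarith

end Pool.Agent.H37.PPC
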