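import Pool.Agent.H37.PPC.CC

/-!
PPC Fin: the final count.
-/

set_option autoImplicit false

namespace Pool.Agent.H37.PPC

open Finset

theorem loglog_two_le : -1 ≤ Real.log (Real.log 2) := by
  have h1 := Real.log_two_gt_d9
  have h2 : Real.exp (-1) ≤ Real.log 2 := by
    have h3 : Real.exp (-1) ≤ 0.37 := by
      have := Real.exp_neg_one_lt_d9
      linarith
    linarith
  calc (-1 : ℝ) = Real.log (Real.exp (-1)) := (Real.log_exp _).symm
    _ ≤ Real.log (Real.log 2) := Real.log_le_log (Real.exp_pos _) h2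

/-- `n` has the chain `c`, which stops -/
def Gs (c : List ℕ) (y n : ℕ) : Prop := Gd c n ∧ ∀ l ∈ pr (lo c) (y + 1), ¬ l ∣ n

/-- the main count -/
theorem count_main : ∃ K : ℝ, 1 ≤ K ∧ ∃ s : ℕ, 0 < s ∧ ∀ x y J : ℕ, 2 ≤ y → y ^ (s + 2) ≤ x →
    Real.log (Real.log y) ≤ 2 ^ (J + 1) → ∀ G : Finset ℕ, (∀ n ∈ G, 1 ≤ n ∧ n ≤ x ∧ Good n) →
    (G.card : ℝ) ≤ (K * K ^ (J + 1) * (J + 1 + 2 ^ (J + 1))) * (x / Real.log y) := by
  classical
  obtain ⟨Ka, hKa, sa, hsa, hI⟩ := caseI
  obtain ⟨Kb, hKb, sb, hsb, hII⟩ := caseII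
  obtain ⟨Kc, hKc, sc, hsc, h0⟩ := case0
  obtain ⟨KV, hKV, hV⟩ := V_bound
  obtain ⟨Kh, hKh, hH⟩ := sum_half
  obtain ⟨Cm, hCm, hM⟩ := mertens_two
  set K : ℝ := KV + Kc + Kb * Kh + Ka * Real.exp 2 * (Cm + 4) with hK
  have hKab : 0 ≤ Kb * Kh := by positivity
  have hKac : 0 ≤ Ka * Real.exp 2 * (Cm + 4) := by positivity
  refine ⟨K, by linarith, max sa (max sb sc), by
    have := le_max_left sa (max sb sc); omega, ?_⟩
  intro x y J hy hyx hJ G hG
  have hsA : y ^ (sa + 2) ≤ x := (Nat.pow_le_pow_right (by omega) (by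
    have := le_max_left sa (max sb sc); omega)).trans hyx
  have hsB : y ^ (sb + 2) ≤ x := (Nat.pow_le_pow_right (by omega) (by
    have := le_max_right sa (max sb sc); have := le_max_left sb sc; omega)).trans hyx
  have hsC : y ^ (sc + 2) ≤ x := (Nat.pow_le_pow_right (by omega) (by
    have := le_max_right sa (max sb sc); have := le_max_right sb sc; omega)).trans hyx
  have hly : 0 < Real.log y := Real.log_pos (by exact_mod_cast (by omega : 1 < y))
  have hsly : 0 < Real.sqrt (Real.log y) := Real.sqrt_pos.2 hly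
  have hx0 : (0 : ℝ) ≤ x := by positivity
  set SI : List ℕ → Finset ℕ := fun c => G.filter (fun n => Gd c n) with hSI
  set SII : List ℕ → Finset ℕ := fun c => G.filter (fun n => Gs c y n) with hSII
  have hcover : G ⊆ (CHb (J + 1) y).biUnion SI ∪
      (range (J + 1)).biUnion (fun j => (CHb j y).biUnion SII) := by
    intro n hn
    obtain ⟨j, hj, c, hc, hg, h⟩ := exists_chain n y (J + 1)
    rw [mem_union]
    by_cases hjJ : j = J + 1
    · left
      subst hjJ
      exact mem_biUnion.2 ⟨c, hc, mem_filter.2 ⟨hn, hg⟩⟩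
    · right
      rw [mem_biUnion]
      refine ⟨j, mem_range.2 (by omega), mem_biUnion.2 ⟨c, hc, mem_filter.2 ⟨hn, hg, ?_⟩⟩⟩
      rcases h with h | h
      · exact absurd h hjJ
      · exact h
  have hcard : (G.card : ℝ) ≤ ∑ c ∈ CHb (J + 1) y, ((SI c).card : ℝ)
      + ∑ j ∈ range (J + 1), ∑ c ∈ CHb j y, ((SII c).card : ℝ) := by
    have h1 := (card_le_card hcover).trans (card_union_le _ _)
    have h2 : ((CHb (J + 1) y).biUnion SI).card ≤ ∑ c ∈ CHb (J + 1) y, (SI c).card :=
      card_biUnion_le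
    have h3 : ((range (J + 1)).biUnion (fun j => (CHb j y).biUnion SII)).card
        ≤ ∑ j ∈ range (J + 1), ∑ c ∈ CHb j y, (SII c).card :=
      card_biUnion_le.trans (sum_le_sum (fun j _ => card_biUnion_le))
    have h4 : G.card ≤ ∑ c ∈ CHb (J + 1) y, (SI c).card
        + ∑ j ∈ range (J + 1), ∑ c ∈ CHb j y, (SII c).card := by omega
    exact_mod_cast h4
  have hmem : ∀ (i p : ℕ), p ∈ pr 2 (y + 1) → ∀ c ∈ CHb i (Nat.sqrt p), p :: c ∈ CHb (i + 1) y := by
    intro i p hp c hc
    rw [mem_CHb_succ]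
    exact ⟨p, hp, c, hc, rfl⟩
  -- case II terms
  have hIIsum : ∀ i : ℕ, ∑ c ∈ CHb (i + 1) y, ((SII c).card : ℝ)
      ≤ Kb * Kh * KV ^ (i + 1) * (x / Real.log y) := by
    intro i
    refine (sum_CHb_succ_le i y (fun c => ((SII c).card : ℝ)) (fun c => by positivity)).trans ?_
    have hterm : ∀ p ∈ pr 2 (y + 1), ∑ c ∈ CHb i (Nat.sqrt p), ((SII (p :: c)).card : ℝ)
        ≤ (Kb * x * KV ^ (i + 1) / (Real.log y * Real.sqrt (Real.log y))) *
          (Real.sqrt (Real.log p) / p) := by
      intro p hp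
      have hp' := mem_pr.1 hp
      have hp0 : (0 : ℝ) < p := by exact_mod_cast hp'.2.pos
      have hlp : 0 < Real.log p := Real.log_pos (by exact_mod_cast hp'.2.one_lt)
      have hb : ∀ c ∈ CHb i (Nat.sqrt p), ((SII (p :: c)).card : ℝ)
          ≤ (Kb * x * (Real.log p * Real.sqrt (Real.log p) /
            (Real.log y * Real.sqrt (Real.log y)))) * vv (p :: c) := by
        intro c hc
        have := hII x y hy hsB i p c (hmem i p hp c hc) (SII (p :: c)) (fun n hn => by
          rw [hSII, mem_filter] at hn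
          obtain ⟨a1, a2, a3⟩ := hn
          obtain ⟨b1, b2, b3⟩ := hG n a1
          exact ⟨b1, b2, b3, a2, a3⟩)
        refine this.trans (le_of_eq ?_)
        ring
      refine (sum_le_sum hb).trans ?_
      rw [← mul_sum]
      refine (mul_le_mul_of_nonneg_left (hV i p hp'.2) (by positivity)).trans (le_of_eq ?_)
      field_simp
    refine (sum_le_sum hterm).trans ?_
    rw [← mul_sum]
    refine (mul_le_mul_of_nonneg_left (hH y hy) (by positivity)).trans (le_of_eq ?_)
    field_simp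
  have hII0 : ∑ c ∈ CHb 0 y, ((SII c).card : ℝ) ≤ Kc * (x / Real.log y) := by
    rw [CHb, sum_singleton]
    have := h0 x y hy hsC (SII []) (fun n hn => by
      rw [hSII, mem_filter] at hn
      obtain ⟨a1, a2, a3⟩ := hn
      obtain ⟨b1, b2, b3⟩ := hG n a1
      exact ⟨b1, b2, a3⟩)
    refine this.trans (le_of_eq ?_)
    ring
  -- case I
  have hIsum : ∑ c ∈ CHb (J + 1) y, ((SI c).card : ℝ)
      ≤ Ka * Real.exp 2 * (Cm + 4) * KV ^ (J + 1) * 2 ^ (J + 1) * (x / Real.log y) := by
    refine (sum_CHb_succ_le J y (fun c => ((SI c).card : ℝ)) (fun c => by positivity)).trans ?_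
    have hterm : ∀ p ∈ pr 2 (y + 1), ∑ c ∈ CHb J (Nat.sqrt p), ((SI (p :: c)).card : ℝ)
        ≤ (Ka * Real.exp 2 * KV ^ (J + 1) * (x / Real.log y)) * (1 / p) := by
      intro p hp
      have hp' := mem_pr.1 hp
      have hp0 : (0 : ℝ) < p := by exact_mod_cast hp'.2.pos
      have hlp : 0 < Real.log p := Real.log_pos (by exact_mod_cast hp'.2.one_lt)
      have hb : ∀ c ∈ CHb J (Nat.sqrt p), ((SI (p :: c)).card : ℝ)
          ≤ (Ka * x * Real.exp ((1 - (1 / 2) ^ (J + 1)) *
            (Real.log (Real.log p) - Real.log (Real.log y)))) * vv (p :: c) := by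
        intro c hc
        have := hI x y hy hsA J p c (hmem J p hp c hc) (SI (p :: c)) (fun n hn => by
          rw [hSI, mem_filter] at hn
          obtain ⟨a1, a2⟩ := hn
          obtain ⟨b1, b2, b3⟩ := hG n a1
          exact ⟨b1, b2, b3, a2⟩)
        refine this.trans (le_of_eq ?_)
        ring
      refine (sum_le_sum hb).trans ?_
      rw [← mul_sum]
      have hexp : Real.exp ((1 - (1 / 2) ^ (J + 1)) *
            (Real.log (Real.log p) - Real.log (Real.log y)))
            ≤ Real.exp 2 * (Real.log p / Real.log y) := by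
        have e1 : Real.log p / Real.log y
            = Real.exp (Real.log (Real.log p) - Real.log (Real.log y)) := by
          rw [Real.exp_sub, Real.exp_log hlp, Real.exp_log hly]
        rw [e1, ← Real.exp_add]
        apply Real.exp_le_exp.2
        have h2 := loglog_two_le
        have h3 := loglog_mono (le_refl 2) hp'.1.1
        rw [Nat.cast_ofNat] at h3
        have hθ : (0 : ℝ) < (1 / 2) ^ (J + 1) := by positivity
        have hθ1 : ((1 : ℝ) / 2) ^ (J + 1) ≤ 1 := pow_le_one₀ (by norm_num) (by norm_num)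
        have h4 : ((1 : ℝ) / 2) ^ (J + 1) * 2 ^ (J + 1) = 1 := by
          rw [← mul_pow]; norm_num
        have h5 : ((1 : ℝ) / 2) ^ (J + 1) * Real.log (Real.log y) ≤ 1 := by
          calc ((1 : ℝ) / 2) ^ (J + 1) * Real.log (Real.log y)
              ≤ ((1 : ℝ) / 2) ^ (J + 1) * 2 ^ (J + 1) := mul_le_mul_of_nonneg_left hJ hθ.le
            _ = 1 := h4
        have h6 : ((1 : ℝ) / 2) ^ (J + 1) * (-Real.log (Real.log p)) ≤ 1 := by
          calc ((1 : ℝ) / 2) ^ (J + 1) * (-Real.log (Real.log p))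
              ≤ ((1 : ℝ) / 2) ^ (J + 1) * 1 := mul_le_mul_of_nonneg_left (by linarith) hθ.le
            _ ≤ 1 := by linarith
        nlinarith
      have h7 : Ka * x * Real.exp ((1 - (1 / 2) ^ (J + 1)) *
            (Real.log (Real.log p) - Real.log (Real.log y)))
            ≤ Ka * x * (Real.exp 2 * (Real.log p / Real.log y)) :=
        mul_le_mul_of_nonneg_left hexp (by positivity)
      have h8 : 0 ≤ ∑ c ∈ CHb J (Nat.sqrt p), vv (p :: c) := sum_nonneg (fun c _ => vv_nonneg _)
      refine (mul_le_mul_of_nonneg_right h7 h8).trans ?_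
      refine (mul_le_mul_of_nonneg_left (hV J p hp'.2) (by positivity)).trans (le_of_eq ?_)
      field_simp
    refine (sum_le_sum hterm).trans ?_
    rw [← mul_sum]
    have h1 := (abs_le.1 (hM 2 (y + 1) le_rfl (by omega))).2
    rw [Nat.cast_ofNat] at h1
    have h2 := loglog_two_le
    have h3 : Real.log (Real.log ((y + 1 : ℕ) : ℝ)) ≤ Real.log (Real.log y) + 1 := by
      have h4 := loglog_mono (by omega : 2 ≤ y + 1) (by nlinarith : y + 1 ≤ y ^ 2)
      rw [loglog_sq y hy] at h4
      have := Real.log_two_lt_d9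
      linarith
    have h5 : (1 : ℝ) ≤ 2 ^ (J + 1) := one_le_pow₀ (by norm_num)
    have h6 : ∑ p ∈ pr 2 (y + 1), (1 : ℝ) / p ≤ (Cm + 4) * 2 ^ (J + 1) := by
      nlinarith
    refine (mul_le_mul_of_nonneg_left h6 (by positivity)).trans (le_of_eq ?_)
    ring
  -- conclusion
  have hxy : 0 ≤ (x : ℝ) / Real.log y := by positivity
  have hKVK : KV ≤ K := by linarith
  have hK1 : 1 ≤ K := by linarith
  have hpow : ∀ i ≤ J + 1, KV ^ i ≤ K ^ (J + 1) := by
    intro i hi
    calc KV ^ i ≤ KV ^ (J + 1) := pow_le_pow_right₀ hKV hi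
      _ ≤ K ^ (J + 1) := pow_le_pow_left₀ (by linarith) hKVK _
  have hsum2 : ∑ j ∈ range (J + 1), ∑ c ∈ CHb j y, ((SII c).card : ℝ)
      ≤ ∑ j ∈ range (J + 1), ((Kc + Kb * Kh) * K ^ (J + 1) * (x / Real.log y)) := by
    apply sum_le_sum
    intro j hj
    have hj' := mem_range.1 hj
    have h1K : (1 : ℝ) ≤ K ^ (J + 1) := one_le_pow₀ hK1
    cases j with
    | zero =>
      refine hII0.trans ?_
      apply mul_le_mul_of_nonneg_right _ hxy
      nlinarith
    | succ i =>
      refine (hIIsum i).trans ?_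
      apply mul_le_mul_of_nonneg_right _ hxy
      have := hpow (i + 1) (by omega)
      calc Kb * Kh * KV ^ (i + 1) ≤ Kb * Kh * K ^ (J + 1) :=
            mul_le_mul_of_nonneg_left this hKab
        _ ≤ (Kc + Kb * Kh) * K ^ (J + 1) :=
            mul_le_mul_of_nonneg_right (by linarith) (by positivity)
  rw [sum_const, card_range, nsmul_eq_mul] at hsum2
  have hfin1 : Ka * Real.exp 2 * (Cm + 4) * KV ^ (J + 1) * 2 ^ (J + 1) * (x / Real.log y)
      ≤ K * K ^ (J + 1) * 2 ^ (J + 1) * (x / Real.log y) := by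
    apply mul_le_mul_of_nonneg_right _ hxy
    apply mul_le_mul_of_nonneg_right _ (by positivity)
    exact mul_le_mul (by linarith) (hpow _ le_rfl) (by positivity) (by linarith)
  have hfin2 : ((J + 1 : ℕ) : ℝ) * ((Kc + Kb * Kh) * K ^ (J + 1) * (x / Real.log y))
      ≤ (J + 1) * (K * K ^ (J + 1) * (x / Real.log y)) := by
    push_cast
    apply mul_le_mul_of_nonneg_left _ (by positivity)
    apply mul_le_mul_of_nonneg_right _ hxy
    exact mul_le_mul_of_nonneg_right (by linarith) (by positivity)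
  calc (G.card : ℝ) ≤ _ := hcard
    _ ≤ K * K ^ (J + 1) * 2 ^ (J + 1) * (x / Real.log y)
        + (J + 1) * (K * K ^ (J + 1) * (x / Real.log y)) := by
        have := hsum2.trans hfin2
        have := hIsum.trans hfin1
        linarith
    _ = _ := by ring

end Pool.Agent.H37.PPC
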