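import Pool.Agent.H37.PPC.TS

/-!
PPC QS: primes q ≡ 1 mod 3 with (p/q) = -1 for some p ∈ T.

For q ∈ pr z w (z ≥ 12^8·(∏T)^8, so q is odd, > 3, and q ∤ p for all p ∈ T) jacobiSym p q = ±1 and chi3 q = J(-3|q) = ±1.
1[q%3=1] = (1+chi3 q)/2, 1[∃ p∈T, J(p|q) = -1] = 1 - ∏_{p∈T} (1+J(p|q))/2 = 1 - 2^{-|T|} ∑_{U⊆T} J(∏U|q).
So the sum is ½(1-2^{-|T|}) ∑ (1+chi3 q)/q - ½ 2^{-|T|} ∑_{∅≠U⊆T} ∑_q (J(∏U|q) + J(-3∏U|q))/q.
 For every nonempty U: psi (∏U) and psi (-3∏U) are TW with M = 4∏U resp. 12∏U ≤ 12∏T (psi_TW, ex_pos, ex_neg), so TW_sum bounds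
 each of the 2·2^{|T|} inner sums by C (psi a q = J(a|q) for odd q); chi3_sum and mertens_two for the main term.
-/

set_option autoImplicit false

namespace Pool.Agent.H37.PPC

open Finset

theorem qs_jprod (U : Finset ℕ) (q : ℕ) :
    jacobiSym ((∏ p ∈ U, p : ℕ) : ℤ) q = ∏ p ∈ U, jacobiSym (p : ℤ) q := by
  classical
  induction U using Finset.induction_on with
  | empty => simp [jacobiSym.one_left]
  | insert a s ha ih =>
    rw [Finset.prod_insert ha, Finset.prod_insert ha, Nat.cast_mul, jacobiSym.mul_left, ih]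

theorem qs_prod_pos (U : Finset ℕ) (hU : ∀ p ∈ U, p.Prime) : 0 < ∏ p ∈ U, p :=
  Finset.prod_pos fun p hp => (hU p hp).pos

theorem qs_prod_le (T U : Finset ℕ) (hT : ∀ p ∈ T, p.Prime) (hUT : U ⊆ T) :
    ∏ p ∈ U, p ≤ ∏ p ∈ T, p := by
  apply Finset.prod_le_prod_of_subset_of_one_le' hUT
  intro i hi _
  exact (hT i hi).one_lt.le

/-- a product of primes smaller than `q` is prime to `q` -/
theorem qs_coprime (q : ℕ) (hq : q.Prime) (p : ℕ) (hp : p.Prime) (hpq : p < q) :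
    (p : ℤ).gcd q = 1 := by
  rw [Int.gcd_natCast_natCast]
  exact (Nat.coprime_primes hp hq).2 (by omega)

theorem qs_inner (T : Finset ℕ) (q : ℕ) (hq : q.Prime) (hq3 : 3 < q) (hT : ∀ p ∈ T, p.Prime)
    (hTq : ∀ p ∈ T, p < q) :
    (if (q % 3 = 1 ∧ ∃ p ∈ T, jacobiSym (p : ℤ) q = -1) then (1 : ℝ) / q else 0)
      = (1 / 2) * (1 - (1 / 2) ^ T.card) * ((1 + chi3 q) / q)
        - (1 / 2) * (1 / 2) ^ T.card * ∑ U ∈ T.powerset.erase ∅,
          (psi ((∏ p ∈ U, p : ℕ) : ℤ) q / q + psi (-3 * ((∏ p ∈ U, p : ℕ) : ℤ)) q / q) := by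
  classical
  have hodd : Odd q := hq.odd_of_ne_two (by omega)
  have hq0 : (q : ℝ) ≠ 0 := by
    have := hq.pos
    positivity
  -- the first factor
  have hchi : (if q % 3 = 1 then (1 : ℝ) else 0) = (1 + chi3 q) / 2 := by
    have h0 : q % 3 ≠ 0 := by
      intro h
      have h3 : 3 ∣ q := Nat.dvd_of_mod_eq_zero h
      have := (Nat.prime_dvd_prime_iff_eq Nat.prime_three hq).1 h3
      omega
    have hlt : q % 3 < 3 := Nat.mod_lt _ (by norm_num)
    unfold chi3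
    rcases (by omega : q % 3 = 1 ∨ q % 3 = 2) with h | h
    · rw [if_pos h, if_pos h]
      norm_num
    · rw [if_neg (by omega), if_neg (by omega), if_pos h]
      norm_num
  -- the second factor
  have hJ : ∀ p ∈ T, jacobiSym (p : ℤ) q = 1 ∨ jacobiSym (p : ℤ) q = -1 := fun p hp =>
    jacobiSym.eq_one_or_neg_one (qs_coprime q hq p (hT p hp) (hTq p hp))
  have hex : (if (∃ p ∈ T, jacobiSym (p : ℤ) q = -1) then (1 : ℝ) else 0)
      = 1 - ∏ p ∈ T, ((1 + (jacobiSym (p : ℤ) q : ℝ)) / 2) := by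
    by_cases h : ∃ p ∈ T, jacobiSym (p : ℤ) q = -1
    · rw [if_pos h]
      obtain ⟨p, hp, hpj⟩ := h
      rw [Finset.prod_eq_zero hp]
      · ring
      · rw [hpj]
        push_cast
        ring
    · rw [if_neg h]
      rw [Finset.prod_eq_one]
      · ring
      · intro p hp
        have h1 : jacobiSym (p : ℤ) q = 1 := by
          rcases hJ p hp with h1 | h1
          · exact h1
          · exact absurd ⟨p, hp, h1⟩ h
        rw [h1]
        push_cast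
        ring
  have hprod : ∏ p ∈ T, ((1 + (jacobiSym (p : ℤ) q : ℝ)) / 2)
      = (1 / 2) ^ T.card * (1 + ∑ U ∈ T.powerset.erase ∅, psi ((∏ p ∈ U, p : ℕ) : ℤ) q) := by
    have e1 : ∏ p ∈ T, ((1 + (jacobiSym (p : ℤ) q : ℝ)) / 2)
        = (1 / 2) ^ T.card * ∏ p ∈ T, (1 + (jacobiSym (p : ℤ) q : ℝ)) := by
      rw [← Finset.prod_const, ← Finset.prod_mul_distrib]
      refine Finset.prod_congr rfl fun p _ => ?_
      ring
    rw [e1, Finset.prod_one_add]
    congr 1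
    rw [← Finset.add_sum_erase _ _ (Finset.empty_mem_powerset T)]
    congr 1
    refine Finset.sum_congr rfl fun U _ => ?_
    unfold psi
    rw [if_pos hodd, qs_jprod U q]
    push_cast
    rfl
  have hpsi3 : ∀ U : Finset ℕ, psi (-3 * ((∏ p ∈ U, p : ℕ) : ℤ)) q
      = chi3 q * psi ((∏ p ∈ U, p : ℕ) : ℤ) q := by
    intro U
    unfold psi
    rw [if_pos hodd, if_pos hodd, jacobiSym.mul_left]
    push_cast
    rw [jac_m3 q hq hq3]
  have hL : (if (q % 3 = 1 ∧ ∃ p ∈ T, jacobiSym (p : ℤ) q = -1) then (1 : ℝ) / q else 0)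
      = ((1 + chi3 q) / 2) * (1 - ∏ p ∈ T, ((1 + (jacobiSym (p : ℤ) q : ℝ)) / 2)) * (1 / q) := by
    rw [← hchi, ← hex]
    by_cases h1 : q % 3 = 1
    · by_cases h2 : ∃ p ∈ T, jacobiSym (p : ℤ) q = -1
      · rw [if_pos ⟨h1, h2⟩, if_pos h1, if_pos h2]
        ring
      · rw [if_neg (fun h => h2 h.2), if_pos h1, if_neg h2]
        ring
    · rw [if_neg (fun h => h1 h.1), if_neg h1]
      ring
  rw [hL, hprod]
  have hS : ∑ U ∈ T.powerset.erase ∅,
      (psi ((∏ p ∈ U, p : ℕ) : ℤ) q / q + psi (-3 * ((∏ p ∈ U, p : ℕ) : ℤ)) q / q)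
      = ((1 + chi3 q) / q) * ∑ U ∈ T.powerset.erase ∅, psi ((∏ p ∈ U, p : ℕ) : ℤ) q := by
    rw [Finset.mul_sum]
    refine Finset.sum_congr rfl fun U _ => ?_
    rw [hpsi3 U]
    ring
  rw [hS]
  ring

theorem Qsum : ∃ C : ℝ, 0 < C ∧ ∀ T : Finset ℕ, T.Nonempty → (∀ p ∈ T, p.Prime) → ∀ z w : ℕ,
    (12 * ∏ p ∈ T, p) ^ 8 ≤ z → z ≤ w →
    (1 / 2) * (1 - (1 / 2) ^ T.card) * (Real.log (Real.log w) - Real.log (Real.log z)) - C
      ≤ ∑ q ∈ (pr z w).filter (fun q => q % 3 = 1 ∧ ∃ p ∈ T, jacobiSym (p : ℤ) q = -1),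
        (1 : ℝ) / q := by
  classical
  obtain ⟨C1, hC1, h1⟩ := TW_sum
  obtain ⟨C2, hC2, h2⟩ := chi3_sum
  obtain ⟨C3, hC3, h3⟩ := mertens_two
  refine ⟨C1 + C2 + C3, by positivity, ?_⟩
  intro T hTne hT z w hz hzw
  set P := ∏ p ∈ T, p with hP
  have hPpos : 0 < P := qs_prod_pos T hT
  have hz12 : 12 * P ≤ z := by
    refine le_trans ?_ hz
    calc 12 * P = (12 * P) ^ 1 := by ring
      _ ≤ (12 * P) ^ 8 := Nat.pow_le_pow_right (by omega) (by norm_num)
  have hz3 : 3 < z := by omega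
  have hTz : ∀ p ∈ T, p < z := by
    intro p hp
    have : p ≤ P := Nat.le_of_dvd hPpos (Finset.dvd_prod_of_mem (fun i => i) hp)
    omega
  set c : ℝ := (1 / 2) ^ T.card with hc
  have hc0 : 0 < c := by positivity
  have hc1 : c ≤ 1 := pow_le_one₀ (by norm_num) (by norm_num)
  -- rewrite the sum
  have key : ∑ q ∈ (pr z w).filter (fun q => q % 3 = 1 ∧ ∃ p ∈ T, jacobiSym (p : ℤ) q = -1),
        (1 : ℝ) / q
      = (1 / 2) * (1 - c) * (∑ q ∈ pr z w, (1 : ℝ) / q + ∑ q ∈ pr z w, chi3 q / q)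
        - (1 / 2) * c * ∑ U ∈ T.powerset.erase ∅,
          (∑ q ∈ pr z w, psi ((∏ p ∈ U, p : ℕ) : ℤ) q / q
            + ∑ q ∈ pr z w, psi (-3 * ((∏ p ∈ U, p : ℕ) : ℤ)) q / q) := by
    rw [Finset.sum_filter]
    have e1 : ∀ q ∈ pr z w,
        (if (q % 3 = 1 ∧ ∃ p ∈ T, jacobiSym (p : ℤ) q = -1) then (1 : ℝ) / q else 0)
        = (1 / 2) * (1 - c) * ((1 : ℝ) / q + chi3 q / q)
        - (1 / 2) * c * ∑ U ∈ T.powerset.erase ∅,
          (psi ((∏ p ∈ U, p : ℕ) : ℤ) q / q + psi (-3 * ((∏ p ∈ U, p : ℕ) : ℤ)) q / q) := by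
      intro q hq
      rw [mem_pr] at hq
      rw [qs_inner T q hq.2 (by omega) hT (fun p hp => lt_of_lt_of_le (hTz p hp) hq.1.1)]
      ring
    rw [Finset.sum_congr rfl e1, Finset.sum_sub_distrib, ← Finset.mul_sum, ← Finset.mul_sum,
      Finset.sum_add_distrib]
    congr 1
    congr 1
    rw [Finset.sum_comm]
    refine Finset.sum_congr rfl fun U _ => ?_
    rw [Finset.sum_add_distrib]
  rw [key]
  -- the error terms
  have hU : ∀ U ∈ T.powerset.erase ∅,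
      (∑ q ∈ pr z w, psi ((∏ p ∈ U, p : ℕ) : ℤ) q / q
            + ∑ q ∈ pr z w, psi (-3 * ((∏ p ∈ U, p : ℕ) : ℤ)) q / q) ≤ 2 * C1 := by
    intro U hU
    rw [Finset.mem_erase, Finset.mem_powerset] at hU
    have hUne : U.Nonempty := Finset.nonempty_iff_ne_empty.2 hU.1
    have hUp : ∀ p ∈ U, p.Prime := fun p hp => hT p (hU.2 hp)
    have hUpos : 0 < ∏ p ∈ U, p := qs_prod_pos U hUp
    have hUle : ∏ p ∈ U, p ≤ P := qs_prod_le T U hT hU.2
    set D := ∏ p ∈ U, p with hD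
    have a1 : ∑ q ∈ pr z w, psi ((D : ℕ) : ℤ) q / q ≤ C1 := by
      apply h1 (psi (D : ℤ)) (4 * ((D : ℤ)).natAbs) _ _ z w _ hzw
      · rw [Int.natAbs_natCast]
        omega
      · apply psi_TW
        · exact_mod_cast hUpos.ne'
        · exact ex_pos U hUne hUp
      · rw [Int.natAbs_natCast]
        exact le_trans (Nat.pow_le_pow_left (by omega) 8) hz
    have a2 : ∑ q ∈ pr z w, psi (-3 * ((D : ℕ) : ℤ)) q / q ≤ C1 := by
      have hab : (-3 * (D : ℤ)).natAbs = 3 * D := by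
        rw [Int.natAbs_mul, Int.natAbs_natCast]
        rfl
      have hneg : -3 * (D : ℤ) < 0 := by
        have : (0 : ℤ) < D := by exact_mod_cast hUpos
        linarith
      apply h1 (psi (-3 * (D : ℤ))) (4 * (-3 * (D : ℤ)).natAbs) _ _ z w _ hzw
      · rw [hab]
        omega
      · exact psi_TW _ hneg.ne (ex_neg _ hneg)
      · rw [hab]
        exact le_trans (Nat.pow_le_pow_left (by omega) 8) hz
    linarith
  have hsumU : ∑ U ∈ T.powerset.erase ∅,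
          (∑ q ∈ pr z w, psi ((∏ p ∈ U, p : ℕ) : ℤ) q / q
            + ∑ q ∈ pr z w, psi (-3 * ((∏ p ∈ U, p : ℕ) : ℤ)) q / q)
      ≤ 2 ^ T.card * (2 * C1) := by
    refine le_trans (Finset.sum_le_sum hU) ?_
    rw [Finset.sum_const, nsmul_eq_mul]
    apply mul_le_mul_of_nonneg_right _ (by positivity)
    have : ((T.powerset.erase ∅).card : ℝ) ≤ (T.powerset.card : ℝ) := by
      exact_mod_cast Finset.card_le_card (Finset.erase_subset _ _)
    rw [Finset.card_powerset] at this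
    push_cast at this
    exact this
  have herr : (1 / 2) * c * ∑ U ∈ T.powerset.erase ∅,
          (∑ q ∈ pr z w, psi ((∏ p ∈ U, p : ℕ) : ℤ) q / q
            + ∑ q ∈ pr z w, psi (-3 * ((∏ p ∈ U, p : ℕ) : ℤ)) q / q) ≤ C1 := by
    have g1 : (1 / 2) * c * ∑ U ∈ T.powerset.erase ∅,
          (∑ q ∈ pr z w, psi ((∏ p ∈ U, p : ℕ) : ℤ) q / q
            + ∑ q ∈ pr z w, psi (-3 * ((∏ p ∈ U, p : ℕ) : ℤ)) q / q)
          ≤ (1 / 2) * c * (2 ^ T.card * (2 * C1)) :=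
      mul_le_mul_of_nonneg_left hsumU (by positivity)
    have g2 : (1 / 2) * c * (2 ^ T.card * (2 * C1)) = C1 := by
      have g3 : c * 2 ^ T.card = 1 := by
        rw [hc, ← mul_pow]
        norm_num
      calc (1 / 2) * c * (2 ^ T.card * (2 * C1)) = (c * 2 ^ T.card) * C1 := by ring
        _ = C1 := by rw [g3, one_mul]
    linarith
  -- the main term
  have m1 := h3 z w (by omega) hzw
  have m2 := h2 z w (by omega) hzw
  rw [abs_le] at m1
  have m3 : (1 / 2) * (1 - c) * ((Real.log (Real.log w) - Real.log (Real.log z)) - (C2 + C3))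
      ≤ (1 / 2) * (1 - c) * (∑ q ∈ pr z w, (1 : ℝ) / q + ∑ q ∈ pr z w, chi3 q / q) := by
    apply mul_le_mul_of_nonneg_left _ (by
      have : 0 ≤ 1 - c := by linarith
      positivity)
    linarith [m1.1]
  have m4 : (1 / 2) * (1 - c) * (C2 + C3) ≤ C2 + C3 := by
    have g1 : (1 / 2) * (1 - c) ≤ 1 := by linarith
    calc (1 / 2) * (1 - c) * (C2 + C3) ≤ 1 * (C2 + C3) :=
          mul_le_mul_of_nonneg_right g1 (by positivity)
      _ = C2 + C3 := one_mul _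
  have m5 : (1 / 2) * (1 - c) * ((Real.log (Real.log w) - Real.log (Real.log z)) - (C2 + C3))
      = (1 / 2) * (1 - c) * (Real.log (Real.log w) - Real.log (Real.log z))
        - (1 / 2) * (1 - c) * (C2 + C3) := by ring
  linarith

end Pool.Agent.H37.PPC
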